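import Mathlib

namespace H715Z.BW

/-- `P` has width `w`: `w` is the largest size of an antichain of `P`. -/
def HasWidth (P : Type) [PartialOrder P] (w : ℕ) : Prop :=
  IsGreatest {n : ℕ | ∃ A : Finset P, IsAntichain (· ≤ ·) (A : Set P) ∧ A.card = n} w

open Classical in
/-- `P` has a Boolean realizer of size `d`. -/
def HasBoolRealizer (P : Type) [PartialOrder P] (d : ℕ) : Prop :=
  ∃ L : Fin d → P → P → Prop, (∀ i, IsStrictTotalOrder P (L i)) ∧
    ∃ τ : (Fin d → Bool) → Bool, ∀ x y, x ≠ y → (x < y ↔ τ (fun i => decide (L i x y)) = true)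

end H715Z.BW
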