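import Pool.Agent.H715Z.BWDefs

/-! Layered posets of width `w` with large Boolean dimension. -/

namespace H715Z.BW

open Finset

abbrev Rel (w k : ℕ) := Fin k × {p : Fin w × Fin w // p.1 ≠ p.2} → Bool

def Pt (w k : ℕ) : Type := Rel w k × Fin (k + 1) × Fin w

variable {w k : ℕ}

noncomputable instance : Fintype (Pt w k) :=
  inferInstanceAs (Fintype (Rel w k × Fin (k + 1) × Fin w))

noncomputable def lev (x : Pt w k) : ℕ :=
  (Fintype.equivFin (Rel w k) x.1).val * (k + 2) + x.2.1.val

def plt (x y : Pt w k) : Prop :=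
  lev x + 2 ≤ lev y ∨ (lev x + 1 = lev y ∧ (x.2.2 = y.2.2 ∨
    ∃ (hs : x.2.1.val < k) (h : x.2.2 ≠ y.2.2), x.1 (⟨x.2.1.val, hs⟩, ⟨(x.2.2, y.2.2), h⟩) = true))

theorem plt_lev {x y : Pt w k} (h : plt x y) : lev x < lev y := by
  rcases h with h | h <;> omega

instance : IsStrictOrder (Pt w k) plt where
  irrefl _ h := lt_irrefl _ (plt_lev h)
  trans _ _ _ h1 h2 := Or.inl (by have := plt_lev h1; have := plt_lev h2; omega)

noncomputable instance : PartialOrder (Pt w k) := partialOrderOfSO plt

theorem lev_inj {x y : Pt w k} (h : lev x = lev y) (h' : x.2.2 = y.2.2) : x = y := by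
  have h1 := x.2.1.2
  have h2 := y.2.1.2
  have h3 := congrArg (· % (k + 2)) h
  have h4 := congrArg (· / (k + 2)) h
  simp only [lev, Nat.mul_add_mod_of_lt (show x.2.1.val < k + 2 by omega),
    Nat.mul_add_mod_of_lt (show y.2.1.val < k + 2 by omega)] at h3
  have h5 : (Fintype.equivFin (Rel w k) x.1).val = (Fintype.equivFin (Rel w k) y.1).val := by
    unfold lev at h
    rw [h3] at h
    exact Nat.eq_of_mul_eq_mul_right (by omega) (Nat.add_right_cancel h)
  exact Prod.ext ((Fintype.equivFin _).injective (Fin.ext h5)) (Prod.ext (Fin.ext h3) h')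

theorem width : HasWidth (Pt w k) w := by
  classical
  constructor
  · refine ⟨univ.map ⟨fun i : Fin w => ((fun _ => true), 0, i), fun i j h => ?_⟩, ?_, by simp⟩
    · exact congrArg (fun x : Pt w k => x.2.2) h
    · intro x hx y hy hne hle
      simp only [coe_map, coe_univ, Set.image_univ] at hx hy
      obtain ⟨i, rfl⟩ := hx
      obtain ⟨j, rfl⟩ := hy
      have h1 : plt ((fun _ => true), 0, i) ((fun _ => true), 0, j) := lt_of_le_of_ne hle hne
      exact absurd (plt_lev h1) (by simp [lev])
  · rintro _ ⟨A, hA, rfl⟩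
    have : A.card ≤ (univ : Finset (Fin w)).card := by
      refine card_le_card_of_injOn (fun x => x.2.2) (fun _ _ => by simp) fun x hx y hy h => ?_
      by_contra hne
      have h0 : x.2.2 = y.2.2 := h
      rcases lt_trichotomy (lev x) (lev y) with h1 | h1 | h1
      · refine hA hx hy hne (le_of_lt (show plt x y from ?_))
        by_cases h2 : lev x + 1 = lev y
        · exact Or.inr ⟨h2, Or.inl h0⟩
        · exact Or.inl (by omega)
      · exact hne (lev_inj h1 h0)
      · refine hA hy hx (Ne.symm hne) (le_of_lt (show plt y x from ?_))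
        by_cases h2 : lev y + 1 = lev x
        · exact Or.inr ⟨h2, Or.inl h0.symm⟩
        · exact Or.inl (by omega)
    simpa using this

theorem exists_rank {A : Type} [Fintype A] (r : A → A → Prop) (hr : IsStrictTotalOrder A r) :
    ∃ f : A → Fin (Fintype.card A), ∀ u v, r u v ↔ f u < f v := by
  classical
  have hlt : ∀ u, (univ.filter fun v => r v u).card < Fintype.card A := fun u =>
    card_lt_card ⟨subset_univ _, fun h => irrefl_of r u (mem_filter.1 (h (mem_univ u))).2⟩
  have key : ∀ u v, r u v →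
      (univ.filter fun x => r x u).card < (univ.filter fun x => r x v).card := fun u v h =>
    card_lt_card ⟨fun x hx => mem_filter.2 ⟨mem_univ _, trans_of r (mem_filter.1 hx).2 h⟩,
      fun h' => irrefl_of r u (mem_filter.1 (h' (mem_filter.2 ⟨mem_univ u, h⟩))).2⟩
  refine ⟨fun u => ⟨_, hlt u⟩, fun u v => ⟨key u v, fun h => ?_⟩⟩
  rcases trichotomous_of r u v with h1 | h1 | h1
  · exact h1
  · subst h1; exact absurd h (lt_irrefl _)
  · exact absurd h (not_lt.2 (key v u h1).le)

theorem count {d : ℕ} (h : HasBoolRealizer (Pt w k) d) :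
    2 ^ (k * (w * w - w)) ≤ ((k + 1) * w) ^ ((k + 1) * w * d) := by
  classical
  obtain ⟨L, hL, τ, hτ⟩ := h
  have h1 : ∀ (R : Rel w k) (t : Fin d), ∃ f : Fin (k + 1) × Fin w →
      Fin (Fintype.card (Fin (k + 1) × Fin w)), ∀ u v, L t (R, u) (R, v) ↔ f u < f v := by
    intro R t
    haveI := hL t
    refine exists_rank (fun u v => L t (R, u) (R, v)) ?_
    exact
      { trichotomous := fun u v h1 h2 => by
          have := trichotomous_of (L t) (R, u) (R, v)
          rcases this with h | h | h
          · exact absurd h h1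
          · exact congrArg (fun x : Pt w k => x.2) h
          · exact absurd h h2
        irrefl := fun u => irrefl_of (L t) _
        trans := fun _ _ _ h1 h2 => trans_of (L t) h1 h2 }
  choose F hF using h1
  have h2 : ∀ (R : Rel w k) (s : Fin k) (p : {p : Fin w × Fin w // p.1 ≠ p.2}),
      R (s, p) = true ↔ τ (fun t => decide (F R t (s.castSucc, p.1.1) < F R t (s.succ, p.1.2))) =
        true := by
    intro R s p
    have h3 := hτ (R, s.castSucc, p.1.1) (R, s.succ, p.1.2)
      fun e => p.2 (congrArg (fun x : Pt w k => x.2.2) e)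
    simp only [hF] at h3
    rw [← h3]
    change _ ↔ plt _ _
    constructor
    · intro h
      exact Or.inr ⟨by simp [lev, add_assoc], Or.inr ⟨s.2, p.2, h⟩⟩
    · rintro (h | ⟨-, h | ⟨_, _, h⟩⟩)
      · simp [lev] at h
        omega
      · exact absurd h p.2
      · exact h
  have h3 : Function.Injective F := by
    intro R R' e
    funext ⟨s, p⟩
    rw [Bool.eq_iff_iff, h2, h2, e]
  have h4 := Fintype.card_le_of_injective F h3
  have h5 : Fintype.card {p : Fin w × Fin w // p.1 ≠ p.2} = w * w - w := by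
    rw [Fintype.card_subtype]
    have : (univ.filter fun p : Fin w × Fin w => p.1 ≠ p.2) = (univ : Finset (Fin w)).offDiag := by
      ext p; simp
    rw [this, offDiag_card]
    simp
  simp only [Fintype.card_fun, Fintype.card_prod, Fintype.card_fin, Fintype.card_bool, h5] at h4
  rwa [← pow_mul] at h4

theorem main (ε : ℝ) (hε : 0 < ε) : ∃ w₀ : ℕ, ∀ w ≥ w₀, ∃ (P : Type) (_ : Fintype P)
    (_ : PartialOrder P), HasWidth P w ∧
      ∀ d, HasBoolRealizer P d → (1 - ε) * w / Real.logb 2 w ≤ d := by
  obtain ⟨k, hk⟩ := exists_nat_ge (3 / ε)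
  refine ⟨(k + 2) ^ (k + 1), fun w hw => ⟨Pt w k, inferInstance, inferInstance, width,
    fun d hd => ?_⟩⟩
  have h1 := count hd
  have hw1 : k + 2 ≤ w := le_trans (Nat.le_self_pow (by omega) _) hw
  have hw' : (2 : ℝ) ≤ w := by exact_mod_cast (show 2 ≤ w by omega)
  have hl : 0 < Real.logb 2 w := Real.logb_pos (by norm_num) (by linarith)
  have h2 : (k : ℝ) * (w * w - w) ≤ (k + 1) * w * d * Real.logb 2 ((k + 1) * w) := by
    have h3 : ((2 : ℝ) ^ (k * (w * w - w))) ≤ ((k + 1) * w : ℝ) ^ ((k + 1) * w * d) := by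
      exact_mod_cast h1
    have h4 := Real.logb_le_logb_of_le (b := 2) (by norm_num) (by positivity) h3
    rw [Real.logb_pow, Real.logb_pow, Real.logb_self_eq_one (by norm_num)] at h4
    have h5 : w ≤ w * w := Nat.le_mul_self w
    push_cast [h5] at h4
    linarith
  have h6 : (k + 1 : ℝ) * Real.logb 2 (k + 1) ≤ Real.logb 2 w := by
    have h7 : ((k + 1 : ℝ)) ^ (k + 1) ≤ w := by
      have : (k + 1) ^ (k + 1) ≤ w := le_trans (Nat.pow_le_pow_left (by omega) _) hw
      exact_mod_cast this
    have h8 := Real.logb_le_logb_of_le (b := 2) (by norm_num) (by positivity) h7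
    rw [Real.logb_pow] at h8
    push_cast at h8
    exact h8
  rw [Real.logb_mul (by positivity) (by positivity)] at h2
  rw [div_le_iff₀ hl]
  set l := Real.logb 2 w
  set a := Real.logb 2 (k + 1)
  have hk0 : (0 : ℝ) ≤ k := Nat.cast_nonneg k
  have hd0 : (0 : ℝ) ≤ d := Nat.cast_nonneg d
  have hkw : (k + 2 : ℝ) ≤ w := by exact_mod_cast hw1
  have h9 : (k : ℝ) * (w - 1) ≤ (k + 2) * (d * l) := by
    have h10 : (k : ℝ) * (w - 1) * w ≤ (k + 2) * (d * l) * w := by
      have : (d : ℝ) * w * ((k + 1) * a) ≤ d * w * l :=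
        mul_le_mul_of_nonneg_left h6 (by positivity)
      nlinarith
    exact le_of_mul_le_mul_right h10 (by linarith)
  have h11 : 3 ≤ ε * k := by
    rw [div_le_iff₀ hε] at hk
    linarith
  have h12 : (1 - ε) * w * (k + 2) ≤ k * (w - 1) := by nlinarith
  exact le_of_mul_le_mul_right (by linarith) (show (0 : ℝ) < k + 2 by linarith)

end H715Z.BW
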