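import Mathlib

set_option autoImplicit false

namespace Pool.Agent.H715Z.Burl

def P : ℕ → Type
  | 0 => Unit
  | k + 1 => P k × P k × Bool

def X : ℕ → Type
  | 0 => Unit
  | k + 1 => X k ⊕ (P k × X k) ⊕ (P k × P k)

instance finP : ∀ k, Finite (P k)
  | 0 => inferInstanceAs (Finite Unit)
  | k + 1 => by have := finP k; exact inferInstanceAs (Finite (P k × P k × Bool))

instance finX : ∀ k, Finite (X k)
  | 0 => inferInstanceAs (Finite Unit)
  | k + 1 => by have := finX k; exact inferInstanceAs (Finite (X k ⊕ (P k × X k) ⊕ (P k × P k)))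

def wP : ∀ k, P k → List Bool
  | 0, _ => [false]
  | k + 1, (s, t, b) => wP k s ++ (wP k t ++ (if b then [true, false] else [false]))

def wX : ∀ k, X k → List Bool
  | 0, _ => []
  | k + 1, .inl x => wX k x
  | k + 1, .inr (.inl (s, x)) => wP k s ++ wX k x
  | k + 1, .inr (.inr (s, t)) => wP k s ++ (wP k t ++ [true])

def M : ℕ → ℕ
  | 0 => 1
  | k + 1 => 2 * M k + 1

def y : ∀ k, X k → ℕ
  | 0, _ => 0
  | k + 1, .inl x => y k x + M k + 1
  | k + 1, .inr (.inl (_, x)) => y k x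
  | k + 1, .inr (.inr _) => M k

def vis : ∀ k, X k → P k → Prop
  | 0, _, _ => True
  | k + 1, .inl x, (s, _, _) => vis k x s
  | k + 1, .inr (.inl (s', x)), (s, t, b) => s' = s ∧ vis k x t ∧ b = false
  | _ + 1, .inr (.inr (s', t')), (s, t, b) => s' = s ∧ t' = t ∧ b = true

def arc : ∀ k, X k → X k → Prop
  | 0, _, _ => False
  | k + 1, .inl x, .inl x' => arc k x x'
  | k + 1, .inr (.inl (s, x)), .inr (.inl (s', x')) => s = s' ∧ arc k x x'
  | k + 1, .inr (.inl (s, x)), .inr (.inr (s', t)) => s = s' ∧ vis k x t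
  | _ + 1, _, _ => False

theorem y_lt : ∀ k (x : X k), y k x < M k
  | 0, _ => by simp [y, M]
  | k + 1, .inl x => by have := y_lt k x; simp only [y, M]; omega
  | k + 1, .inr (.inl (_, x)) => by have := y_lt k x; simp only [y, M]; omega
  | k + 1, .inr (.inr _) => by simp only [y, M]; omega

theorem wP_free : ∀ k (s s' : P k) (l l' : List Bool), wP k s ++ l = wP k s' ++ l' → s = s'
  | 0, _, _, _, _, _ => rfl
  | k + 1, (s, t, b), (s', t', b'), l, l', h => by
    simp only [wP, List.append_assoc] at h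
    obtain rfl := wP_free k _ _ _ _ h
    have h := List.append_cancel_left h
    obtain rfl := wP_free k _ _ _ _ h
    have h := List.append_cancel_left h
    cases b <;> cases b' <;> simp at h <;> rfl

theorem D2 {k : ℕ} {s s' : P k} {l l' : List Bool} :
    wP k s ++ l <+: wP k s' ++ l' ↔ s = s' ∧ l <+: l' := by
  constructor
  · rintro ⟨r, h⟩
    rw [List.append_assoc] at h
    obtain rfl := wP_free k _ _ _ _ h
    exact ⟨rfl, r, List.append_cancel_left h⟩
  · rintro ⟨rfl, h⟩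
    exact (List.prefix_append_right_inj _).2 h

theorem D3 : ∀ k (s : P k) (l : List Bool) (x : X k), ¬ wP k s ++ l <+: wX k x
  | 0, _, _, _ => by simp [wP, wX]
  | k + 1, (s, t, b), l, .inl x => by
    simp only [wP, wX, List.append_assoc]; exact D3 k s _ x
  | k + 1, (s, t, b), l, .inr (.inl (s', x)) => by
    simp only [wP, wX, List.append_assoc, D2]
    exact fun h => D3 k t _ x h.2
  | k + 1, (s, t, b), l, .inr (.inr (s', t')) => by
    simp only [wP, wX, List.append_assoc, D2]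
    rintro ⟨-, -, h⟩
    cases b <;> simp at h

theorem D1 {k : ℕ} {z : X k} {s : P k} {l : List Bool} :
    wX k z <+: wP k s ++ l ↔ wX k z <+: wP k s := by
  constructor
  · intro h
    rcases List.prefix_or_prefix_of_prefix h (List.prefix_append _ _) with h' | h'
    · exact h'
    · exact absurd (by simpa using h') (D3 k s [] z)
  · exact fun h => h.trans (List.prefix_append _ _)

theorem wX_inj : ∀ k (x x' : X k), wX k x = wX k x' → x = x'
  | 0, _, _, _ => rfl
  | k + 1, .inl x, .inl x', h => by rw [wX_inj k x x' h]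
  | k + 1, .inl x, .inr (.inl (s, x')), h => absurd (h ▸ List.prefix_rfl) (D3 k s (wX k x') x)
  | k + 1, .inl x, .inr (.inr (s, t)), h =>
      absurd (h ▸ List.prefix_rfl) (D3 k s (wP k t ++ [true]) x)
  | k + 1, .inr (.inl (s, x')), .inl x, h => absurd (h ▸ List.prefix_rfl) (D3 k s (wX k x') x)
  | k + 1, .inr (.inr (s, t)), .inl x, h =>
      absurd (h ▸ List.prefix_rfl) (D3 k s (wP k t ++ [true]) x)
  | k + 1, .inr (.inl (s, x)), .inr (.inl (s', x')), h => by
    obtain rfl := wP_free k _ _ _ _ h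
    rw [wX_inj k x x' (List.append_cancel_left h)]
  | k + 1, .inr (.inl (s, x)), .inr (.inr (s', t)), h => by
    obtain rfl := wP_free k _ _ _ _ h
    exact absurd ((List.append_cancel_left h) ▸ List.prefix_rfl) (D3 k t [true] x)
  | k + 1, .inr (.inr (s', t)), .inr (.inl (s, x)), h => by
    obtain rfl := wP_free k _ _ _ _ h
    exact absurd ((List.append_cancel_left h) ▸ List.prefix_rfl) (D3 k t [true] x)
  | k + 1, .inr (.inr (s, t)), .inr (.inr (s', t')), h => by
    obtain rfl := wP_free k _ _ _ _ h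
    obtain rfl := wP_free k _ _ _ _ (List.append_cancel_left h)
    rfl

theorem invV : ∀ k (x : X k) (s : P k), vis k x s → wX k x <+: wP k s ∧
    ∀ z, wX k z <+: wP k s → wX k x <+: wX k z → z = x ∨ y k z < y k x
  | 0, _, _, _ => ⟨by simp [wX], fun _ _ _ => Or.inl rfl⟩
  | k + 1, .inl x, (s, t, b), h => by
    obtain ⟨h1, h2⟩ := invV k x s h
    refine ⟨D1.2 h1, ?_⟩
    rintro (z | ⟨s', z⟩ | ⟨s', t'⟩) hz hx
    · rcases h2 z (D1.1 hz) hx with rfl | h
      · exact Or.inl rfl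
      · right; simp only [y]; omega
    · right; have := y_lt k z; simp only [y]; omega
    · right; simp only [y]; omega
  | k + 1, .inr (.inl (s', x)), (s, t, b), ⟨e1, h, e2⟩ => by
    subst e1 e2
    obtain ⟨h1, h2⟩ := invV k x t h
    refine ⟨D2.2 ⟨rfl, D1.2 h1⟩, ?_⟩
    rintro (z | ⟨s'', z⟩ | ⟨s'', t'⟩) hz hx
    · exact absurd hx (D3 k _ _ _)
    · obtain ⟨rfl, hz'⟩ := D2.1 hz
      rcases h2 z (D1.1 hz') (D2.1 hx).2 with rfl | h
      · exact Or.inl rfl
      · exact Or.inr h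
    · have := (D2.1 (D2.1 hz).2).2
      simp at this
  | k + 1, .inr (.inr (s', t')), (s, t, b), ⟨e1, e2, e3⟩ => by
    subst e1 e2 e3
    refine ⟨D2.2 ⟨rfl, D2.2 ⟨rfl, by simp⟩⟩, ?_⟩
    rintro (z | ⟨s'', z⟩ | ⟨s'', t''⟩) hz hx
    · exact absurd hx (D3 k _ _ _)
    · exact absurd (D2.1 hx).2 (D3 k _ _ _)
    · obtain ⟨rfl, h⟩ := D2.1 hx
      obtain ⟨rfl, -⟩ := D2.1 h
      exact Or.inl rfl

theorem invE : ∀ k (u w : X k), arc k u w → wX k u <+: wX k w ∧ y k u < y k w ∧
    (∀ z, wX k u <+: wX k z → wX k z <+: wX k w → z = u ∨ z = w ∨ y k z < y k u) ∧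
    (∀ z, wX k w <+: wX k z → y k z < y k u ∨ y k w ≤ y k z)
  | 0, _, _, h => h.elim
  | k + 1, .inl u, .inl w, h => by
    obtain ⟨h1, h2, h3, h4⟩ := invE k u w h
    refine ⟨h1, by simp only [y]; omega, ?_, ?_⟩
    · rintro (z | ⟨s', z⟩ | ⟨s', t'⟩) hu hw
      · rcases h3 z hu hw with rfl | rfl | h
        · exact Or.inl rfl
        · exact Or.inr (Or.inl rfl)
        · right; right; simp only [y]; omega
      · exact absurd hw (D3 k _ _ _)
      · exact absurd hw (D3 k _ _ _)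
    · rintro (z | ⟨s', z⟩ | ⟨s', t'⟩) hw
      · have := h4 z hw
        simp only [y]; omega
      · left; have := y_lt k z; simp only [y]; omega
      · left; simp only [y]; omega
  | k + 1, .inr (.inl (s, u)), .inr (.inl (s', w)), ⟨e, h⟩ => by
    subst e
    obtain ⟨h1, h2, h3, h4⟩ := invE k u w h
    refine ⟨D2.2 ⟨rfl, h1⟩, h2, ?_, ?_⟩
    · rintro (z | ⟨s', z⟩ | ⟨s', t'⟩) hu hw
      · exact absurd hu (D3 k _ _ _)
      · obtain ⟨rfl, hu'⟩ := D2.1 hu
        rcases h3 z hu' (D2.1 hw).2 with rfl | rfl | h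
        · exact Or.inl rfl
        · exact Or.inr (Or.inl rfl)
        · exact Or.inr (Or.inr h)
      · exact absurd (D2.1 hw).2 (D3 k _ _ _)
    · rintro (z | ⟨s', z⟩ | ⟨s', t'⟩) hw
      · exact absurd hw (D3 k _ _ _)
      · exact h4 z (D2.1 hw).2
      · right; exact (y_lt k w).le
  | k + 1, .inr (.inl (s, u)), .inr (.inr (s', t)), ⟨e, h⟩ => by
    subst e
    obtain ⟨h1, h2⟩ := invV k u t h
    refine ⟨D2.2 ⟨rfl, D1.2 h1⟩, y_lt k u, ?_, ?_⟩
    · rintro (z | ⟨s', z⟩ | ⟨s', t'⟩) hu hw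
      · exact absurd hu (D3 k _ _ _)
      · obtain ⟨rfl, hu'⟩ := D2.1 hu
        rcases h2 z (D1.1 (D2.1 hw).2) hu' with rfl | h
        · exact Or.inl rfl
        · exact Or.inr (Or.inr h)
      · obtain ⟨rfl, h⟩ := D2.1 hw
        obtain ⟨rfl, -⟩ := D2.1 h
        exact Or.inr (Or.inl rfl)
    · rintro (z | ⟨s', z⟩ | ⟨s', t'⟩) hw
      · exact absurd hw (D3 k _ _ _)
      · exact absurd (D2.1 hw).2 (D3 k _ _ _)
      · exact Or.inr le_rfl
  | _ + 1, .inl _, .inr _, h => h.elim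
  | _ + 1, .inr (.inl _), .inl _, h => h.elim
  | _ + 1, .inr (.inr _), .inl _, h => h.elim
  | _ + 1, .inr (.inr _), .inr (.inl _), h => h.elim
  | _ + 1, .inr (.inr _), .inr (.inr _), h => h.elim

theorem box {k : ℕ} {u w v z : X k} (h1 : arc k u w) (h2 : arc k w v) (hu : wX k u <+: wX k z)
    (hv : wX k z <+: wX k v) (hy : y k u ≤ y k z) : z = u ∨ z = w ∨ z = v := by
  obtain ⟨-, -, a3, a4⟩ := invE k u w h1
  obtain ⟨b1, -, b3, -⟩ := invE k w v h2
  rcases List.prefix_or_prefix_of_prefix hv b1 with h | h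
  · rcases a3 z hu h with h | h | h
    · exact Or.inl h
    · exact Or.inr (Or.inl h)
    · omega
  · rcases b3 z h hv with h' | h' | h'
    · exact Or.inr (Or.inl h')
    · exact Or.inr (Or.inr h')
    · have := a4 z h; omega

theorem colour {K : Type} [Finite K] : ∀ k (φ : X k → K), (∀ u w, arc k u w → φ u ≠ φ w) →
    ∃ s : P k, k + 1 ≤ {c | ∃ x, vis k x s ∧ φ x = c}.ncard
  | 0, φ, _ => ⟨(), by
      rw [zero_add, Nat.one_le_iff_ne_zero]
      exact Set.ncard_ne_zero_of_mem (a := φ ()) ⟨(), trivial, rfl⟩⟩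
  | k + 1, φ, h => by
    obtain ⟨s, hs⟩ := colour k (fun x => φ (.inl x)) fun u w a => h (.inl u) (.inl w) a
    obtain ⟨t, ht⟩ := colour k (fun x => φ (.inr (.inl (s, x)))) fun u w a =>
      h (.inr (.inl (s, u))) (.inr (.inl (s, w))) ⟨rfl, a⟩
    set A := {c | ∃ x, vis k x s ∧ φ (.inl x) = c} with hA
    set B := {c | ∃ x, vis k x t ∧ φ (.inr (.inl (s, x))) = c} with hB
    have hAsub : ∀ b, A ⊆ {c | ∃ x, vis (k + 1) x (s, t, b) ∧ φ x = c} := by
      rintro b c ⟨x, h1, h2⟩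
      exact ⟨.inl x, h1, h2⟩
    by_cases h1 : B ⊆ A
    · have hp : φ (.inr (.inr (s, t))) ∉ B := by
        rintro ⟨x, h1, h2⟩
        exact h (.inr (.inl (s, x))) (.inr (.inr (s, t))) ⟨rfl, h1⟩ h2
      refine ⟨(s, t, true), ?_⟩
      have : insert (φ (.inr (.inr (s, t)))) B ⊆ {c | ∃ x, vis (k + 1) x (s, t, true) ∧ φ x = c} :=
        Set.insert_subset ⟨.inr (.inr (s, t)), ⟨rfl, rfl, rfl⟩, rfl⟩ (h1.trans (hAsub true))
      have h2 := Set.ncard_le_ncard this
      rw [Set.ncard_insert_of_notMem hp] at h2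
      omega
    · obtain ⟨c, ⟨x, hx1, hx2⟩, hc⟩ := Set.not_subset.1 h1
      refine ⟨(s, t, false), ?_⟩
      have : insert c A ⊆ {c | ∃ x, vis (k + 1) x (s, t, false) ∧ φ x = c} :=
        Set.insert_subset ⟨.inr (.inl (s, x)), ⟨rfl, hx1, rfl⟩, hx2⟩ (hAsub false)
      have h2 := Set.ncard_le_ncard this
      rw [Set.ncard_insert_of_notMem hc] at h2
      omega

theorem prefix_of_le : ∀ l m : List Bool, ¬ m < l → ¬ m.map not < l.map not → l <+: m
  | [], _, _, _ => List.nil_prefix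
  | c :: l, [], h, _ => absurd (List.nil_lt_cons c l) h
  | c :: l, d :: m, h1, h2 => by
    simp only [List.map_cons, List.cons_lt_cons_iff, not_or, not_and] at h1 h2
    cases c <;> cases d
    · exact (List.prefix_cons_inj _).2 (prefix_of_le l m (h1.2 rfl) (h2.2 rfl))
    · exact absurd (by decide) h2.1
    · exact absurd (by decide) h1.1
    · exact (List.prefix_cons_inj _).2 (prefix_of_le l m (h1.2 rfl) (h2.2 rfl))

theorem not_lt_of_prefix {l m : List Bool} (h : l <+: m) : ¬ m < l := by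
  obtain ⟨r, rfl⟩ := h
  induction l with
  | nil => simp
  | cons c l ih => simp only [List.cons_append, List.cons_lt_cons_iff]; simp [ih]

theorem rank {α β : Type} [Finite α] [LinearOrder β] (f : α → β) :
    ∃ r : α → ℕ, ∀ a b, r a < r b ↔ f a < f b := by
  refine ⟨fun a => {c | f c < f a}.ncard, fun a b => ⟨fun h => ?_, fun h => ?_⟩⟩
  · by_contra h'
    have : {c | f c < f b} ⊆ {c | f c < f a} := fun c hc => lt_of_lt_of_le hc (not_lt.1 h')
    exact absurd (Set.ncard_le_ncard this) (not_le.2 h)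
  · exact Set.ncard_lt_ncard ⟨fun c hc => lt_trans hc h, fun h' => lt_irrefl _ (h' (a := a) h)⟩

/-- A finite set with six linear orders and an acyclic digraph of large chromatic number whose
directed two-paths span boxes with three points. -/
theorem exists_config (K : Type) [Finite K] : ∃ (Y : Type) (_ : Finite Y) (f : Fin 6 → Y → ℕ)
    (A : Y → Y → Prop), (∀ i, Function.Injective (f i)) ∧
    (∀ u z, (∀ i, f i z ≤ f i u) → z = u) ∧
    (∀ u w v, A u w → A w v → w ≠ u ∧ w ≠ v ∧ ∀ z, (∀ i, f i z ≤ f i u ∨ f i z ≤ f i v) →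
      z = u ∨ z = w ∨ z = v) ∧
    ∀ φ : Y → K, ∃ u w, A u w ∧ φ u = φ w := by
  let k := Nat.card K
  obtain ⟨r1, h1⟩ := rank (fun x : X k => wX k x)
  obtain ⟨r2, h2⟩ := rank (fun x : X k => OrderDual.toDual (wX k x))
  obtain ⟨r3, h3⟩ := rank (fun x : X k => (wX k x).map not)
  obtain ⟨r4, h4⟩ := rank (fun x : X k => OrderDual.toDual ((wX k x).map not))
  obtain ⟨r5, h5⟩ := rank (fun x : X k => toLex (y k x, r1 x))
  obtain ⟨r6, h6⟩ := rank (fun x : X k => OrderDual.toDual (toLex (y k x, r1 x)))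
  simp only [OrderDual.toDual_lt_toDual] at h2 h4 h6
  have inj : ∀ {β : Type} [LinearOrder β] (g : X k → β) (r : X k → ℕ), Function.Injective g →
      ((∀ a b, r a < r b ↔ g a < g b) ∨ (∀ a b, r a < r b ↔ g b < g a)) →
      Function.Injective r := by
    intro β _ g r hg h a b e
    apply hg
    rcases h with h | h
    · exact le_antisymm (not_lt.1 fun h' => absurd ((h _ _).2 h') (by omega))
        (not_lt.1 fun h' => absurd ((h _ _).2 h') (by omega))
    · exact le_antisymm (not_lt.1 fun h' => absurd ((h _ _).2 h') (by omega))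
        (not_lt.1 fun h' => absurd ((h _ _).2 h') (by omega))
  have i1 : Function.Injective (wX k) := wX_inj k
  have i3 : Function.Injective fun x : X k => (wX k x).map not := fun a b e =>
    i1 ((List.map_injective_iff.2 Bool.not_injective) e)
  have j1 := inj _ r1 i1 (Or.inl h1)
  have i5 : Function.Injective fun x : X k => toLex (y k x, r1 x) := fun a b e =>
    j1 (congrArg Prod.snd (toLex.injective e))
  refine ⟨X k, inferInstance, ![r1, r2, r3, r4, r5, r6], arc k, fun i => ?_, fun u z h => ?_,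
    fun u w v a1 a2 => ?_, fun φ => ?_⟩
  · fin_cases i
    · exact j1
    · exact inj _ r2 i1 (Or.inr h2)
    · exact inj _ r3 i3 (Or.inl h3)
    · exact inj _ r4 i3 (Or.inr h4)
    · exact inj _ r5 i5 (Or.inl h5)
    · exact inj _ r6 i5 (Or.inr h6)
  · have e1 : r1 z ≤ r1 u := h 0
    have e2 : r2 z ≤ r2 u := h 1
    apply j1
    have : ¬ r1 z < r1 u := fun h' => absurd ((h2 u z).2 ((h1 z u).1 h')) (by omega)
    omega
  · obtain ⟨p1, y1, -⟩ := invE k u w a1
    obtain ⟨p2, y2, -⟩ := invE k w v a2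
    refine ⟨by rintro rfl; omega, by rintro rfl; omega, fun z h => ?_⟩
    have puv := p1.trans p2
    have q1 : ¬ wX k v < wX k u := not_lt_of_prefix puv
    have q3 : ¬ (wX k v).map not < (wX k u).map not := not_lt_of_prefix (puv.map not)
    have e1 : r1 z ≤ r1 u ∨ r1 z ≤ r1 v := h 0
    have e2 : r2 z ≤ r2 u ∨ r2 z ≤ r2 v := h 1
    have e3 : r3 z ≤ r3 u ∨ r3 z ≤ r3 v := h 2
    have e4 : r4 z ≤ r4 u ∨ r4 z ≤ r4 v := h 3
    have e6 : r6 z ≤ r6 u ∨ r6 z ≤ r6 v := h 5
    have g1 : ¬ r1 v < r1 u := fun h' => q1 ((h1 _ _).1 h')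
    have g2 : ¬ r2 u < r2 v := fun h' => q1 ((h2 _ _).1 h')
    have g3 : ¬ r3 v < r3 u := fun h' => q3 ((h3 _ _).1 h')
    have g4 : ¬ r4 u < r4 v := fun h' => q3 ((h4 _ _).1 h')
    have g6 : r6 v < r6 u := (h6 _ _).2 (Prod.Lex.toLex_lt_toLex.2 (Or.inl (y1.trans y2)))
    refine box a1 a2 (prefix_of_le _ _ (fun h' => ?_) fun h' => ?_)
      (prefix_of_le _ _ (fun h' => ?_) fun h' => ?_) (not_lt.1 fun h' => ?_)
    · have := (h2 u z).2 h'; omega
    · have := (h4 u z).2 h'; omega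
    · have := (h1 v z).2 h'; omega
    · have := (h3 v z).2 h'; omega
    · have := (h6 u z).2 (Prod.Lex.toLex_lt_toLex.2 (Or.inl h')); omega
  · by_contra h
    push Not at h
    obtain ⟨s, hs⟩ := colour k φ h
    have := Set.ncard_le_card {c | ∃ x, vis k x s ∧ φ x = c}
    omega

end Pool.Agent.H715Z.Burl
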