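import Mathlib

set_option autoImplicit false

namespace Pool.Agent.H715Z.CG

/-- A convex geometry on `X`: contains `∅` and `X`, closed under intersection, and every member
other than `X` can be extended by one point. -/
def IsConvexGeometry {X : Type} (C : Set (Set X)) : Prop :=
  ∅ ∈ C ∧ Set.univ ∈ C ∧ (∀ A ∈ C, ∀ B ∈ C, A ∩ B ∈ C) ∧
    ∀ A ∈ C, A ≠ Set.univ → ∃ x, x ∉ A ∧ insert x A ∈ C

/-- Dushnik-Miller dimension: least number of strict linear orders whose intersection is `<`. -/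
noncomputable def dim (P : Type) [PartialOrder P] : ℕ :=
  sInf {t | ∃ L : Fin t → P → P → Prop, (∀ i, IsStrictTotalOrder P (L i)) ∧
    ∀ x y, x < y ↔ ∀ i, L i x y}

open Classical in
/-- Boolean dimension. -/
noncomputable def bdim (P : Type) [PartialOrder P] : ℕ :=
  sInf {d | ∃ L : Fin d → P → P → Prop, (∀ i, IsStrictTotalOrder P (L i)) ∧
    ∃ φ : (Fin d → Bool) → Bool, ∀ x y, x ≠ y → (x < y ↔ φ (fun i => decide (L i x y)) = true)}

/-- A linear extension of the subposet induced on `dom`. -/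
structure PLE (P : Type) [PartialOrder P] where
  dom : Set P
  lt : P → P → Prop
  mem_dom : ∀ x y, lt x y → x ∈ dom ∧ y ∈ dom
  irrefl : ∀ x, ¬ lt x x
  trans : ∀ x y z, lt x y → lt y z → lt x z
  total : ∀ x ∈ dom, ∀ y ∈ dom, x ≠ y → lt x y ∨ lt y x
  extend : ∀ x ∈ dom, ∀ y ∈ dom, x < y → lt x y

def IsLocalRealizer {P : Type} [PartialOrder P] (R : Set (PLE P)) : Prop :=
  (∀ x y, x < y → ∃ L ∈ R, L.lt x y) ∧ ∀ x y, ¬ x ≤ y → ¬ y ≤ x → ∃ L ∈ R, L.lt x y

/-- Local dimension. -/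
noncomputable def ldim (P : Type) [PartialOrder P] : ℕ :=
  sInf {t | ∃ R : Set (PLE P), IsLocalRealizer R ∧ ∀ x, {L ∈ R | x ∈ L.dom}.encard ≤ t}

end Pool.Agent.H715Z.CG
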