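import Pool.Agent.H715Z.CGDefs
import Pool.Agent.H715Z.CGBurling

set_option autoImplicit false

namespace Pool.Agent.H715Z.CG

section general
variable {P : Type}

def keyLt (g : P → ℕ) (h : P → ℤ) (x y : P) : Prop := g x < g y ∨ (g x = g y ∧ h x < h y)

theorem keyLt_sto (g : P → ℕ) {h : P → ℤ} (hh : Function.Injective h) :
    IsStrictTotalOrder P (keyLt g h) where
  irrefl x := by simp [keyLt]
  trans x y z := by unfold keyLt; omega
  trichotomous x y h1 h2 := by
    apply hh
    unfold keyLt at h1 h2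
    omega

theorem exists_tau [PartialOrder P] [Finite P] :
    ∃ τ : P → ℤ, Function.Injective τ ∧ ∀ x y, x < y → τ x < τ y := by
  obtain ⟨r, hr⟩ := Burl.rank (fun x : P => toLinearExtension x)
  have hi : Function.Injective (fun x : P => toLinearExtension x) := fun _ _ h => h
  refine ⟨fun x => r x, fun x y e => ?_, fun x y h => ?_⟩
  · have e' : r x = r y := Int.ofNat_inj.1 e
    apply hi
    exact le_antisymm (not_lt.1 fun h' => absurd ((hr _ _).2 h') (by omega))
      (not_lt.1 fun h' => absurd ((hr _ _).2 h') (by omega))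
  · have : r x < r y := (hr x y).2
      (lt_of_le_of_ne (toLinearExtension.monotone h.le) fun e => h.ne (hi e))
    exact Int.ofNat_lt.2 this

theorem bdim_le [PartialOrder P] [Finite P] {J : Type} [Fintype J] (g : J → P → ℕ)
    (H : ∀ x y x' y', x' ≠ y' → (∀ j, (g j x < g j y ↔ g j x' < g j y') ∧
      (g j y < g j x ↔ g j y' < g j x')) → x < y → x' < y') :
    bdim P ≤ Fintype.card (J × Bool) := by
  classical
  obtain ⟨τ, hτ, -⟩ := exists_tau (P := P)
  let e := Fintype.equivFin (J × Bool)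
  let L0 : J × Bool → P → P → Prop := fun p => keyLt (g p.1) (if p.2 then τ else fun x => - τ x)
  apply Nat.sInf_le
  refine ⟨fun i => L0 (e.symm i), fun i => keyLt_sto _ ?_, fun b => decide (∃ x y, x < y ∧
    b = fun i => decide (L0 (e.symm i) x y)), fun x' y' hne => ?_⟩
  · split_ifs
    · exact hτ
    · exact fun x y h => hτ (neg_injective h)
  · rw [decide_eq_true_iff]
    constructor
    · exact fun h => ⟨x', y', h, by congr⟩
    · rintro ⟨x, y, hxy, hb⟩
      refine H x y x' y' hne (fun j => ?_) hxy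
      have a1 := congrFun hb (e (j, true))
      have a2 := congrFun hb (e (j, false))
      simp only [Equiv.symm_apply_apply, decide_eq_decide, L0, keyLt, if_true,
        Bool.false_eq_true, if_false] at a1 a2
      have b1 : τ x ≠ τ y := fun h => hxy.ne (hτ h)
      have b2 : τ x' ≠ τ y' := fun h => hne (hτ h)
      omega

end general

section geo
variable {Y : Type} [Finite Y] (f : Fin 6 → Y → ℕ)

def hull (A : Set Y) : Set Y := {x | ∀ i, ∃ a ∈ A, f i x ≤ f i a}

def Geo : Set (Set Y) := {A | hull f A ⊆ A ∨ (hull f A).ncard ≤ 3}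

variable {f}

omit [Finite Y] in
theorem subset_hull (A : Set Y) : A ⊆ hull f A := fun a ha _ => ⟨a, ha, le_rfl⟩

omit [Finite Y] in
theorem hull_mono {A B : Set Y} (h : A ⊆ hull f B) : hull f A ⊆ hull f B := by
  intro x hx i
  obtain ⟨a, ha, h1⟩ := hx i
  obtain ⟨b, hb, h2⟩ := h ha i
  exact ⟨b, hb, h1.trans h2⟩

theorem geo_convex (hf : ∀ i, Function.Injective (f i)) : IsConvexGeometry (Geo f) := by
  refine ⟨Or.inl fun x hx => ?_, Or.inl (Set.subset_univ _), fun A hA B hB => ?_, fun A hA hne => ?_⟩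
  · obtain ⟨a, ha, -⟩ := hx 0
    exact ha
  · have h1 : hull f (A ∩ B) ⊆ hull f A := hull_mono (Set.inter_subset_left.trans (subset_hull A))
    have h2 : hull f (A ∩ B) ⊆ hull f B := hull_mono (Set.inter_subset_right.trans (subset_hull B))
    rcases hA with hA | hA
    · rcases hB with hB | hB
      · exact Or.inl (Set.subset_inter (h1.trans hA) (h2.trans hB))
      · exact Or.inr ((Set.ncard_le_ncard h2).trans hB)
    · exact Or.inr ((Set.ncard_le_ncard h1).trans hA)
  · by_cases hc : hull f A ⊆ A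
    · have key : ∀ n, ∀ B : Set Y, B.ncard = n → hull f B ⊆ B → A ⊆ B → A ≠ B →
          ∃ x, x ∉ A ∧ insert x A ∈ Geo f := by
        intro n
        induction n using Nat.strong_induction_on with
        | _ n ih =>
          intro B hn hB hAB hne
          obtain ⟨b0, hb0, hb0'⟩ := Set.exists_of_ssubset (lt_of_le_of_ne hAB hne)
          have : b0 ∉ hull f A := fun h => hb0' (hc h)
          simp only [hull, Set.mem_ofPred_eq, not_forall, not_exists, not_and, not_le] at this
          obtain ⟨i, hi⟩ := this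
          obtain ⟨b, hb, hmax⟩ := Set.exists_max_image B (f i) B.toFinite ⟨b0, hb0⟩
          have hbA : b ∉ A := fun h => absurd (hi b h) (not_lt.2 (hmax b0 hb0))
          have hB' : hull f (B \ {b}) ⊆ B \ {b} := by
            intro x hx
            refine ⟨hB (hull_mono (Set.sdiff_subset.trans (subset_hull B)) hx), ?_⟩
            rintro rfl
            obtain ⟨c, hc1, hc2⟩ := hx i
            exact hc1.2 (hf i (le_antisymm (hmax c hc1.1) hc2))
          have hAB' : A ⊆ B \ {b} := fun a ha => ⟨hAB ha, fun e => hbA (e ▸ ha)⟩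
          by_cases e : A = B \ {b}
          · refine ⟨b, hbA, Or.inl ?_⟩
            rw [e, Set.insert_sdiff_singleton, Set.insert_eq_of_mem hb]
            exact hB
          · exact ih _ (hn ▸ Set.ncard_sdiff_singleton_lt_of_mem hb) _ rfl hB' hAB' e
      exact key _ Set.univ rfl (Set.subset_univ _) (Set.subset_univ _) hne
    · obtain ⟨x, hx, hxA⟩ := Set.not_subset.1 hc
      refine ⟨x, hxA, Or.inr ?_⟩
      exact (Set.ncard_le_ncard (hull_mono (Set.insert_subset hx (subset_hull A)))).trans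
        (hA.resolve_left hc)

noncomputable def hi (f : Fin 6 → Y → ℕ) (i : Fin 6) (A : Set Y) : ℕ :=
  A.toFinite.toFinset.sup fun a => f i a + 1

theorem hi_le_iff (i : Fin 6) (A B : Set Y) :
    hi f i A ≤ hi f i B ↔ ∀ a ∈ A, ∃ b ∈ B, f i a ≤ f i b := by
  unfold hi
  rw [Finset.sup_le_iff]
  simp only [Set.Finite.mem_toFinset, Nat.succ_le_iff, Finset.lt_sup_iff, Nat.lt_succ_iff]

theorem hi_mono (i : Fin 6) {A B : Set Y} (h : A ⊆ B) : hi f i A ≤ hi f i B :=
  (hi_le_iff i A B).2 fun a ha => ⟨a, h ha, le_rfl⟩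

theorem subset_hull_of_hi {A B : Set Y} (h : ∀ i, hi f i A ≤ hi f i B) : A ⊆ hull f B :=
  fun a ha i => (hi_le_iff i A B).1 (h i) a ha

omit [Finite Y] in
theorem exists_enum (y0 : Y) : ∃ e : Set Y → Fin 3 → Y, ∀ A : Set Y, 0 < A.ncard → A.ncard ≤ 3 →
    A = Set.range (e A) := by
  have : ∀ A : Set Y, ∃ e : Fin 3 → Y, 0 < A.ncard → A.ncard ≤ 3 → A = Set.range e := by
    intro A
    by_cases h : 0 < A.ncard ∧ A.ncard ≤ 3
    · have : A.ncard = 1 ∨ A.ncard = 2 ∨ A.ncard = 3 := by omega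
      rcases this with h1 | h1 | h1
      · obtain ⟨a, rfl⟩ := Set.ncard_eq_one.1 h1
        exact ⟨![a, a, a], fun _ _ => by ext; simp⟩
      · obtain ⟨a, b, -, rfl⟩ := Set.ncard_eq_two.1 h1
        exact ⟨![a, b, b], fun _ _ => by ext; simp; tauto⟩
      · obtain ⟨a, b, c, -, -, -, rfl⟩ := Set.ncard_eq_three.1 h1
        exact ⟨![a, b, c], fun _ _ => by ext; simp; tauto⟩
    · exact ⟨fun _ => y0, fun h1 h2 => absurd ⟨h1, h2⟩ h⟩
  choose e he using this
  exact ⟨e, he⟩

theorem geo_bdim (hf : ∀ i, Function.Injective (f i)) (y0 : Y) : bdim (Geo f) ≤ 94 := by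
  classical
  obtain ⟨e, he⟩ := exists_enum y0
  let g : (Unit ⊕ Fin 6) ⊕ (Fin 4 ⊕ Fin 4 × Fin 3 × Fin 3) → Geo f → ℕ := fun j Z =>
    match j with
    | .inl (.inl _) => Z.1.ncard
    | .inl (.inr i) => hi f i Z.1
    | .inr (.inl s) => if Z.1.ncard = s then 1 else 0
    | .inr (.inr (s, i, j)) => if Z.1.ncard = s then f 0 (e Z.1 i) else f 0 (e Z.1 j)
  refine (bdim_le g ?_).trans (by simp)
  rintro ⟨A, hA⟩ ⟨B, hB⟩ ⟨A', hA'⟩ ⟨B', hB'⟩ hne H hlt
  have hAB : A ⊂ B := hlt
  have c1 : A.ncard < B.ncard := Set.ncard_lt_ncard hAB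
  have c2 : A'.ncard < B'.ncard := (H (.inl (.inl ()))).1.1 c1
  refine lt_of_le_of_ne (show A' ⊆ B' from ?_) hne
  by_cases hb : B'.ncard ≤ 3
  · have s1 : A.ncard = A'.ncard := by
      have := (H (.inr (.inl ⟨A'.ncard, by omega⟩))).2.2
      simp only [g] at this
      split_ifs at this <;> omega
    have s2 : B.ncard = B'.ncard := by
      have := (H (.inr (.inl ⟨B'.ncard, by omega⟩))).1.2
      simp only [g] at this
      split_ifs at this <;> omega
    intro a ha
    have p1 : 0 < A'.ncard := (Set.ncard_pos A'.toFinite).2 ⟨a, ha⟩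
    rw [he A' p1 (by omega)] at ha
    obtain ⟨i, rfl⟩ := ha
    have : e A i ∈ B := hAB.1 ((he A (by omega) (by omega)).ge ⟨i, rfl⟩)
    rw [he B (by omega) (by omega)] at this
    obtain ⟨j, hj⟩ := this
    have h1 := H (.inr (.inr (⟨A'.ncard, by omega⟩, i, j)))
    simp only [g, if_pos s1, if_neg (show ¬ B.ncard = A'.ncard by omega),
      if_neg (show ¬ B'.ncard = A'.ncard by omega), if_true, hj] at h1
    have : e A' i = e B' j := hf 0 (by omega)
    rw [this]
    exact (he B' (by omega) hb).ge ⟨j, rfl⟩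
  · have hcl : hull f B' ⊆ B' := hB'.resolve_right fun h =>
      hb ((Set.ncard_le_ncard (subset_hull B')).trans h)
    refine (subset_hull_of_hi fun i => ?_).trans hcl
    have h1 := (H (.inl (.inr i))).2
    have h2 := hi_mono (f := f) i hAB.1
    simp only [g] at h1
    omega

theorem geo_ldim : ldim (Geo f) ≤ 15 := by
  classical
  obtain ⟨τ, hτ, hτm⟩ := exists_tau (P := Geo f)
  let mk : (D : Set (Geo f)) → (g : Geo f → ℕ) → (∀ x ∈ D, ∀ y ∈ D, x < y → g x ≤ g y) →
      PLE (Geo f) := fun D g hg =>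
    { dom := D
      lt := fun x y => x ∈ D ∧ y ∈ D ∧ keyLt g τ x y
      mem_dom := fun x y h => ⟨h.1, h.2.1⟩
      irrefl := fun x h => (keyLt_sto g hτ).irrefl x h.2.2
      trans := fun x y z h1 h2 => ⟨h1.1, h2.2.1, (keyLt_sto g hτ).trans x y z h1.2.2 h2.2.2⟩
      total := fun x hx y hy hne => by
        have : τ x ≠ τ y := fun h => hne (hτ h)
        simp only [hx, hy, true_and, keyLt]; omega
      extend := fun x hx y hy h => by
        have := hg x hx y hy h
        have := hτm x y h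
        simp only [hx, hy, true_and, keyLt]; omega }
  let F : Fin 6 → PLE (Geo f) := fun i => mk Set.univ (fun Z => hi f i Z.1)
    fun x _ y _ h => hi_mono i (show x.1 ⊆ y.1 from h.le)
  let G : Geo f → PLE (Geo f) := fun A =>
    mk {B | B = A ∨ (¬ A ≤ B ∧ A.1 ⊆ hull f B.1 ∧ (hull f B.1).ncard ≤ 3)}
      (fun Z => if Z = A then 1 else 0) (by
        intro x hx y hy h
        by_cases e : x = A
        · subst e
          rcases hy with rfl | hy
          · exact le_rfl
          · exact absurd h.le hy.1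
        · simp [e])
  apply Nat.sInf_le
  refine ⟨Set.range F ∪ Set.range G, ⟨fun x y h => ⟨F 0, Or.inl ⟨0, rfl⟩,
    (F 0).extend x trivial y trivial h⟩, fun x y h1 h2 => ?_⟩, fun B => ?_⟩
  · by_cases h : ∀ i, hi f i y.1 ≤ hi f i x.1
    · have hs := subset_hull_of_hi h
      have h3 : (hull f x.1).ncard ≤ 3 := x.2.resolve_left fun h' => h2 (hs.trans h')
      have hne : x ≠ y := fun e => h1 e.le
      exact ⟨G y, Or.inr ⟨y, rfl⟩, Or.inr ⟨h2, hs, h3⟩, Or.inl rfl, Or.inl (by simp [hne])⟩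
    · push Not at h
      obtain ⟨i, hi'⟩ := h
      exact ⟨F i, Or.inl ⟨i, rfl⟩, trivial, trivial, Or.inl hi'⟩
  · have hsub : {L ∈ Set.range F ∪ Set.range G | B ∈ L.dom} ⊆
        Set.range F ∪ G '' (insert B {A | A.1 ⊆ hull f B.1 ∧ (hull f B.1).ncard ≤ 3}) := by
      rintro L ⟨h | ⟨A, rfl⟩, hB⟩
      · exact Or.inl h
      · rcases hB with rfl | hB
        · exact Or.inr ⟨B, Or.inl rfl, rfl⟩
        · exact Or.inr ⟨A, Or.inr hB.2, rfl⟩
    have a1 : (Set.range F).encard ≤ 6 := by
      rw [← Set.image_univ]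
      refine (Set.encard_image_le _ _).trans ?_
      simp
    have a2 : {A : Geo f | A.1 ⊆ hull f B.1 ∧ (hull f B.1).ncard ≤ 3}.encard ≤ 8 := by
      by_cases h : (hull f B.1).ncard ≤ 3
      · have b1 : {A : Geo f | A.1 ⊆ hull f B.1 ∧ (hull f B.1).ncard ≤ 3}.encard ≤
            (𝒫 (hull f B.1)).encard :=
          Set.encard_le_encard_of_injOn (f := Subtype.val) (fun A hA => hA.1)
            Subtype.val_injective.injOn
        refine b1.trans ?_
        rw [← (Set.toFinite _).cast_ncard_eq, Set.ncard_powerset _ (Set.toFinite _)]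
        have : 2 ^ (hull f B.1).ncard ≤ 8 := Nat.pow_le_pow_right (by norm_num) h
        exact_mod_cast this
      · simp [h]
    refine (Set.encard_le_encard hsub).trans ((Set.encard_union_le _ _).trans ?_)
    have a3 := (Set.encard_image_le G
      (insert B {A : Geo f | A.1 ⊆ hull f B.1 ∧ (hull f B.1).ncard ≤ 3})).trans
      ((Set.encard_insert_le _ _).trans (add_le_add_left a2 1))
    exact (add_le_add a1 a3).trans (by norm_num)

theorem realizer_exists (C : Set (Set Y)) (y0 : Y) :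
    {t | ∃ L : Fin t → C → C → Prop, (∀ i, IsStrictTotalOrder C (L i)) ∧
      ∀ x y, x < y ↔ ∀ i, L i x y}.Nonempty := by
  classical
  obtain ⟨τ, hτ, hτm⟩ := exists_tau (P := C)
  have := Fintype.ofFinite Y
  let e := Fintype.equivFin Y
  refine ⟨Fintype.card Y, fun i => keyLt (fun Z => if e.symm i ∈ Z.1 then 1 else 0) τ,
    fun i => keyLt_sto _ hτ, fun x y => ⟨fun h i => ?_, fun h => ?_⟩⟩
  · have h1 := hτm x y h
    have h2 : e.symm i ∈ x.1 → e.symm i ∈ y.1 := fun h' => (show x.1 ⊆ y.1 from h.le) h'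
    simp only [keyLt]
    split_ifs <;> first | omega | tauto
  · refine lt_of_le_of_ne (fun a ha => ?_) ?_
    · have := h (e a)
      simp only [keyLt, Equiv.symm_apply_apply, if_pos ha] at this
      by_contra hn
      simp only [if_neg hn] at this
      omega
    · rintro rfl
      exact (keyLt_sto _ hτ).irrefl x (h (e y0))

end geo

theorem main (m : ℕ) : ∃ (X : Type) (_ : Finite X) (C : Set (Set X)), IsConvexGeometry C ∧
    bdim C ≤ 94 ∧ ldim C ≤ 15 ∧ m ≤ dim C := by
  classical
  obtain ⟨Y, _, f, A, hf, h1, h2, h3⟩ := Burl.exists_config (Set (Fin m → Prop))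
  obtain ⟨y0, -⟩ := h3 fun _ => ∅
  refine ⟨Y, inferInstance, Geo f, geo_convex hf, geo_bdim hf y0, geo_ldim, ?_⟩
  by_contra hlt
  obtain ⟨L, hL, hL2⟩ := Nat.sInf_mem (realizer_exists (Geo f) y0)
  change Fin (dim (Geo f)) → _ at L
  have hs : ∀ u, ({u} : Set Y) ∈ Geo f := fun u => Or.inl fun z hz => h1 u z fun i => by
    obtain ⟨a, rfl, h⟩ := hz i
    exact h
  let sg : Y → Geo f := fun u => ⟨{u}, hs u⟩
  let κ : Y → Y → Fin m → Prop := fun u w i => ∃ h : (i : ℕ) < dim (Geo f), L ⟨i, h⟩ (sg u) (sg w)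
  have claim : ∀ u w v, A u w → A w v → κ u w ≠ κ w v := by
    intro u w v a1 a2 e
    obtain ⟨n1, n2, hb⟩ := h2 u w v a1 a2
    have hp : ({u, v} : Set Y) ∈ Geo f := by
      right
      have : hull f {u, v} ⊆ {u, w, v} := fun z hz => hb z fun i => by
        obtain ⟨a, rfl | rfl, h⟩ := hz i
        · exact Or.inl h
        · exact Or.inr h
      refine (Set.ncard_le_ncard this).trans ?_
      refine (Set.ncard_insert_le _ _).trans ?_
      have := Set.ncard_insert_le w ({v} : Set Y)
      rw [Set.ncard_singleton] at this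
      omega
    have hnle : ¬ sg w ≤ ⟨{u, v}, hp⟩ := fun h => by
      rcases (show ({w} : Set Y) ⊆ {u, v} from h) rfl with h | h
      · exact n1 h
      · exact n2 h
    have : ¬ ∀ i, L i (sg w) ⟨{u, v}, hp⟩ := fun h => hnle ((hL2 _ _).2 h).le
    push Not at this
    obtain ⟨i, hi⟩ := this
    have := hL i
    have k1 : L i ⟨{u, v}, hp⟩ (sg w) := by
      by_contra h
      exact hnle ((hL i).trichotomous _ _ hi h).le
    have k2 : ∀ x : Geo f, x ≤ ⟨{u, v}, hp⟩ → L i x (sg w) := fun x hx => by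
      rcases hx.lt_or_eq with h | h
      · exact (hL i).trans _ _ _ ((hL2 _ _).1 h i) k1
      · rw [h]; exact k1
    have ku := k2 (sg u) (show ({u} : Set Y) ⊆ {u, v} by simp)
    have kv := k2 (sg v) (show ({v} : Set Y) ⊆ {u, v} by simp)
    have : κ u w ⟨i, by have := i.2; omega⟩ := ⟨i.2, ku⟩
    rw [e] at this
    obtain ⟨_, h⟩ := this
    exact (hL i).irrefl _ ((hL i).trans _ _ _ h kv)
  obtain ⟨u, w, a, e⟩ := h3 fun w => {c | ∃ v, A w v ∧ κ w v = c}
  have : κ u w ∈ {c | ∃ v, A u v ∧ κ u v = c} := ⟨w, a, rfl⟩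
  rw [e] at this
  obtain ⟨v, a2, e2⟩ := this
  exact claim u w v a a2 e2.symm

end Pool.Agent.H715Z.CG
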