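import Pool.Agent.Helper212.CohenE.Defs

/-!
Cardinals, cardinal arithmetic, order types and the square-in-square relation, evaluated inside a
transitive set `M`.
-/

namespace H715Z.Sis

open ZFSet

/-- `f` is an injective function from `a` to `b`. -/
def IsInj (f a b : ZFSet.{0}) : Prop :=
  IsFunc a b f ∧ ∀ x x' y, pair x y ∈ f → pair x' y ∈ f → x = x'

/-- `k` is a cardinal of `M`: an ordinal of `M` with no injection in `M` into a smaller ordinal. -/
def IsCard (M : Set ZFSet.{0}) (k : ZFSet.{0}) : Prop :=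
  k ∈ M ∧ k.IsOrdinal ∧ ∀ x ∈ k, ¬ ∃ f ∈ M, IsInj f k x

/-- `l` is the successor cardinal of `k` in `M`. -/
def IsSucc (M : Set ZFSet.{0}) (k l : ZFSet.{0}) : Prop :=
  IsCard M l ∧ k ∈ l ∧ ∀ x ∈ l, IsCard M x → x ⊆ k

/-- `k^{<k} = k` in `M`: all functions `a → k` with `a < k` that lie in `M` belong to one set of
`M` that has an injection into `k` in `M`. -/
def PowLt (M : Set ZFSet.{0}) (k : ZFSet.{0}) : Prop :=
  ∃ S ∈ M, (∀ a ∈ k, ∀ h ∈ M, IsFunc a k h → h ∈ S) ∧ ∃ g ∈ M, IsInj g S k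

/-- The set of ordinals `A` has order type `t` in `M`: some `e ∈ M` is an order isomorphism from
`t` onto `A`. -/
def HasType (M : Set ZFSet.{0}) (A t : ZFSet.{0}) : Prop :=
  ∃ e ∈ M, IsFunc t A e ∧ (∀ y ∈ A, ∃ x, pair x y ∈ e) ∧
    ∀ x x' y y', pair x y ∈ e → pair x' y' ∈ e → (x ∈ x' ↔ y ∈ y')

/-- `M ⊨ sis(l, t, θ)`: for every colouring `c : l × l → θ` in `M` there are `A, B ⊆ l` in `M` of
order type `t` such that `c` is constant on `A × B`. -/
def Sis (M : Set ZFSet.{0}) (l t θ : ZFSet.{0}) : Prop :=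
  ∀ c ∈ M, IsFunc (prod l l) θ c → ∃ A ∈ M, ∃ B ∈ M, A ⊆ l ∧ B ⊆ l ∧
    HasType M A t ∧ HasType M B t ∧ ∃ i, ∀ x ∈ A, ∀ y ∈ B, pair (pair x y) i ∈ c

end H715Z.Sis
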