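import Pool.Agent.H715Z.SisReq

/-! The generic extension: cardinals, cardinal arithmetic and the colouring. -/

namespace H715Z.Sis

open CohenE ZFSet Pool.Agent.H30Z.Forc

def Mt (N : Set (Nm Cond)) (G : Set Cond) (R : Rq) : Prop :=
  ∀ l : List (Nm Cond), (∀ x ∈ l, x ∈ N) → ∃ q ∈ G, ∃ Z : Set ZFSet.{0},
    (∀ z ∈ Z, gn z ∈ N) ∧ R (lv l) q Z

structure Good (N : Set (Nm Cond)) (G : Set Cond) : Prop where
  pair : Pair N G
  gz : ∀ τ ∈ N, gn (zf τ) ∈ N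
  inj : ∀ τ ∈ N, injN (zf τ) ∈ N
  c : cN ∈ N
  r0 : Mt N G R0
  r1 : Mt N G R1
  r2 : Mt N G R2
  r3 : Mt N G R3
  r4 : Mt N G R4
  r5 : Mt N G R5
  r6 : Mt N G R6

theorem exists_good : ∃ N G, Good N G := by
  obtain ⟨N, G, h, h'⟩ := exists_pair (P := Cond)
    ({clos fun l => gn (zf (lv l 0)), clos fun l => injN (zf (lv l 0)), clos fun _ => cN,
      R0.req, R1.req, R2.req, R3.req, R4.req, R5.req, R6.req} ∪
      Set.range fun n => clos fun l => nth n (lv l 0))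
    ((Set.toFinite _).countable.union (Set.countable_range _)) (by
      rintro R ((rfl | rfl | rfl | rfl | rfl | rfl | rfl | rfl | rfl | rfl) | ⟨n, rfl⟩)
      · exact clos_dense _
      · exact clos_dense _
      · exact clos_dense _
      · exact R0_dense.req
      · exact R1_dense.req
      · exact R2_dense.req
      · exact R3_dense.req
      · exact R4_dense.req
      · exact R5_dense.req
      · exact R6_dense.req
      · exact clos_dense _)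
  have key : ∀ R : Rq, Meets N G R.req → Mt N G R := by
    intro R hR l hl
    obtain ⟨q, hq, _, hτ, Z, s, rfl, h1, h2⟩ := hR l hl
    refine ⟨q, hq, Z, fun z hz => ?_, h2⟩
    obtain ⟨n, hn⟩ := h1 z hz
    have := (h' _ (Or.inr ⟨n, rfl⟩)).clos [seqN s] (by simpa using hτ)
    rw [← hn, ← nth_seq n s]
    exact this
  refine ⟨N, G, h, fun τ hτ => ?_, fun τ hτ => ?_, ?_, key _ (h' _ (by simp)),
    key _ (h' _ (by simp)), key _ (h' _ (by simp)), key _ (h' _ (by simp)),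
    key _ (h' _ (by simp)), key _ (h' _ (by simp)), key _ (h' _ (by simp))⟩
  · exact (h' (clos fun l => gn (zf (lv l 0))) (by simp)).clos [τ] (by simpa using hτ)
  · exact (h' (clos fun l => injN (zf (lv l 0))) (by simp)).clos [τ] (by simpa using hτ)
  · exact (h' (clos fun _ => cN) (by simp)).clos [] (by simp)

variable {N : Set (Nm Cond)} {G : Set Cond}

/-- the collapse of a ground object -/
noncomputable def pz (N : Set (Nm Cond)) (z : ZFSet.{0}) : ZFSet.{0} := pi N (chk z)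

theorem Good.val_gn (h : Good N G) (z : ZFSet.{0}) : val N G (gn z) = pz N z :=
  val_io h.pair.core.filt _

theorem Good.pz_ext (h : Good N G) {z : ZFSet.{0}} (hz : gn z ∈ N) : pz N z ∈ Ext N G :=
  ⟨_, hz, h.val_gn z⟩

theorem Good.mem_iff (h : Good N G) {a b : ZFSet.{0}} (ha : gn a ∈ N) (hb : gn b ∈ N) :
    pz N a ∈ pz N b ↔ a ∈ b := by
  rw [pz, pz, h.pair.pi_mem_iff ha hb, toZF_chk, toZF_chk]

theorem Good.eq_iff (h : Good N G) {a b : ZFSet.{0}} (ha : gn a ∈ N) (hb : gn b ∈ N) :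
    pz N a = pz N b ↔ a = b := by
  rw [pz, pz, h.pair.pi_eq_iff ha hb, toZF_chk, toZF_chk]

theorem Good.mem_pz (h : Good N G) {z a : ZFSet.{0}} (hz : gn z ∈ N) (ha : a ∈ pz N z) :
    ∃ y ∈ z, gn y ∈ N ∧ a = pz N y := by
  obtain ⟨σ, hσ, rfl⟩ : a ∈ Gnd N := ext_trans (pz N z) ⟨chk z, hz, rfl⟩ a ha
  have h1 : gn (toZF σ) ∈ N := by
    have := h.gz _ hσ
    rwa [zf, fg_io] at this
  refine ⟨toZF σ, ?_, h1, (h.pair.pi_eq_iff hσ h1).2 (toZF_chk _).symm⟩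
  rw [← toZF_chk z]
  exact (h.pair.pi_mem_iff hσ hz).1 ha

theorem Good.fm_iff (h : Good N G) {a b : ZFSet.{0}} (ha : gn a ∈ N) (hb : gn b ∈ N)
    {f : Nm Cond} (hf : f ∈ N) :
    ZFSet.pair (pz N a) (pz N b) ∈ val N G f ↔ ∃ p ∈ G, Fm a b f p := by
  rw [← h.val_gn, ← h.val_gn, ← h.pair.core.val_op ha hb]
  exact h.pair.core.mem_iff (h.pair.core.op_mem ha hb) hf

theorem Good.app_iff (h : Good N G) {a b c : ZFSet.{0}} (ha : gn a ∈ N) (hb : gn b ∈ N)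
    (hc : gn c ∈ N) : ZFSet.pair (pz N a) (pz N b) ∈ pz N c ↔ ZFSet.pair a b ∈ c := by
  have := h.pair.transfer_list (RD.app 0 1 2) (l := [chk a, chk b, chk c]) (by
    simp only [List.mem_cons, List.not_mem_nil, or_false]
    rintro x (rfl | rfl | rfl) <;> assumption)
  change (ZFSet.pair (pz N a) (pz N b) ∈ pz N c ↔
    ZFSet.pair (toZF (chk a)) (toZF (chk b)) ∈ toZF (chk c)) at this
  rwa [toZF_chk, toZF_chk, toZF_chk] at this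

theorem Good.pz_pair (h : Good N G) {a b : ZFSet.{0}} (ha : gn a ∈ N) (hb : gn b ∈ N)
    (hc : gn (ZFSet.pair a b) ∈ N) : pz N (ZFSet.pair a b) = ZFSet.pair (pz N a) (pz N b) := by
  have := h.pair.transfer_list (RD.isPair 2 0 1) (l := [chk a, chk b, chk (ZFSet.pair a b)]) (by
    simp only [List.mem_cons, List.not_mem_nil, or_false]
    rintro x (rfl | rfl | rfl) <;> assumption)
  change (pz N (ZFSet.pair a b) = ZFSet.pair (pz N a) (pz N b) ↔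
    toZF (chk (ZFSet.pair a b)) = ZFSet.pair (toZF (chk a)) (toZF (chk b))) at this
  rw [toZF_chk, toZF_chk, toZF_chk] at this
  exact this.2 rfl

theorem Good.ord (h : Good N G) {o : Ordinal.{0}} (ho : gn o.toZFSet ∈ N) :
    (pz N o.toZFSet).IsOrdinal := by
  rw [pz, h.pair.pi_ordinal ho, toZF_chk]
  exact isOrdinal_toZFSet _

theorem Good.consts (h : Good N G) :
    gn w1 ∈ N ∧ gn w2 ∈ N ∧ gn t0 ∈ N ∧ gn S0 ∈ N ∧ ∀ n, gn (u n) ∈ N := by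
  obtain ⟨q, -, Z, hZ, h1, h2, h3, h4, h5⟩ := h.r0 [] (by simp)
  exact ⟨hZ _ h1, hZ _ h2, hZ _ h3, hZ _ h4, fun n => hZ _ (h5 n)⟩

theorem Good.no_inj (h : Good N G) {w : ZFSet.{0}} (hw : w = w1 ∨ w = w2) (hw' : gn w ∈ N) :
    ∀ x ∈ pz N w, ¬ ∃ f ∈ Ext N G, IsInj f (pz N w) x := by
  rintro x hx ⟨_, ⟨f, hf, rfl⟩, hinj⟩
  obtain ⟨x0, h0, h1, rfl⟩ := h.mem_pz hw' hx
  obtain ⟨q, hq, Z, hZ, h2⟩ := h.r1 [f, gn w, gn x0] (by simp [hf, hw', h1])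
  simp only [R1, lv, List.getD_cons_zero, List.getD_cons_succ, zf_gn] at h2
  obtain ⟨y, hy, hy', h3⟩ := h2 hw h0
  obtain ⟨t', ht, -⟩ := hinj.1.2 _ ((h.mem_iff (hZ y hy) hw').2 hy')
  obtain ⟨t, ht0, ht1, rfl⟩ := h.mem_pz h1 (pair_mem_prod.1 (hinj.1.1 ht)).2
  obtain ⟨p, hp, h4⟩ := (h.fm_iff (hZ y hy) ht1 hf).1 ht
  obtain ⟨q', hq', Z', hZ', h5⟩ := h.r2 [f, gn y, gn t] (by simp [hf, hZ y hy, ht1])
  simp only [R2, lv, List.getD_cons_zero, List.getD_cons_succ, zf_gn] at h5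
  rcases h5 with ⟨y', a1, a2, a3⟩ | h5
  · exact a2 ((h.eq_iff (hZ' y' a1) (hZ y hy)).1
      (hinj.2 _ _ _ ((h.fm_iff (hZ' y' a1) ht1 hf).2 ⟨q', hq', a3⟩) ht))
  · obtain ⟨r, -, a, b, c⟩ := h.pair.core.filt.dir3 hq hp hq'
    obtain ⟨y', -, a2, r', a3, a4⟩ := h3 t ht0 r a (h4.mono b)
    exact h5 r' (a3.trans c) y' a2 a4

theorem Good.mem_injN (h : Good N G) (a z : ZFSet.{0}) : z ∈ val N G (injN a) ↔
    ∃ p ∈ G, ∃ y ∈ a, ∃ i : X, gn y ∈ N ∧ gn (eo i) ∈ N ∧ (code a y, i) ∈ p.j ∧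
      z = ZFSet.pair (pz N y) (pz N (eo i)) := by
  rw [Pool.Agent.H30Z.Forc.mem_val]
  constructor
  · rintro ⟨⟨⟨p, y, i⟩, h1⟩, h2, h3, h4⟩
    obtain ⟨c1, c2⟩ := h.pair.core.op_comp h2
    refine ⟨p, h3, _, ((equivShrink a).symm y).2, i, c1, c2, h1, h4.trans ?_⟩
    rw [← h.val_gn, ← h.val_gn]
    exact h.pair.core.val_op c1 c2
  · rintro ⟨p, hp, y, hy, i, h1, h2, h3, rfl⟩
    obtain ⟨y', rfl⟩ : ∃ y' : Shrink.{0} a, ((equivShrink a).symm y').1 = y :=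
      ⟨equivShrink a ⟨y, hy⟩, by simp⟩
    refine ⟨⟨(p, y', i), h3⟩, h.pair.core.op_mem h1 h2, hp, ?_⟩
    rw [← h.val_gn, ← h.val_gn]
    exact (h.pair.core.val_op h1 h2).symm

theorem Good.collapse (h : Good N G) {a : ZFSet.{0}} (ha : gn a ∈ N) (hc : Codable a) :
    ∃ g ∈ Ext N G, IsInj g (pz N a) (pz N w1) := by
  have hw := h.consts.1
  have h0 := h.inj _ ha
  rw [zf_gn] at h0
  have uniq : ∀ x y x' y', ZFSet.pair x y ∈ val N G (injN a) →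
      ZFSet.pair x' y' ∈ val N G (injN a) → (x = x' ↔ y = y') := by
    intro x y x' y' h1 h2
    obtain ⟨p, hp, z, hz, i, a1, a2, a3, a4⟩ := (h.mem_injN _ _).1 h1
    obtain ⟨p', hp', z', hz', i', b1, b2, b3, b4⟩ := (h.mem_injN _ _).1 h2
    rw [pair_inj] at a4 b4
    obtain ⟨r, -, c1, c2⟩ := h.pair.core.filt.dir p hp p' hp'
    have := r.jb _ (Le.j c1 a3) _ (Le.j c2 b3)
    rw [a4.1, a4.2, b4.1, b4.2, h.eq_iff a1 b1, h.eq_iff a2 b2]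
    exact ⟨fun e => by rw [show i = i' from this.1 (by rw [e])],
      fun e => code_inj hc z hz z' hz' (this.2 (eo_inj e))⟩
  refine ⟨_, ⟨_, h0, rfl⟩, ⟨fun z hz => ?_, fun x hx => ?_⟩,
    fun x x' y h1 h2 => (uniq _ _ _ _ h1 h2).2 rfl⟩
  · obtain ⟨p, hp, y, hy, i, a1, a2, a3, rfl⟩ := (h.mem_injN _ _).1 hz
    exact pair_mem_prod.2 ⟨(h.mem_iff a1 ha).2 hy, (h.mem_iff a2 hw).2 (eo_mem i)⟩
  · obtain ⟨y, hy, a1, rfl⟩ := h.mem_pz ha hx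
    obtain ⟨q, hq, Z, hZ, i, hi, h2⟩ := h.r3 [gn a, gn y] (by simp [ha, a1])
    simp only [lv, List.getD_cons_zero, List.getD_cons_succ, zf_gn] at h2
    have h3 := (h.mem_injN a _).2 ⟨q, hq, y, hy, i, a1, hZ _ hi, h2, rfl⟩
    exact ⟨_, h3, fun y' hy' => (uniq _ _ _ _ hy' h3).1 rfl⟩

theorem Good.powLt (h : Good N G) : PowLt (Ext N G) (pz N w1) := by
  obtain ⟨hw, -, -, hS, -⟩ := h.consts
  refine ⟨_, h.pz_ext hS, ?_, h.collapse hS codable_S0⟩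
  rintro a ha _ ⟨f, hf, rfl⟩ hfun
  obtain ⟨a0, h0, h1, rfl⟩ := h.mem_pz hw ha
  obtain ⟨q, hq, Z, hZ, h2⟩ := h.r5 [f, gn a0] (by simp [hf, h1])
  simp only [R5, lv, List.getD_cons_zero, List.getD_cons_succ, zf_gn] at h2
  rcases h2 h0 with ⟨ξ, a1, a2, a3⟩ | ⟨g, a1, a2, a3⟩
  · exfalso
    obtain ⟨y', hy, -⟩ := hfun.2 _ ((h.mem_iff (hZ ξ a1) h1).2 a2)
    obtain ⟨y, b1, b2, rfl⟩ := h.mem_pz hw (pair_mem_prod.1 (hfun.1 hy)).2
    obtain ⟨p, hp, b3⟩ := (h.fm_iff (hZ ξ a1) b2 hf).1 hy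
    obtain ⟨r, -, c1, c2⟩ := h.pair.core.filt.dir q hq p hp
    exact a3 r c1 y b1 (b3.mono c2)
  · have e : val N G f = pz N g := by
      ext z
      constructor
      · intro hz
        obtain ⟨x, hx, y, -, rfl⟩ := mem_prod.1 (hfun.1 hz)
        obtain ⟨ξ, b1, b2, rfl⟩ := h.mem_pz h1 hx
        obtain ⟨y0, b3, -⟩ := a2.2 ξ b1
        obtain ⟨-, b4, b5⟩ := a3 ξ y0 b3
        rw [(hfun.2 _ hx).unique hz ((h.fm_iff b2 (hZ _ b4) hf).2 ⟨q, hq, b5⟩)]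
        exact (h.app_iff b2 (hZ _ b4) (hZ g a1)).2 b3
      · intro hz
        obtain ⟨y, b1, b2, rfl⟩ := h.mem_pz (hZ g a1) hz
        obtain ⟨ξ, -, y0, -, rfl⟩ := mem_prod.1 (a2.1 b1)
        obtain ⟨b3, b4, b5⟩ := a3 ξ y0 b1
        rw [h.pz_pair (hZ _ b3) (hZ _ b4) b2]
        exact (h.fm_iff (hZ _ b3) (hZ _ b4) hf).2 ⟨q, hq, b5⟩
    rw [e, h.mem_iff (hZ g a1) hS]
    refine ZFSet.mem_sep.2 ⟨mem_powerset.2 fun z hz => ?_, a0, h0, a2⟩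
    obtain ⟨ξ, b1, y0, b2, rfl⟩ := mem_prod.1 (a2.1 hz)
    exact pair_mem_prod.2 ⟨(isOrdinal_toZFSet _).mem_trans b1 h0, b2⟩

theorem Good.mem_cN (h : Good N G) (z : ZFSet.{0}) : z ∈ val N G cN ↔
    ∃ p ∈ G, ∃ a b : L, ∃ k, gn (eo a) ∈ N ∧ gn (eo b) ∈ N ∧ a ∈ p.x ∧ b ∈ p.x ∧
      ((Col p a b ∧ k = 1) ∨ (¬ Col p a b ∧ k = 0)) ∧
      z = ZFSet.pair (ZFSet.pair (pz N (eo a)) (pz N (eo b))) (nat k) := by
  have e : ∀ (a b : L) (k : ℕ), gn (eo a) ∈ N → gn (eo b) ∈ N →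
      val N G (opN (opN (gn (eo a)) (gn (eo b))) (natN k)) =
        ZFSet.pair (ZFSet.pair (pz N (eo a)) (pz N (eo b))) (nat k) := by
    intro a b k ha hb
    rw [h.pair.core.val_op (h.pair.core.op_mem ha hb) (h.pair.core.natm k),
      h.pair.core.val_op ha hb, h.val_gn, h.val_gn, h.pair.core.val_nat]
  rw [Pool.Agent.H30Z.Forc.mem_val]
  constructor
  · rintro ⟨⟨⟨p, a, b, k⟩, h1, h1', h1''⟩, h2, h3, h4⟩
    obtain ⟨c1, c2⟩ := h.pair.core.op_comp (h.pair.core.op_comp h2).1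
    exact ⟨p, h3, a, b, k, c1, c2, h1, h1', h1'', h4.trans (e a b k c1 c2)⟩
  · rintro ⟨p, hp, a, b, k, h1, h2, h3, h4, h5, rfl⟩
    exact ⟨⟨(p, a, b, k), h3, h4, h5⟩,
      h.pair.core.op_mem (h.pair.core.op_mem h1 h2) (h.pair.core.natm k), hp, (e a b k h1 h2).symm⟩

theorem Good.mem_w2 (h : Good N G) {x : ZFSet.{0}} (hx : x ∈ pz N w2) :
    ∃ a : L, gn (eo a) ∈ N ∧ x = pz N (eo a) := by
  obtain ⟨y, h1, h2, rfl⟩ := h.mem_pz h.consts.2.1 hx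
  obtain ⟨a, rfl⟩ := eo_surj h1
  exact ⟨a, h2, rfl⟩

/-- the colour of a pair is read off from a condition in the filter -/
theorem Good.colour (h : Good N G) {a b : L} (ha : gn (eo a) ∈ N) (hb : gn (eo b) ∈ N)
    {i : ZFSet.{0}} (hi : ZFSet.pair (ZFSet.pair (pz N (eo a)) (pz N (eo b))) i ∈ val N G cN)
    {q : Cond} (hq : q ∈ G) (ha' : a ∈ q.x) (hb' : b ∈ q.x) :
    (Col q a b ∧ i = nat 1) ∨ (¬ Col q a b ∧ i = nat 0) := by
  obtain ⟨p, hp, a', b', k, h1, h2, h3, h4, h5, h6⟩ := (h.mem_cN _).1 hi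
  rw [pair_inj, pair_inj, h.eq_iff ha h1, h.eq_iff hb h2] at h6
  obtain rfl := eo_inj h6.1.1
  obtain rfl := eo_inj h6.1.2
  obtain ⟨r, -, c1, c2⟩ := h.pair.core.filt.dir q hq p hp
  rw [← col_iff c1 ha' hb', col_iff c2 h3 h4, h6.2]
  rcases h5 with ⟨d, rfl⟩ | ⟨d, rfl⟩
  · exact Or.inl ⟨d, rfl⟩
  · exact Or.inr ⟨d, rfl⟩

theorem Good.point (h : Good N G) {a : L} (ha : gn (eo a) ∈ N) : ∃ q ∈ G, a ∈ q.x := by
  obtain ⟨q, hq, _, -, h1⟩ := h.r4 [gn (eo a)] (by simp [ha])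
  exact ⟨q, hq, h1 a (zf_gn _)⟩

theorem Good.func (h : Good N G) {θ : ZFSet.{0}} (h0 : nat 0 ∈ θ) (h1 : nat 1 ∈ θ) :
    IsFunc (prod (pz N w2) (pz N w2)) θ (val N G cN) := by
  have hw := h.consts.2.1
  refine ⟨fun z hz => ?_, fun z hz => ?_⟩
  · obtain ⟨p, -, a, b, k, a1, a2, -, -, a3, rfl⟩ := (h.mem_cN _).1 hz
    refine pair_mem_prod.2 ⟨pair_mem_prod.2 ⟨(h.mem_iff a1 hw).2 (eo_mem a),
      (h.mem_iff a2 hw).2 (eo_mem b)⟩, ?_⟩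
    rcases a3 with ⟨-, rfl⟩ | ⟨-, rfl⟩ <;> assumption
  · obtain ⟨x, hx, y, hy, rfl⟩ := mem_prod.1 hz
    obtain ⟨a, ha, rfl⟩ := h.mem_w2 hx
    obtain ⟨b, hb, rfl⟩ := h.mem_w2 hy
    obtain ⟨p, hp, a1⟩ := h.point ha
    obtain ⟨q, hq, a2⟩ := h.point hb
    obtain ⟨r, hr, c1, c2⟩ := h.pair.core.filt.dir p hp q hq
    have b1 := Le.x c1 a1
    have b2 := Le.x c2 a2
    by_cases hc : Col r a b
    · refine ⟨nat 1, (h.mem_cN _).2 ⟨r, hr, a, b, 1, ha, hb, b1, b2, Or.inl ⟨hc, rfl⟩, rfl⟩,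
        fun i hi => ?_⟩
      rcases h.colour ha hb hi hr b1 b2 with d | d
      · exact d.2
      · exact absurd hc d.1
    · refine ⟨nat 0, (h.mem_cN _).2 ⟨r, hr, a, b, 0, ha, hb, b1, b2, Or.inr ⟨hc, rfl⟩, rfl⟩,
        fun i hi => ?_⟩
      rcases h.colour ha hb hi hr b1 b2 with d | d
      · exact absurd d.1 hc
      · exact d.2

theorem Good.no_rect (h : Good N G) {A B : ZFSet.{0}} (hA : A ⊆ pz N w2) (hB : B ⊆ pz N w2)
    {ea eb : Nm Cond} (hea : ea ∈ N) (heb : eb ∈ N)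
    (fa : IsFunc (pz N t0) A (val N G ea)) (fb : IsFunc (pz N t0) B (val N G eb))
    (oa : ∀ x x' y y', ZFSet.pair x y ∈ val N G ea → ZFSet.pair x' y' ∈ val N G ea →
      (x ∈ x' ↔ y ∈ y'))
    (ob : ∀ x x' y y', ZFSet.pair x y ∈ val N G eb → ZFSet.pair x' y' ∈ val N G eb →
      (x ∈ x' ↔ y ∈ y'))
    {c : Prop} (hc : ∀ a b : L, gn (eo a) ∈ N → gn (eo b) ∈ N → pz N (eo a) ∈ A →
      pz N (eo b) ∈ B → ∀ q ∈ G, a ∈ q.x → b ∈ q.x → (Col q a b ↔ c))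
    {a0 b0 : L} (ha0 : gn (eo a0) ∈ N) (hb0 : gn (eo b0) ∈ N)
    (ea0 : ZFSet.pair (pz N (u 0)) (pz N (eo a0)) ∈ val N G ea)
    (eb0 : ZFSet.pair (pz N (u 0)) (pz N (eo b0)) ∈ val N G eb) (hle : a0 ≤ b0) : False := by
  obtain ⟨hw, hw2, ht, -, hu⟩ := h.consts
  obtain ⟨q, hq, Z, hZ, h1⟩ := h.r6 [ea, eb] (by simp [hea, heb])
  simp only [R6, lv, List.getD_cons_zero, List.getD_cons_succ] at h1
  have tot : ∀ {A : ZFSet.{0}} {e : Nm Cond}, A ⊆ pz N w2 → e ∈ N →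
      IsFunc (pz N t0) A (val N G e) → ∀ ξ ∈ t0, gn ξ ∈ N →
      ¬ ∀ r, r ≤ q → ∀ a : L, ¬ Fm ξ (eo a) e r := by
    intro A e hA he fe ξ h2 h3 h4
    obtain ⟨y, hy, -⟩ := fe.2 _ ((h.mem_iff h3 ht).2 h2)
    obtain ⟨a, ha, rfl⟩ := h.mem_w2 (hA (pair_mem_prod.1 (fe.1 hy)).2)
    obtain ⟨p, hp, h5⟩ := (h.fm_iff h3 ha he).1 hy
    obtain ⟨r, -, c1, c2⟩ := h.pair.core.filt.dir q hq p hp
    exact h4 r c1 a (h5.mono c2)
  rcases h1 with ⟨n, h1⟩ | ⟨β, hβ, h1⟩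
  · exact tot hB heb fb _ (u_mem_t0 n) (hu n) h1
  have hb : ∀ n, ZFSet.pair (pz N (u n)) (pz N (eo (β n))) ∈ val N G eb := fun n =>
    (h.fm_iff (hu n) (hZ _ (hβ n).1) heb).2 ⟨q, hq, (hβ n).2⟩
  have hm : StrictMono β := fun n m hnm =>
    eo_mem_iff.1 ((h.mem_iff (hZ _ (hβ n).1) (hZ _ (hβ m).1)).1
      ((ob _ _ _ _ (hb n) (hb m)).1 ((h.mem_iff (hu n) (hu m)).2 (u_mem hnm))))
  rcases h1 with h1 | ⟨ξ, a1, a2, a, a3, a4, a5, a6, a7⟩ | ⟨ξ, a1, ξ', a2, t, a3, a4, a5, a6⟩ |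
    ⟨ξ, a1, a2, a3⟩
  · exact h1 hm
  · have b1 := (h.fm_iff (hZ _ a2) (hZ _ a3) hea).2 ⟨q, hq, a4⟩
    have b2 : a < a0 := eo_mem_iff.1 ((h.mem_iff (hZ _ a3) ha0).1
      ((oa _ _ _ _ b1 ea0).1 ((h.mem_iff (hZ _ a2) (hu 0)).2 (u_zero ▸ a1))))
    have b3 : b0 = β 0 := eo_inj ((h.eq_iff hb0 (hZ _ (hβ 0).1)).1
      ((fb.2 _ (pair_mem_prod.1 (fb.1 eb0)).1).unique eb0 (hb 0)))
    have b4 : ∀ n, a < β n := fun n =>
      (b2.trans_le (hle.trans b3.le)).trans_le (hm.monotone (Nat.zero_le n))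
    have b5 : ∀ n, (a, β n) ∈ q.f ↔ c := by
      intro n
      rw [← hc a (β n) (hZ _ a3) (hZ _ (hβ n).1) (pair_mem_prod.1 (fa.1 b1)).2
        (pair_mem_prod.1 (fb.1 (hb n))).2 q hq a5 (a6 n), Col, min_eq_left (b4 n).le,
        max_eq_right (b4 n).le]
    obtain ⟨⟨n, hn⟩, m, hm⟩ := a7 b4
    exact hm ((b5 m).2 ((b5 n).1 hn))
  · have b1 := (h.fm_iff (hZ _ a1) (hZ _ a3) hea).2 ⟨q, hq, a5⟩
    have b2 := (h.fm_iff (hZ _ a2) (hZ _ a3) hea).2 ⟨q, hq, a6⟩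
    have b3 := h.ord (o := o1 + Ordinal.omega0) ht
    rcases (b3.mem (pair_mem_prod.1 (fa.1 b1)).1).mem_trichotomous
      (b3.mem (pair_mem_prod.1 (fa.1 b2)).1) with d | d | d
    · exact mem_irrefl _ ((oa _ _ _ _ b1 b2).1 d)
    · exact a4 ((h.eq_iff (hZ _ a1) (hZ _ a2)).1 d)
    · exact mem_irrefl _ ((oa _ _ _ _ b2 b1).1 d)
  · exact tot hA hea fa ξ ((isOrdinal_toZFSet _).mem_trans a1 w1_mem_t0) (hZ _ a2) a3

theorem Good.not_sis (h : Good N G) {θ : ZFSet.{0}} (h0 : nat 0 ∈ θ) (h1 : nat 1 ∈ θ) :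
    ¬ Sis (Ext N G) (pz N w2) (pz N t0) θ := by
  intro hs
  obtain ⟨hw, hw2, ht, -, hu⟩ := h.consts
  obtain ⟨A, -, B, -, hA, hB, ⟨_, ⟨ea, hea, rfl⟩, fa, -, oa⟩, ⟨_, ⟨eb, heb, rfl⟩, fb, -, ob⟩,
    i, hi⟩ := hs _ ⟨_, h.c, rfl⟩ (h.func h0 h1)
  have hc : ∀ a b : L, gn (eo a) ∈ N → gn (eo b) ∈ N → pz N (eo a) ∈ A →
      pz N (eo b) ∈ B → ∀ q ∈ G, a ∈ q.x → b ∈ q.x → (Col q a b ↔ i = nat 1) := by
    intro a b a1 a2 a3 a4 q hq a5 a6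
    rcases h.colour a1 a2 (hi _ a3 _ a4) hq a5 a6 with d | d
    · exact iff_of_true d.1 d.2
    · exact iff_of_false d.1 fun e => absurd (nat_inj (d.2.symm.trans e)) (by omega)
  have hm := (h.mem_iff (hu 0) ht).2 (u_mem_t0 0)
  obtain ⟨x, hx, -⟩ := fa.2 _ hm
  obtain ⟨y, hy, -⟩ := fb.2 _ hm
  obtain ⟨a0, ha0, rfl⟩ := h.mem_w2 (hA (pair_mem_prod.1 (fa.1 hx)).2)
  obtain ⟨b0, hb0, rfl⟩ := h.mem_w2 (hB (pair_mem_prod.1 (fb.1 hy)).2)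
  rcases le_total a0 b0 with hle | hle
  · exact h.no_rect hA hB hea heb fa fb oa ob hc ha0 hb0 hx hy hle
  · exact h.no_rect hB hA heb hea fb fa ob oa (fun a b a1 a2 a3 a4 q hq a5 a6 =>
      (col_comm q a b).trans (hc b a a2 a1 a4 a3 q hq a6 a5)) hb0 ha0 hy hx hle

theorem Good.rank_u (h : Good N G) (n : ℕ) : (pz N (u n)).rank = (pz N w1).rank + n := by
  have hu := h.consts.2.2.2.2
  induction n with
  | zero => simp [u_zero]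
  | succ n ih =>
    have e : pz N (u (n + 1)) = insert (pz N (u n)) (pz N (u n)) := by
      ext z
      rw [ZFSet.mem_insert_iff]
      constructor
      · intro hz
        obtain ⟨y, h1, h2, rfl⟩ := h.mem_pz (hu _) hz
        rw [u_succ, ZFSet.mem_insert_iff] at h1
        exact h1.imp (fun e => by rw [e]) fun e => (h.mem_iff h2 (hu n)).2 e
      · have h1 := (h.mem_iff (hu n) (hu (n + 1))).2 (u_mem (Nat.lt_succ_self n))
        rintro (rfl | hz)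
        · exact h1
        · exact (h.ord (o := o1 + (n + 1 : ℕ)) (hu (n + 1))).mem_trans hz h1
    rw [e, rank_insert, ih, max_eq_left (Order.le_succ _), Nat.cast_succ, ← add_assoc,
      Order.succ_eq_add_one]

theorem Good.rank_t (h : Good N G) : (pz N t0).rank = (pz N w1).rank + Ordinal.omega0 := by
  obtain ⟨-, -, ht, -, hu⟩ := h.consts
  refine le_antisymm (rank_le_iff.2 fun z hz => ?_)
    ((Ordinal.add_le_iff Ordinal.omega0_ne_zero).2 fun d hd => ?_)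
  · obtain ⟨y, h1, h2, rfl⟩ := h.mem_pz ht hz
    obtain ⟨n, hn⟩ := mem_t0 h1
    refine (rank_lt_of_mem ((h.mem_iff h2 (hu n)).2 hn)).trans ?_
    rw [h.rank_u]
    simp
  · obtain ⟨n, rfl⟩ := Ordinal.lt_omega0.1 hd
    rw [← h.rank_u]
    exact rank_lt_of_mem ((h.mem_iff (hu n) ht).2 (u_mem_t0 n))

theorem main : ∃ M : Set ZFSet.{0}, CTM M ∧ ∃ κ l τ : ZFSet.{0},
    IsCard M κ ∧ ZFSet.omega ⊆ κ ∧ PowLt M κ ∧ IsSucc M κ l ∧ τ ∈ l ∧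
    τ.rank = κ.rank + Ordinal.omega0 ∧ ¬ Sis M l τ (nat 2) ∧ ¬ Sis M l τ (nat 3) := by
  obtain ⟨N, G, h⟩ := exists_good
  obtain ⟨hw, hw2, ht, -, hu⟩ := h.consts
  have o1' := h.ord (o := o1) hw
  have o2' := h.ord (o := (Order.succ Cardinal.continuum.{0}).ord) hw2
  refine ⟨_, h.pair.ctm_ext, pz N w1, pz N w2, pz N t0,
    ⟨h.pz_ext hw, o1', h.no_inj (Or.inl rfl) hw⟩, ?_, h.powLt,
    ⟨⟨h.pz_ext hw2, o2', h.no_inj (Or.inr rfl) hw2⟩,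
      (h.mem_iff hw hw2).2 ((isOrdinal_toZFSet _).mem_trans w1_mem_t0 t0_mem), ?_⟩,
    (h.mem_iff ht hw2).2 t0_mem, h.rank_t, h.not_sis (by simp [nat]) (by simp [nat]),
    h.not_sis (by simp [nat]) (by simp [nat])⟩
  · intro z hz
    obtain ⟨n, rfl⟩ := mem_omega.1 hz
    have h1 := h.pair.pi_mem_iff (h.pair.ground.natm n) hw
    have e1 : pi N (natN n) = nat n := h.pair.ground.val_nat n
    have e2 : toZF (natN n) = nat n := core_univ.val_nat n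
    rw [e1, e2, toZF_chk] at h1
    exact h1.2 (nat_mem_w1 n)
  · intro x hx hc
    obtain ⟨y, h1, h2, rfl⟩ := h.mem_pz hw2 hx
    exact (o1'.notMem_iff_subset hc.2.1).1
      fun h3 => hc.2.2 _ h3 (h.collapse h2 (codable_w2 h1))

end H715Z.Sis
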