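import Pool.Agent.H30Z.Forc.Posets

/-! A countably closed forcing adding a colouring of pairs with promises. -/

namespace H715Z.Sis

open Cardinal Set Pool.Agent.H30Z.Forc

abbrev L : Type := (Order.succ Cardinal.continuum.{0}).ord.ToType
abbrev X : Type := (Cardinal.aleph.{0} 1).ord.ToType
abbrev C : Type := Set ℕ

theorem bdd_of_lt {c : Cardinal.{0}} (hc : c.IsRegular) (s : Set c.ord.ToType) (hs : #s < c) :
    ∃ u, ∀ y ∈ s, y < u := by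
  rw [← not_isCofinal_iff]
  intro h
  have h1 := Order.cof_le h
  rw [Ordinal.cof_toType, hc.cof_ord] at h1
  exact absurd hs (not_lt.2 h1)

theorem bddL (s : Set L) (hs : #s ≤ continuum) : ∃ u, ∀ y ∈ s, y < u :=
  bdd_of_lt (isRegular_succ aleph0_le_continuum) s (hs.trans_lt (Order.lt_succ _))

theorem bddX (s : Set X) (hs : s.Countable) : ∃ u, ∀ y ∈ s, y < u :=
  bdd_of_lt isRegular_aleph_one s (hs.le_aleph0.trans_lt aleph0_lt_aleph_one)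

theorem mk_IioL (a : L) : #(Iio a) ≤ continuum :=
  Order.lt_succ_iff.1 (mk_Iio_toType_ord_lt a)

theorem ctble_IioX (a : X) : (Iio a).Countable := by
  rw [← le_aleph0_iff_set_countable, ← Order.lt_succ_iff, succ_aleph0]
  exact mk_Iio_toType_ord_lt a

theorem closure_point (F : L → L) :
    ∃ δ : L, ∀ s : Set L, s.Countable → s ⊆ Iio δ → ∃ γ, s ⊆ Iio γ ∧ F γ < δ := by
  classical
  have hb : ∀ (i : X) (g : ∀ j, j < i → L), ∃ u, ∀ j h, g j h < u ∧ F (g j h) < u := by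
    intro i g
    have := (ctble_IioX i).to_subtype
    obtain ⟨u, hu⟩ := bddL (range (fun j : Iio i => g j.1 j.2) ∪
      range (fun j : Iio i => F (g j.1 j.2)))
      (((countable_range _).union (countable_range _)).le_aleph0.trans aleph0_le_continuum)
    exact ⟨u, fun j h => ⟨hu _ (Or.inl ⟨⟨j, h⟩, rfl⟩), hu _ (Or.inr ⟨⟨j, h⟩, rfl⟩)⟩⟩
  let g : X → L := (wellFounded_lt (α := X)).fix fun i ih => (hb i ih).choose
  have hg : ∀ i j, j < i → g j < g i ∧ F (g j) < g i := by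
    intro i j h
    have e : g i = (hb i fun j _ => g j).choose := (wellFounded_lt (α := X)).fix_eq _ i
    rw [e]
    exact (hb i fun j _ => g j).choose_spec j h
  have hne : {u : L | ∀ i, g i < u}.Nonempty := by
    obtain ⟨u, hu⟩ := bddL (range g) (mk_range_le.trans (by
      rw [mk_ord_toType]; exact aleph_one_le_continuum))
    exact ⟨u, fun i => hu _ ⟨i, rfl⟩⟩
  let δ := (wellFounded_lt (α := L)).min _ hne
  have hδ : ∀ i, g i < δ := (wellFounded_lt (α := L)).min_mem _ hne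
  refine ⟨δ, fun s hs hsub => ?_⟩
  have h1 : ∀ y ∈ s, ∃ i, y ≤ g i := by
    intro y hy
    by_contra h
    push Not at h
    exact (wellFounded_lt (α := L)).not_lt_min _ (show y ∈ {u : L | ∀ i, g i < u} from h) (hsub hy)
  haveI : Nonempty X := ⟨(bddX ∅ countable_empty).choose⟩
  choose! k hk using h1
  obtain ⟨i, hi⟩ := bddX (k '' s) (hs.image k)
  obtain ⟨i', hi'⟩ := bddX {i} (countable_singleton i)
  refine ⟨g i, fun y hy => (hk y hy).trans_lt (hg i _ (hi _ ⟨y, hy, rfl⟩)).1, ?_⟩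
  exact (hg i' i (hi' i rfl)).2.trans (hδ i')

/-- countably many infinite sets can all be split -/
theorem split {A : Type} (S : Set (Set A)) (hS : S.Countable) (hi : ∀ s ∈ S, s.Infinite) :
    ∃ H : Set A, ∀ s ∈ S, (∃ a ∈ s, a ∈ H) ∧ ∃ a ∈ s, a ∉ H := by
  classical
  rcases S.eq_empty_or_nonempty with rfl | hne
  · exact ⟨∅, fun s hs => hs.elim⟩
  obtain ⟨t, rfl⟩ := hS.exists_eq_range hne
  have hb : ∀ (n : ℕ) (g : ∀ j, j < n → A), ∃ u ∈ t (n / 2), ∀ j h, g j h ≠ u := by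
    intro n g
    obtain ⟨u, h1, h2⟩ := (hi _ ⟨n / 2, rfl⟩).exists_notMem_finite
      (finite_range (fun j : Iio n => g j.1 j.2))
    exact ⟨u, h1, fun j h e => h2 ⟨⟨j, h⟩, e⟩⟩
  let g : ℕ → A := (wellFounded_lt (α := ℕ)).fix fun i ih => (hb i ih).choose
  have hg : ∀ i, g i ∈ t (i / 2) ∧ ∀ j, j < i → g j ≠ g i := by
    intro i
    have e : g i = (hb i fun j _ => g j).choose := (wellFounded_lt (α := ℕ)).fix_eq _ i
    rw [e]
    exact (hb i fun j _ => g j).choose_spec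
  refine ⟨range fun n => g (2 * n), ?_⟩
  rintro _ ⟨n, rfl⟩
  refine ⟨⟨g (2 * n), ?_, n, rfl⟩, g (2 * n + 1), ?_, ?_⟩
  · have := (hg (2 * n)).1
    rwa [show 2 * n / 2 = n by omega] at this
  · have := (hg (2 * n + 1)).1
    rwa [show (2 * n + 1) / 2 = n by omega] at this
  · rintro ⟨m, hm⟩
    rcases lt_or_gt_of_ne (show 2 * m ≠ 2 * n + 1 by omega) with h | h
    · exact (hg _).2 _ h hm
    · exact (hg _).2 _ h hm.symm

/-- conditions -/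
structure Cond where
  j : Set (C × X)
  x : Set L
  f : Set (L × L)
  B : Set (ℕ → L)
  jc : j.Countable
  jb : ∀ a ∈ j, ∀ b ∈ j, a.1 = b.1 ↔ a.2 = b.2
  xc : x.Countable
  fx : f ⊆ x ×ˢ x
  Bc : B.Countable
  Bx : ∀ b ∈ B, StrictMono b ∧ ∀ n, b n ∈ x

/-- both colours occur between `a` and the sequence `b` -/
def Both (f : Set (L × L)) (a : L) (b : ℕ → L) : Prop :=
  (∀ n, a < b n) → (∃ n, (a, b n) ∈ f) ∧ ∃ n, (a, b n) ∉ f

structure Le (q p : Cond) : Prop where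
  j : p.j ⊆ q.j
  x : p.x ⊆ q.x
  f : ∀ a ∈ p.x, ∀ b ∈ p.x, (a, b) ∈ q.f ↔ (a, b) ∈ p.f
  B : p.B ⊆ q.B
  pr : ∀ b ∈ p.B, ∀ a ∈ q.x, a ∉ p.x → Both q.f a b

theorem Both.of {f g : Set (L × L)} {a : L} {b : ℕ → L} (h : Both f a b)
    (e : ∀ n, (a, b n) ∈ g ↔ (a, b n) ∈ f) : Both g a b := by
  intro h1
  simp only [e]
  exact h h1

instance : Preorder Cond where
  le := Le
  le_refl p := ⟨subset_rfl, subset_rfl, fun _ _ _ _ => Iff.rfl, subset_rfl,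
    fun _ _ _ h h' => absurd h h'⟩
  le_trans r q p h1 h2 := ⟨h2.j.trans h1.j, h2.x.trans h1.x,
    fun a ha b hb => (h1.f a (h2.x ha) b (h2.x hb)).trans (h2.f a ha b hb), h2.B.trans h1.B,
    fun b hb a ha ha' => by
      by_cases h : a ∈ q.x
      · exact (h2.pr b hb a h ha').of fun n => h1.f a h _ (h2.x ((p.Bx b hb).2 n))
      · exact h1.pr b (h2.B hb) a ha h⟩

instance : OrderTop Cond where
  top := ⟨∅, ∅, ∅, ∅, countable_empty, fun _ h => h.elim, countable_empty, empty_subset _,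
    countable_empty, fun _ h => h.elim⟩
  le_top _ := ⟨empty_subset _, empty_subset _, fun _ h => h.elim, empty_subset _,
    fun _ h => h.elim⟩

theorem Le.fsub {q p : Cond} (h : Le q p) : p.f ⊆ q.f := fun z hz =>
  (h.f z.1 (p.fx hz).1 z.2 (p.fx hz).2).2 hz

theorem closed : SigmaClosed Cond := by
  intro s hs
  have key : ∀ n, ∀ a ∈ (s n).x, ∀ b ∈ (s n).x, (a, b) ∈ ⋃ m, (s m).f ↔ (a, b) ∈ (s n).f := by
    intro n a ha b hb
    refine ⟨fun h => ?_, fun h => mem_iUnion.2 ⟨n, h⟩⟩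
    obtain ⟨m, hm⟩ := mem_iUnion.1 h
    exact (Le.f (hs (le_max_left n m)) a ha b hb).1 (Le.fsub (hs (le_max_right n m)) hm)
  refine ⟨⟨⋃ n, (s n).j, ⋃ n, (s n).x, ⋃ n, (s n).f, ⋃ n, (s n).B,
    countable_iUnion fun n => (s n).jc, ?_, countable_iUnion fun n => (s n).xc, ?_,
    countable_iUnion fun n => (s n).Bc, ?_⟩, fun n => ⟨subset_iUnion (fun n => (s n).j) n,
    subset_iUnion (fun n => (s n).x) n, key n, subset_iUnion (fun n => (s n).B) n, ?_⟩⟩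
  · intro a ha b hb
    obtain ⟨n, hn⟩ := mem_iUnion.1 ha
    obtain ⟨m, hm⟩ := mem_iUnion.1 hb
    exact (s (max n m)).jb a (Le.j (hs (le_max_left n m)) hn) b (Le.j (hs (le_max_right n m)) hm)
  · intro z hz
    obtain ⟨n, hn⟩ := mem_iUnion.1 hz
    exact ⟨mem_iUnion.2 ⟨n, ((s n).fx hn).1⟩, mem_iUnion.2 ⟨n, ((s n).fx hn).2⟩⟩
  · intro b hb
    obtain ⟨n, hn⟩ := mem_iUnion.1 hb
    exact ⟨((s n).Bx b hn).1, fun k => mem_iUnion.2 ⟨n, ((s n).Bx b hn).2 k⟩⟩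
  · intro b hb a ha ha'
    obtain ⟨m, hm⟩ := mem_iUnion.1 ha
    have h1 : Le (s (max n m)) (s n) := hs (le_max_left n m)
    have h2 : a ∈ (s (max n m)).x := Le.x (hs (le_max_right n m)) hm
    exact (h1.pr b hb a h2 ha').of fun k => key _ a h2 _ (h1.x (((s n).Bx b hb).2 k))

theorem add_point (p : Cond) (a : L) : ∃ q, q ≤ p ∧ a ∈ q.x := by
  by_cases ha : a ∈ p.x
  · exact ⟨p, le_rfl, ha⟩
  obtain ⟨H, hH⟩ := split (range '' p.B) (p.Bc.image _) (by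
    rintro _ ⟨b, hb, rfl⟩
    exact infinite_range_of_injective (p.Bx b hb).1.injective)
  refine ⟨⟨p.j, insert a p.x, p.f ∪ {a} ×ˢ (p.x ∩ H), p.B, p.jc, p.jb, p.xc.insert a, ?_, p.Bc,
    fun b hb => ⟨(p.Bx b hb).1, fun n => Or.inr ((p.Bx b hb).2 n)⟩⟩,
    ⟨subset_rfl, subset_insert _ _, ?_, subset_rfl, ?_⟩, Or.inl rfl⟩
  · rintro z (hz | hz)
    · exact ⟨Or.inr (p.fx hz).1, Or.inr (p.fx hz).2⟩
    · exact ⟨Or.inl hz.1, Or.inr hz.2.1⟩
  · intro u hu v _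
    refine ⟨?_, fun h => Or.inl h⟩
    rintro (h | h)
    · exact h
    · exact absurd (show u = a from h.1) fun e => ha (e ▸ hu)
  · rintro b hb u (rfl | hu) hu'
    · intro _
      obtain ⟨⟨_, ⟨n, rfl⟩, h1⟩, _, ⟨m, rfl⟩, h2⟩ := hH _ ⟨b, hb, rfl⟩
      refine ⟨⟨n, Or.inr ⟨rfl, (p.Bx b hb).2 n, h1⟩⟩, m, ?_⟩
      rintro (h | h)
      · exact ha (p.fx h).1
      · exact h2 h.2.2
    · exact absurd hu hu'

theorem add_promise (p : Cond) (b : ℕ → L) (hb : StrictMono b) : ∃ q, q ≤ p ∧ b ∈ q.B := by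
  obtain ⟨q, hq, h⟩ := closed.baire (fun n => {r | b n ∈ r.x}) (fun n r => add_point r (b n)) p
  refine ⟨⟨q.j, q.x, q.f, insert b q.B, q.jc, q.jb, q.xc, q.fx, q.Bc.insert b, ?_⟩,
    le_trans ?_ hq, Or.inl rfl⟩
  · rintro c (rfl | hc)
    · refine ⟨hb, fun n => ?_⟩
      obtain ⟨r, h1, h2⟩ := h n
      exact Le.x h2 h1
    · exact q.Bx c hc
  · exact ⟨subset_rfl, subset_rfl, fun _ _ _ _ => Iff.rfl, subset_insert _ _,
      fun _ _ _ h h' => absurd h h'⟩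

theorem add_code (p : Cond) (c : C) : ∃ q, q ≤ p ∧ ∃ i, (c, i) ∈ q.j := by
  by_cases hc : ∃ i, (c, i) ∈ p.j
  · exact ⟨p, le_rfl, hc⟩
  obtain ⟨i, hi⟩ := bddX (Prod.snd '' p.j) (p.jc.image _)
  refine ⟨⟨insert (c, i) p.j, p.x, p.f, p.B, p.jc.insert _, ?_, p.xc, p.fx, p.Bc, p.Bx⟩,
    ⟨subset_insert _ _, subset_rfl, fun _ _ _ _ => Iff.rfl, subset_rfl,
      fun _ _ _ h h' => absurd h h'⟩, i, Or.inl rfl⟩
  have key : ∀ b ∈ p.j, c ≠ b.1 ∧ i ≠ b.2 := fun b hb =>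
    ⟨fun e => hc ⟨b.2, e ▸ hb⟩, (hi _ ⟨b, hb, rfl⟩).ne'⟩
  rintro a (rfl | ha) b (rfl | hb)
  · simp
  · exact iff_of_false (key b hb).1 (key b hb).2
  · exact iff_of_false (key a ha).1.symm (key a ha).2.symm
  · exact p.jb a ha b hb

/-- restriction below `δ` -/
def Cond.res (r : Cond) (δ : L) : Cond :=
  ⟨r.j, r.x ∩ Iio δ, r.f ∩ Iio δ ×ˢ Iio δ, r.B ∩ {b | ∀ n, b n < δ}, r.jc, r.jb,
    r.xc.mono inter_subset_left,
    fun _ hz => ⟨⟨(r.fx hz.1).1, hz.2.1⟩, ⟨(r.fx hz.1).2, hz.2.2⟩⟩,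
    r.Bc.mono inter_subset_left, fun b hb => ⟨(r.Bx b hb.1).1, fun n => ⟨(r.Bx b hb.1).2 n, hb.2 n⟩⟩⟩

theorem le_res (r : Cond) (δ : L) : r ≤ r.res δ :=
  ⟨subset_rfl, inter_subset_left, fun _ ha _ hb => ⟨fun h => ⟨h, ha.2, hb.2⟩, fun h => h.1⟩,
    inter_subset_left, fun b hb a ha ha' h => absurd ⟨ha, (h 0).trans (hb.2 0)⟩ ha'⟩

theorem amalg (r d : Cond) (δ : L) (hd : d ≤ r.res δ) (hx : d.x ⊆ Iio δ) :
    ∃ q, q ≤ r ∧ q ≤ d := by
  obtain ⟨H, hH⟩ := split ((fun b => range b ∩ Ici δ) '' (r.B ∩ {b | ∃ n, δ ≤ b n}))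
    ((r.Bc.mono inter_subset_left).image _) (by
    rintro _ ⟨b, ⟨hb, n, hn⟩, rfl⟩
    have h1 := (r.Bx b hb).1
    refine (infinite_range_of_injective (f := fun k => b (n + k))
      (h1.injective.comp (add_right_injective n))).mono ?_
    rintro _ ⟨k, rfl⟩
    exact ⟨⟨_, rfl⟩, hn.trans (h1.monotone (Nat.le_add_right n k))⟩)
  have agree : ∀ a ∈ r.x, ∀ b ∈ r.x, a < δ → b < δ → ((a, b) ∈ d.f ↔ (a, b) ∈ r.f) :=
    fun a ha b hb h1 h2 => (Le.f hd a ⟨ha, h1⟩ b ⟨hb, h2⟩).trans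
      ⟨fun h => h.1, fun h => ⟨h, h1, h2⟩⟩
  have fd : ∀ a ∈ d.x, ∀ b ∈ d.x,
      (a, b) ∈ r.f ∪ d.f ∪ (d.x \ r.x) ×ˢ (r.x ∩ Ici δ ∩ H) ↔ (a, b) ∈ d.f := by
    intro a ha b hb
    refine ⟨?_, fun h => Or.inl (Or.inr h)⟩
    rintro ((h | h) | h)
    · exact (agree a (r.fx h).1 b (r.fx h).2 (hx ha) (hx hb)).2 h
    · exact h
    · exact absurd (show b < δ from hx hb) (not_lt.2 h.2.1.2)
  refine ⟨⟨d.j, r.x ∪ d.x, r.f ∪ d.f ∪ (d.x \ r.x) ×ˢ (r.x ∩ Ici δ ∩ H), r.B ∪ d.B, d.jc, d.jb,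
    r.xc.union d.xc, ?_, r.Bc.union d.Bc, ?_⟩, ⟨(Le.j hd :), subset_union_left, ?_,
    subset_union_left, ?_⟩, ⟨subset_rfl, subset_union_right, fd, subset_union_right, ?_⟩⟩
  · rintro z ((hz | hz) | hz)
    · exact ⟨Or.inl (r.fx hz).1, Or.inl (r.fx hz).2⟩
    · exact ⟨Or.inr (d.fx hz).1, Or.inr (d.fx hz).2⟩
    · exact ⟨Or.inr hz.1.1, Or.inl hz.2.1.1⟩
  · rintro b (hb | hb)
    · exact ⟨(r.Bx b hb).1, fun n => Or.inl ((r.Bx b hb).2 n)⟩
    · exact ⟨(d.Bx b hb).1, fun n => Or.inr ((d.Bx b hb).2 n)⟩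
  · intro a ha b hb
    refine ⟨?_, fun h => Or.inl (Or.inl h)⟩
    rintro ((h | h) | h)
    · exact h
    · exact (agree a ha b hb (hx (d.fx h).1) (hx (d.fx h).2)).1 h
    · exact absurd ha h.1.2
  · rintro b hb a (ha | ha) ha'
    · exact absurd ha ha'
    by_cases hc : ∀ n, b n < δ
    · have h1 : b ∈ (r.res δ).B := ⟨hb, hc⟩
      exact (Le.pr hd b h1 a ha fun h => ha' h.1).of fun n =>
        fd a ha _ (Le.x hd (((r.res δ).Bx b h1).2 n))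
    · push Not at hc
      intro _
      obtain ⟨⟨_, ⟨⟨n, rfl⟩, h0⟩, h1⟩, _, ⟨⟨m, rfl⟩, h3⟩, h2⟩ := hH _ ⟨b, ⟨hb, hc⟩, rfl⟩
      refine ⟨⟨n, Or.inr ⟨⟨ha, ha'⟩, ⟨(r.Bx b hb).2 n, h0⟩, h1⟩⟩, m, ?_⟩
      rintro ((h | h) | h)
      · exact ha' (r.fx h).1
      · exact absurd (show b m < δ from hx (d.fx h).2) (not_lt.2 h3)
      · exact h2 h.2.2
  · rintro b hb a (ha | ha) ha'
    · intro h
      exact absurd (Le.x hd ⟨ha, (h 0).trans (hx ((d.Bx b hb).2 0))⟩) ha'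
    · exact absurd ha ha'

theorem mk_ctble {A : Type} (s : Set A) (hs : #s ≤ continuum) :
    #{t : Set A // t ⊆ s ∧ t.Countable} ≤ continuum := by
  have h1 := mk_bounded_subset_le s ℵ₀
  simp only [le_aleph0_iff_set_countable] at h1
  refine h1.trans ?_
  calc max #s ℵ₀ ^ ℵ₀ ≤ continuum ^ ℵ₀ := power_le_power_right (max_le hs aleph0_le_continuum)
    _ = continuum := continuum_power_aleph0

theorem mk_below (γ : L) : #{p : Cond // p.x ⊆ Iio γ} ≤ continuum := by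
  have h1 := mk_ctble (univ : Set (C × X)) (by
    rw [mk_univ, mk_prod, mk_ord_toType]
    simp only [lift_id, mk_set, mk_nat, two_power_aleph0]
    rw [mul_eq_left aleph0_le_continuum aleph_one_le_continuum (aleph_pos 1).ne'])
  have h2 := mk_ctble (Iio γ) (mk_IioL γ)
  have h3 := mk_ctble (Iio γ ×ˢ Iio γ) (by
    rw [mk_setProd]
    exact (mul_le_mul' (mk_IioL γ) (mk_IioL γ)).trans continuum_mul_self.le)
  have h4 := mk_ctble {b : ℕ → L | ∀ n, b n < γ} (by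
    have : #{b : ℕ → L | ∀ n, b n < γ} ≤ #(ℕ → Iio γ) :=
      mk_le_of_injective (f := fun b n => ⟨b.1 n, b.2 n⟩) fun b c e =>
        Subtype.ext (funext fun n => congrArg Subtype.val (congrFun e n))
    refine this.trans ?_
    rw [mk_arrow]
    simp only [lift_id, mk_nat]
    exact (power_le_power_right (mk_IioL γ)).trans continuum_power_aleph0.le)
  let F : {p : Cond // p.x ⊆ Iio γ} → {t : Set (C × X) // t ⊆ univ ∧ t.Countable} ×
      {t : Set L // t ⊆ Iio γ ∧ t.Countable} ×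
      {t : Set (L × L) // t ⊆ Iio γ ×ˢ Iio γ ∧ t.Countable} ×
      {t : Set (ℕ → L) // t ⊆ {b : ℕ → L | ∀ n, b n < γ} ∧ t.Countable} := fun p =>
    (⟨p.1.j, subset_univ _, p.1.jc⟩, ⟨p.1.x, p.2, p.1.xc⟩,
      ⟨p.1.f, p.1.fx.trans (prod_mono p.2 p.2), (p.1.xc.prod p.1.xc).mono p.1.fx⟩,
      ⟨p.1.B, fun b hb n => p.2 ((p.1.Bx b hb).2 n), p.1.Bc⟩)
  have hF : Function.Injective F := by
    rintro ⟨⟨j, x, f, B, _, _, _, _, _, _⟩, _⟩ ⟨⟨j', x', f', B', _, _, _, _, _, _⟩, _⟩ e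
    simp only [F, Prod.mk.injEq, Subtype.mk.injEq] at e
    obtain ⟨rfl, rfl, rfl, rfl⟩ := e
    rfl
  refine (mk_le_of_injective hF).trans ?_
  simp only [mk_prod, lift_id]
  refine (mul_le_mul' h1 (mul_le_mul' h2 (mul_le_mul' h3 h4))).trans ?_
  simp

/-- the chain condition in the form used for preserving the cardinal -/
theorem cov_L {T : Type} (hT : #T ≤ continuum) (D : T → L → Set Cond)
    (hD : ∀ t y p q, p ∈ D t y → q ≤ p → q ∈ D t y) :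
    ∃ y : L, ∀ t r, r ∈ D t y → ∃ y', y' ≠ y ∧ ∃ r', r' ≤ r ∧ r' ∈ D t y' := by
  classical
  have hch : ∀ (t : T) (s : Cond), ∃ d : Cond × L,
      (∃ d' : Cond × L, d'.1 ≤ s ∧ d'.1 ∈ D t d'.2) → d.1 ≤ s ∧ d.1 ∈ D t d.2 := by
    intro t s
    by_cases h : ∃ d' : Cond × L, d'.1 ≤ s ∧ d'.1 ∈ D t d'.2
    · exact ⟨h.choose, fun _ => h.choose_spec⟩
    · obtain ⟨u, -⟩ := bddL ∅ (by simp)
      exact ⟨(s, u), fun h' => absurd h' h⟩
  choose ch hch using hch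
  have hF : ∀ γ : L, ∃ u, ∀ t (s : Cond), s.x ⊆ Iio γ → (ch t s).2 < u ∧ (ch t s).1.x ⊆ Iio u := by
    intro γ
    obtain ⟨u, hu⟩ := bddL (⋃ z : T × {p : Cond // p.x ⊆ Iio γ},
      insert (ch z.1 z.2.1).2 (ch z.1 z.2.1).1.x) (by
      refine (mk_iUnion_le _).trans ?_
      have h1 : (⨆ z : T × {p : Cond // p.x ⊆ Iio γ},
          #(insert (ch z.1 z.2.1).2 (ch z.1 z.2.1).1.x : Set L)) ≤ continuum :=
        ciSup_le' fun z => (((ch z.1 z.2.1).1.xc.insert _).le_aleph0).trans aleph0_le_continuum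
      rw [mk_prod]
      simp only [lift_id]
      refine (mul_le_mul' (mul_le_mul' hT (mk_below γ)) h1).trans ?_
      simp)
    exact ⟨u, fun t s hs => ⟨hu _ (mem_iUnion.2 ⟨(t, ⟨s, hs⟩), Or.inl rfl⟩),
      fun y hy => hu _ (mem_iUnion.2 ⟨(t, ⟨s, hs⟩), Or.inr hy⟩)⟩⟩
  choose F hF using hF
  obtain ⟨δ, hδ⟩ := closure_point F
  refine ⟨δ, fun t r hr => ?_⟩
  obtain ⟨γ, h1, h2⟩ := hδ (r.res δ).x (r.res δ).xc inter_subset_right
  obtain ⟨h3, h4⟩ := hch t (r.res δ) ⟨(r, δ), le_res r δ, hr⟩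
  obtain ⟨h5, h6⟩ := hF γ t (r.res δ) h1
  obtain ⟨q, h7, h8⟩ := amalg r _ δ h3 fun y hy => (h6 hy).trans h2
  exact ⟨_, (h5.trans h2).ne, q, h7, hD _ _ _ _ h4 h8⟩

end H715Z.Sis
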