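import Pool.Agent.H30Z.Forc.Ground
import Pool.Agent.H715Z.SisPoset
import Pool.Agent.H715Z.SisDefs

/-! Ground sets, names and dense requirements. -/

namespace H715Z.Sis

open CohenE ZFSet Pool.Agent.H30Z.Forc Cardinal

noncomputable def eo {o : Ordinal.{0}} (i : o.ToType) : ZFSet.{0} :=
  (Ordinal.typein (α := o.ToType) (· < ·) i).toZFSet

theorem eo_mem {o : Ordinal.{0}} (i : o.ToType) : eo i ∈ o.toZFSet :=
  Ordinal.toZFSet_mem_toZFSet_iff.2 (Ordinal.typein_lt_self i)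

theorem eo_mem_iff {o : Ordinal.{0}} {i j : o.ToType} : eo i ∈ eo j ↔ i < j :=
  Ordinal.toZFSet_mem_toZFSet_iff.trans (Ordinal.typein_lt_typein (α := o.ToType) (· < ·))

theorem eo_inj {o : Ordinal.{0}} {i j : o.ToType} (h : eo i = eo j) : i = j :=
  Ordinal.typein_injective (α := o.ToType) (· < ·) (Ordinal.toZFSet_injective h)

theorem eo_surj {o : Ordinal.{0}} {z : ZFSet.{0}} (hz : z ∈ o.toZFSet) :
    ∃ i : o.ToType, eo i = z := by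
  obtain ⟨a, ha, rfl⟩ := Ordinal.mem_toZFSet_iff.1 hz
  obtain ⟨i, hi⟩ := Ordinal.typein_surj (α := o.ToType) (· < ·) (o := a) (by simpa using ha)
  exact ⟨i, congrArg Ordinal.toZFSet hi⟩

theorem mem_eo {o : Ordinal.{0}} {j : o.ToType} {z : ZFSet.{0}} (hz : z ∈ eo j) :
    ∃ i, i < j ∧ eo i = z := by
  obtain ⟨i, rfl⟩ := eo_surj ((isOrdinal_toZFSet o).mem_trans hz (eo_mem j))
  exact ⟨i, eo_mem_iff.1 hz, rfl⟩

noncomputable def o1 : Ordinal.{0} := (Cardinal.aleph.{0} 1).ord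
noncomputable def w1 : ZFSet.{0} := o1.toZFSet
noncomputable def w2 : ZFSet.{0} := (Order.succ Cardinal.continuum.{0}).ord.toZFSet
noncomputable def u (n : ℕ) : ZFSet.{0} := (o1 + n).toZFSet
noncomputable def t0 : ZFSet.{0} := (o1 + Ordinal.omega0).toZFSet
noncomputable def S0 : ZFSet.{0} :=
  ZFSet.sep (fun h => ∃ a ∈ w1, IsFunc a w1 h) (powerset (prod w1 w1))

theorem u_zero : u 0 = w1 := by simp [u, w1]

theorem u_succ (n : ℕ) : u (n + 1) = insert (u n) (u n) := by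
  rw [u, u, Nat.cast_succ, ← add_assoc, Ordinal.toZFSet_add_one]

theorem u_mem {n m : ℕ} (h : n < m) : u n ∈ u m :=
  Ordinal.toZFSet_mem_toZFSet_iff.2 (by simpa using h)

theorem u_mem_t0 (n : ℕ) : u n ∈ t0 :=
  Ordinal.toZFSet_mem_toZFSet_iff.2 (by simp)

theorem mem_t0 {z : ZFSet.{0}} (hz : z ∈ t0) : ∃ n, z ∈ u n := by
  obtain ⟨a, ha, rfl⟩ := Ordinal.mem_toZFSet_iff.1 hz
  obtain ⟨d, hd, h⟩ := (Ordinal.lt_add_iff_of_isSuccLimit Ordinal.isSuccLimit_omega0).1 ha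
  obtain ⟨n, rfl⟩ := Ordinal.lt_omega0.1 hd
  exact ⟨n, Ordinal.toZFSet_mem_toZFSet_iff.2 h⟩

theorem t0_mem : t0 ∈ w2 := by
  refine Ordinal.toZFSet_mem_toZFSet_iff.2 (Cardinal.lt_ord.2 (Order.lt_succ_iff.2 ?_))
  rw [Ordinal.card_add, o1, card_ord, Ordinal.card_omega0]
  exact (add_le_add aleph_one_le_continuum aleph0_le_continuum).trans continuum_add_self.le

theorem w1_mem_t0 : w1 ∈ t0 := u_zero ▸ u_mem_t0 0

theorem nat_eq (n : ℕ) : nat n = (n : Ordinal.{0}).toZFSet := by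
  induction n with
  | zero => simp [nat]
  | succ n ih => rw [nat, ih, Nat.cast_succ, Ordinal.toZFSet_add_one]

theorem nat_mem_w1 (n : ℕ) : nat n ∈ w1 := by
  rw [nat_eq]
  refine Ordinal.toZFSet_mem_toZFSet_iff.2 (Cardinal.lt_ord.2 ?_)
  simp

theorem ctble_of_mem {a : ZFSet.{0}} (ha : a ∈ w1) : {z | z ∈ a}.Countable := by
  obtain ⟨i, rfl⟩ := eo_surj ha
  refine ((ctble_IioX i).image eo).mono fun z hz => ?_
  obtain ⟨j, h1, h2⟩ := mem_eo hz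
  exact ⟨j, h1, h2⟩

/-- `a` has size at most continuum -/
def Codable (a : ZFSet.{0}) : Prop := ∃ g : ZFSet.{0} → C, ∀ y ∈ a, ∀ z ∈ a, g y = g z → y = z

theorem codable_of {T : Type} (hT : #T ≤ continuum) (ψ : T → ZFSet.{0}) {a : ZFSet.{0}}
    (h : ∀ z ∈ a, ∃ t, ψ t = z) : Codable a := by
  classical
  obtain ⟨e⟩ : Nonempty (T ↪ C) := by
    rw [← Cardinal.le_def]
    simpa using hT
  refine ⟨fun z => if hz : z ∈ a then e (h z hz).choose else ∅, fun y hy z hz hh => ?_⟩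
  simp only [dif_pos hy, dif_pos hz] at hh
  rw [← (h y hy).choose_spec, ← (h z hz).choose_spec, e.injective hh]

theorem codable_w2 {a : ZFSet.{0}} (ha : a ∈ w2) : Codable a := by
  obtain ⟨i, rfl⟩ := eo_surj ha
  refine codable_of (mk_IioL i) (fun y => eo y.1) fun z hz => ?_
  obtain ⟨j, h1, h2⟩ := mem_eo hz
  exact ⟨⟨j, h1⟩, h2⟩

theorem codable_S0 : Codable S0 := by
  refine codable_of (mk_ctble (Set.univ : Set (X × X)) (by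
    rw [mk_univ, mk_prod, mk_ord_toType]
    simp only [lift_id]
    exact (mul_le_mul' aleph_one_le_continuum aleph_one_le_continuum).trans continuum_mul_self.le))
    (fun t => ZFSet.sep (fun z => ∃ p ∈ t.1, z = pair (eo p.1) (eo p.2)) (prod w1 w1))
    fun h hh => ?_
  obtain ⟨h1, a, ha, h2⟩ := ZFSet.mem_sep.1 hh
  rw [mem_powerset] at h1
  refine ⟨⟨{p | pair (eo p.1) (eo p.2) ∈ h}, Set.subset_univ _, ?_⟩, ?_⟩
  · refine Set.MapsTo.countable_of_injOn (f := fun p : X × X => eo p.1) (t := {z | z ∈ a})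
      (fun p (hp : pair (eo p.1) (eo p.2) ∈ h) => (pair_mem_prod.1 (h2.1 hp)).1)
      (fun p (hp : pair (eo p.1) (eo p.2) ∈ h) q hq e => ?_) (ctble_of_mem ha)
    have e1 : eo p.1 = eo q.1 := e
    have hq' : pair (eo p.1) (eo q.2) ∈ h := e1 ▸ hq
    exact Prod.ext (eo_inj e1)
      (eo_inj ((h2.2 _ (pair_mem_prod.1 (h2.1 hp)).1).unique hp hq'))
  · ext z
    rw [ZFSet.mem_sep]
    constructor
    · rintro ⟨-, p, hp, rfl⟩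
      exact hp
    · intro hz
      obtain ⟨x, hx, y, hy, rfl⟩ := mem_prod.1 (h1 hz)
      obtain ⟨i, rfl⟩ := eo_surj hx
      obtain ⟨j, rfl⟩ := eo_surj hy
      exact ⟨h1 hz, (i, j), hz, rfl⟩

open Classical in
noncomputable def code (a : ZFSet.{0}) : ZFSet.{0} → C :=
  if h : Codable a then h.choose else fun _ => ∅

theorem code_inj {a : ZFSet.{0}} (h : Codable a) :
    ∀ y ∈ a, ∀ z ∈ a, code a y = code a z → y = z := by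
  rw [code, dif_pos h]
  exact h.choose_spec

/-! ### Names -/

noncomputable def gn (z : ZFSet.{0}) : Nm Cond := io Cond (chk z)

noncomputable def zf (τ : Nm Cond) : ZFSet.{0} := toZF (fg τ)

theorem zf_gn (z : ZFSet.{0}) : zf (gn z) = z := by rw [zf, gn, fg_io, toZF_chk]

def seqN (s : ℕ → Nm Cond) : Nm Cond := .mk ℕ s (fun _ => ⊤)

noncomputable def nth (n : ℕ) (τ : Nm Cond) : Nm Cond :=
  @Classical.epsilon _ ⟨emptyN⟩ (fun σ => ∃ s, τ = seqN s ∧ σ = s n)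

theorem nth_seq (n : ℕ) (s : ℕ → Nm Cond) : nth n (seqN s) = s n := by
  obtain ⟨s', h1, h2⟩ := @Classical.epsilon_spec _ (fun σ => ∃ s', seqN s = seqN s' ∧ σ = s' n)
    ⟨s n, s, rfl, rfl⟩
  simp only [seqN, Nm.mk.injEq, heq_eq_eq, true_and, and_true] at h1
  rw [h1]
  exact h1 ▸ h2

/-- `r` forces `(a, b) ∈ f` -/
def Fm (a b : ZFSet.{0}) (f : Nm Cond) (r : Cond) : Prop := FMem (opN (gn a) (gn b)) f r

theorem Fm.mono {a b : ZFSet.{0}} {f : Nm Cond} {p q : Cond} (h : Fm a b f p) (hq : q ≤ p) :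
    Fm a b f q := FMem.mono h hq

noncomputable def injN (a : ZFSet.{0}) : Nm Cond :=
  .mk {y : Cond × Shrink.{0} a × X // (code a ((equivShrink a).symm y.2.1).1, y.2.2) ∈ y.1.j}
    (fun y => opN (gn ((equivShrink a).symm y.1.2.1).1) (gn (eo y.1.2.2))) (fun y => y.1.1)

def Col (p : Cond) (a b : L) : Prop := (min a b, max a b) ∈ p.f

theorem col_iff {p q : Cond} (h : q ≤ p) {a b : L} (ha : a ∈ p.x) (hb : b ∈ p.x) :
    Col q a b ↔ Col p a b := by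
  refine Le.f h _ ?_ _ ?_
  · rcases min_choice a b with e | e <;> rwa [e]
  · rcases max_choice a b with e | e <;> rwa [e]

theorem col_comm (p : Cond) (a b : L) : Col p a b ↔ Col p b a := by
  rw [Col, Col, min_comm, max_comm]

noncomputable def cN : Nm Cond :=
  .mk {y : Cond × L × L × ℕ // y.2.1 ∈ y.1.x ∧ y.2.2.1 ∈ y.1.x ∧
      ((Col y.1 y.2.1 y.2.2.1 ∧ y.2.2.2 = 1) ∨ (¬ Col y.1 y.2.1 y.2.2.1 ∧ y.2.2.2 = 0))}
    (fun y => opN (opN (gn (eo y.1.2.1)) (gn (eo y.1.2.2.1))) (natN y.1.2.2.2)) (fun y => y.1.1)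

/-! ### Requirements whose witness is a countable set of ground objects -/

abbrev Rq := (ℕ → Nm Cond) → Cond → Set ZFSet.{0} → Prop

def Rq.Dense (R : Rq) : Prop := ∀ v p, ∃ q, q ≤ p ∧ ∃ Z : Set ZFSet.{0}, Z.Countable ∧ R v q Z

def Rq.req (R : Rq) : Req Cond := fun l q τ =>
  ∃ Z s, τ = seqN s ∧ (∀ z ∈ Z, ∃ n, s n = gn z) ∧ R (lv l) q Z

theorem Rq.Dense.req {R : Rq} (h : R.Dense) : R.req.Dense := by
  intro l p
  obtain ⟨q, hq, Z, hZ, h'⟩ := h (lv l) p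
  obtain ⟨s, hs⟩ := (hZ.insert ∅).exists_eq_range (Set.insert_nonempty _ _)
  refine ⟨q, hq, _, Z, fun n => gn (s n), rfl, fun z hz => ?_, h'⟩
  obtain ⟨n, hn⟩ : z ∈ Set.range s := hs ▸ Set.mem_insert_of_mem _ hz
  exact ⟨n, congrArg gn hn⟩

def CovAt (w : ZFSet.{0}) (T : Set ZFSet.{0}) : Prop :=
  ∀ (f : Nm Cond) (p : Cond), ∃ q, q ≤ p ∧ ∃ y ∈ w, ∀ t ∈ T, ∀ r, r ≤ q → Fm y t f r →
    ∃ y' ∈ w, y' ≠ y ∧ ∃ r', r' ≤ r ∧ Fm y' t f r'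

theorem cov1 {T : Set ZFSet.{0}} (hT : T.Countable) : CovAt w1 T := by
  intro f p
  obtain ⟨s, hs⟩ := (hT.insert ∅).exists_eq_range (Set.insert_nonempty _ _)
  obtain ⟨q, hq, K, hK, h⟩ := closed.cov X (fun n i => {r | Fm (eo i) (s n) f r})
    (fun _ _ _ _ h1 h2 => Fm.mono h1 h2) p
  obtain ⟨i, hi⟩ := bddX K hK
  refine ⟨q, hq, eo i, eo_mem i, fun t ht r hr h1 => ?_⟩
  obtain ⟨n, rfl⟩ : t ∈ Set.range s := hs ▸ Set.mem_insert_of_mem _ ht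
  obtain ⟨j, hj, r', h2, h3⟩ := h n r hr ⟨i, h1⟩
  exact ⟨eo j, eo_mem j, fun e => (hi j hj).ne (eo_inj e), r', h2, h3⟩

theorem cov2 {a : ZFSet.{0}} (ha : a ∈ w2) : CovAt w2 {z | z ∈ a} := by
  intro f p
  obtain ⟨i, rfl⟩ := eo_surj ha
  obtain ⟨y, hy⟩ := cov_L (mk_IioL i) (fun t y => {r | Fm (eo y) (eo t.1) f r})
    (fun _ _ _ _ h1 h2 => Fm.mono h1 h2)
  refine ⟨p, le_rfl, eo y, eo_mem y, fun t ht r _ h1 => ?_⟩
  obtain ⟨j, hj, rfl⟩ := mem_eo ht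
  obtain ⟨y', h2, r', h3, h4⟩ := hy ⟨j, hj⟩ r h1
  exact ⟨eo y', eo_mem y', fun e => h2 (eo_inj e), r', h3, h4⟩

def R0 : Rq := fun _ _ Z => w1 ∈ Z ∧ w2 ∈ Z ∧ t0 ∈ Z ∧ S0 ∈ Z ∧ ∀ n, u n ∈ Z

def R1 : Rq := fun v q Z => (zf (v 1) = w1 ∨ zf (v 1) = w2) → zf (v 2) ∈ zf (v 1) →
  ∃ y ∈ Z, y ∈ zf (v 1) ∧ ∀ t ∈ zf (v 2), ∀ r, r ≤ q → Fm y t (v 0) r →
    ∃ y' ∈ zf (v 1), y' ≠ y ∧ ∃ r', r' ≤ r ∧ Fm y' t (v 0) r'

def R2 : Rq := fun v q Z => (∃ y' ∈ Z, y' ≠ zf (v 1) ∧ Fm y' (zf (v 2)) (v 0) q) ∨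
  ∀ r, r ≤ q → ∀ y', y' ≠ zf (v 1) → ¬ Fm y' (zf (v 2)) (v 0) r

def R3 : Rq := fun v q Z => ∃ i : X, eo i ∈ Z ∧ (code (zf (v 0)) (zf (v 1)), i) ∈ q.j

def R4 : Rq := fun v q _ => ∀ a : L, zf (v 0) = eo a → a ∈ q.x

def R5 : Rq := fun v q Z => zf (v 1) ∈ w1 →
  (∃ ξ ∈ Z, ξ ∈ zf (v 1) ∧ ∀ r, r ≤ q → ∀ y ∈ w1, ¬ Fm ξ y (v 0) r) ∨
  ∃ h ∈ Z, IsFunc (zf (v 1)) w1 h ∧ ∀ ξ y, pair ξ y ∈ h → ξ ∈ Z ∧ y ∈ Z ∧ Fm ξ y (v 0) q

def R6 : Rq := fun v q Z => (∃ n, ∀ r, r ≤ q → ∀ y : L, ¬ Fm (u n) (eo y) (v 1) r) ∨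
  ∃ β : ℕ → L, (∀ n, eo (β n) ∈ Z ∧ Fm (u n) (eo (β n)) (v 1) q) ∧ (¬ StrictMono β ∨
    (∃ ξ ∈ w1, ξ ∈ Z ∧ ∃ a : L, eo a ∈ Z ∧ Fm ξ (eo a) (v 0) q ∧ a ∈ q.x ∧ (∀ n, β n ∈ q.x) ∧
      Both q.f a β) ∨
    (∃ ξ ∈ Z, ∃ ξ' ∈ Z, ∃ t ∈ Z, ξ ≠ ξ' ∧ Fm ξ t (v 0) q ∧ Fm ξ' t (v 0) q) ∨
    ∃ ξ ∈ w1, ξ ∈ Z ∧ ∀ r, r ≤ q → ∀ a : L, ¬ Fm ξ (eo a) (v 0) r)

theorem R0_dense : R0.Dense := fun _ p =>
  ⟨p, le_rfl, insert w1 (insert w2 (insert t0 (insert S0 (Set.range u)))),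
    ((((Set.countable_range u).insert _).insert _).insert _).insert _, by simp [R0]⟩

theorem R1_dense : R1.Dense := by
  intro v p
  by_cases h : (zf (v 1) = w1 ∨ zf (v 1) = w2) ∧ zf (v 2) ∈ zf (v 1)
  · have h1 : CovAt (zf (v 1)) {z | z ∈ zf (v 2)} := by
      obtain ⟨e | e, h2⟩ := h
      · rw [e] at h2 ⊢; exact cov1 (ctble_of_mem h2)
      · rw [e] at h2 ⊢; exact cov2 h2
    obtain ⟨q, hq, y, hy, h2⟩ := h1 (v 0) p
    exact ⟨q, hq, {y}, Set.countable_singleton y, fun _ _ => ⟨y, rfl, hy, h2⟩⟩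
  · exact ⟨p, le_rfl, ∅, Set.countable_empty, fun h1 h2 => absurd ⟨h1, h2⟩ h⟩

theorem R2_dense : R2.Dense := by
  intro v p
  by_cases h : ∀ r, r ≤ p → ∀ y', y' ≠ zf (v 1) → ¬ Fm y' (zf (v 2)) (v 0) r
  · exact ⟨p, le_rfl, ∅, Set.countable_empty, Or.inr h⟩
  · simp only [not_forall, not_not] at h
    obtain ⟨r, hr, y, h1, h2⟩ := h
    exact ⟨r, hr, {y}, Set.countable_singleton y, Or.inl ⟨y, rfl, h1, h2⟩⟩

theorem R3_dense : R3.Dense := by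
  intro v p
  obtain ⟨q, hq, i, hi⟩ := add_code p (code (zf (v 0)) (zf (v 1)))
  exact ⟨q, hq, {eo i}, Set.countable_singleton _, i, rfl, hi⟩

theorem R4_dense : R4.Dense := by
  intro v p
  by_cases h : ∃ a : L, zf (v 0) = eo a
  · obtain ⟨a, ha⟩ := h
    obtain ⟨q, hq, h1⟩ := add_point p a
    exact ⟨q, hq, ∅, Set.countable_empty, fun b hb => eo_inj (ha.symm.trans hb) ▸ h1⟩
  · exact ⟨p, le_rfl, ∅, Set.countable_empty, fun b hb => absurd ⟨b, hb⟩ h⟩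

/-- decide countably many values -/
theorem decide_seq {A : Type 1} (D : ℕ → A → Cond → Prop)
    (hD : ∀ n a p q, D n a p → q ≤ p → D n a q) (p : Cond) :
    ∃ q, q ≤ p ∧ ((∃ n, ∀ r, r ≤ q → ∀ a, ¬ D n a r) ∨ ∃ β : ℕ → A, ∀ n, D n (β n) q) := by
  obtain ⟨q, hq, h⟩ := closed.baire
    (fun n => {a | (∃ y, D n y a) ∨ ∀ r, r ≤ a → ∀ y, ¬ D n y r}) (fun n a => by
      by_cases hh : ∀ r, r ≤ a → ∀ y, ¬ D n y r
      · exact ⟨a, le_rfl, Or.inr hh⟩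
      · simp only [not_forall, not_not] at hh
        obtain ⟨r, hr, y, hy⟩ := hh
        exact ⟨r, hr, Or.inl ⟨y, hy⟩⟩) p
  refine ⟨q, hq, ?_⟩
  by_cases h1 : ∃ n, ∀ r, r ≤ q → ∀ a, ¬ D n a r
  · exact Or.inl h1
  · have h2 : ∀ n, ∃ a, D n a q := by
      intro n
      obtain ⟨r, ⟨y, hy⟩ | h3, h4⟩ := h n
      · exact ⟨y, hD _ _ _ _ hy h4⟩
      · exact absurd ⟨n, fun r' hr' => h3 r' (hr'.trans h4)⟩ h1
    choose β hβ using h2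
    exact Or.inr ⟨β, hβ⟩

theorem R5_dense : R5.Dense := by
  classical
  intro v p
  by_cases ha : zf (v 1) ∈ w1
  swap
  · exact ⟨p, le_rfl, ∅, Set.countable_empty, fun h => absurd h ha⟩
  obtain ⟨s, hs⟩ := ((ctble_of_mem ha).insert ∅).exists_eq_range (Set.insert_nonempty _ _)
  obtain ⟨q, hq, ⟨n, h⟩ | ⟨β, h⟩⟩ := decide_seq
    (fun n y r => s n ∈ zf (v 1) → y ∈ w1 ∧ Fm (s n) y (v 0) r)
    (fun _ _ _ _ h1 h2 h3 => ⟨(h1 h3).1, (h1 h3).2.mono h2⟩) p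
  · refine ⟨q, hq, {s n}, Set.countable_singleton _, fun _ => Or.inl ⟨s n, rfl, ?_, ?_⟩⟩
    · by_contra hh
      exact h q le_rfl ∅ fun h1 => absurd h1 hh
    · intro r hr y hy h1
      exact h r hr y fun _ => ⟨hy, h1⟩
  · have h1 : ∀ ξ ∈ zf (v 1), ∃ n, s n = ξ := fun ξ hξ =>
      show ξ ∈ Set.range s from hs ▸ Set.mem_insert_of_mem _ hξ
    choose! k hk using h1
    let g := ZFSet.sep (fun z => ∃ ξ, z = pair ξ (β (k ξ))) (prod (zf (v 1)) w1)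
    have h2 : ∀ ξ ∈ zf (v 1), β (k ξ) ∈ w1 ∧ Fm ξ (β (k ξ)) (v 0) q := by
      intro ξ hξ
      have := h (k ξ)
      rw [hk ξ hξ] at this
      exact this hξ
    have h3 : ∀ ξ y, pair ξ y ∈ g ↔ ξ ∈ zf (v 1) ∧ y = β (k ξ) := by
      intro ξ y
      rw [ZFSet.mem_sep, pair_mem_prod]
      constructor
      · rintro ⟨⟨a, -⟩, ξ', e⟩
        rw [pair_inj] at e
        exact ⟨a, by rw [e.2, e.1]⟩
      · rintro ⟨a, rfl⟩
        exact ⟨⟨a, (h2 ξ a).1⟩, ξ, rfl⟩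
    refine ⟨q, hq, insert g (Set.range s ∪ Set.range β),
      ((Set.countable_range s).union (Set.countable_range β)).insert _,
      fun _ => Or.inr ⟨g, Or.inl rfl, ⟨fun z hz => (ZFSet.mem_sep.1 hz).1, fun ξ hξ =>
        ⟨β (k ξ), (h3 _ _).2 ⟨hξ, rfl⟩, fun y hy => ((h3 _ _).1 hy).2⟩⟩, fun ξ y hy => ?_⟩⟩
    obtain ⟨a, rfl⟩ := (h3 _ _).1 hy
    exact ⟨Or.inr (Or.inl ⟨_, hk ξ a⟩), Or.inr (Or.inr ⟨_, rfl⟩), (h2 ξ a).2⟩

theorem R6_dense : R6.Dense := by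
  intro v p
  obtain ⟨q, hq, ⟨n, h⟩ | ⟨β', h⟩⟩ := decide_seq (A := ULift.{1} L)
    (fun n y r => Fm (u n) (eo y.down) (v 1) r) (fun _ _ _ _ h1 h2 => h1.mono h2) p
  · exact ⟨q, hq, ∅, Set.countable_empty, Or.inl ⟨n, fun r hr y => h r hr ⟨y⟩⟩⟩
  let β : ℕ → L := fun n => (β' n).down
  have hc : (Set.range fun n => eo (β n)).Countable := Set.countable_range _
  by_cases hβ : StrictMono β
  swap
  · exact ⟨q, hq, _, hc, Or.inr ⟨β, fun n => ⟨⟨n, rfl⟩, h n⟩, Or.inl hβ⟩⟩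
  obtain ⟨p0, h0, hB⟩ := add_promise q β hβ
  obtain ⟨q1, h1, ξ, hξ, h2⟩ := cov1 (p0.xc.image eo) (v 0) p0
  by_cases h3 : ∀ r, r ≤ q1 → ∀ a : L, ¬ Fm ξ (eo a) (v 0) r
  · exact ⟨q1, h1.trans (h0.trans hq), insert ξ _, hc.insert _, Or.inr ⟨β,
      fun n => ⟨Or.inr ⟨n, rfl⟩, (h n).mono (h1.trans h0)⟩,
      Or.inr (Or.inr (Or.inr ⟨ξ, hξ, Or.inl rfl, h3⟩))⟩⟩
  simp only [not_forall, not_not] at h3
  obtain ⟨r, hr, a, h3⟩ := h3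
  by_cases ha : a ∈ p0.x
  · obtain ⟨ξ', -, h4, r', h5, h6⟩ := h2 _ ⟨a, ha, rfl⟩ r hr h3
    have h7 : r' ≤ q := h5.trans (hr.trans (h1.trans h0))
    exact ⟨r', h7.trans hq, insert ξ (insert ξ' (insert (eo a) _)),
      ((hc.insert _).insert _).insert _, Or.inr ⟨β,
      fun n => ⟨Or.inr (Or.inr (Or.inr ⟨n, rfl⟩)), (h n).mono h7⟩,
      Or.inr (Or.inr (Or.inl ⟨ξ, Or.inl rfl, ξ', Or.inr (Or.inl rfl), eo a,
        Or.inr (Or.inr (Or.inl rfl)), h4.symm, h3.mono h5, h6⟩))⟩⟩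
  · obtain ⟨r', h5, h6⟩ := add_point r a
    have h8 : r' ≤ p0 := h5.trans (hr.trans h1)
    exact ⟨r', h8.trans (h0.trans hq), insert ξ (insert (eo a) _), (hc.insert _).insert _,
      Or.inr ⟨β, fun n => ⟨Or.inr (Or.inr ⟨n, rfl⟩), (h n).mono (h8.trans h0)⟩,
      Or.inr (Or.inl ⟨ξ, hξ, Or.inl rfl, a, Or.inr (Or.inl rfl), h3.mono h5, h6,
        fun n => Le.x h8 ((p0.Bx β hB).2 n), Le.pr h8 β hB a h6 ha⟩)⟩⟩

end H715Z.Sis
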