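import Mathlib

set_option autoImplicit false

namespace Pool.Agent.H715Z.Tutte

variable {V : Type} {G : SimpleGraph V}

/-- `p 0, ..., p s` is a non-backtracking walk. -/
def Arc (G : SimpleGraph V) (s : ℕ) (p : ℕ → V) : Prop :=
  (∀ i, i < s → G.Adj (p i) (p (i + 1))) ∧ ∀ i, i + 2 ≤ s → p (i + 2) ≠ p i

def Tr (G : SimpleGraph V) (s : ℕ) : Prop :=
  ∀ p q, Arc G s p → Arc G s q → ∃ φ : G ≃g G, ∀ i, i ≤ s → φ (p i) = q i

def Cubic (G : SimpleGraph V) : Prop :=
  ∀ x y, G.Adj x y → ∃ z w, z ≠ w ∧ ∀ u, (G.Adj y u ∧ u ≠ x) ↔ (u = z ∨ u = w)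

theorem Arc.mono {s t : ℕ} {p : ℕ → V} (h : Arc G s p) (hts : t ≤ s) : Arc G t p :=
  ⟨fun i hi => h.1 i (by omega), fun i hi => h.2 i (by omega)⟩

theorem not_tr (hc : Cubic G) {n : ℕ} {p : ℕ → V} (hp : Arc G (n + 2) p)
    (hcl : p (n + 2) = p 0) : ¬ Tr G (n + 2) := by
  classical
  intro htr
  obtain ⟨z, w, hzw, h⟩ := hc (p n) (p (n + 1)) (hp.1 n (by omega))
  obtain ⟨y, hy1, hy2, hy3⟩ : ∃ y, G.Adj (p (n + 1)) y ∧ y ≠ p n ∧ y ≠ p (n + 2) := by
    by_cases hz : z = p (n + 2)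
    · have := (h w).2 (Or.inr rfl)
      exact ⟨w, this.1, this.2, fun e => hzw (hz.trans e.symm)⟩
    · have := (h z).2 (Or.inl rfl)
      exact ⟨z, this.1, this.2, hz⟩
  have hq : Arc G (n + 2) (Function.update p (n + 2) y) := by
    constructor
    · intro i hi
      rw [Function.update_of_ne (by omega)]
      by_cases h1 : i + 1 = n + 2
      · have : i = n + 1 := by omega
        subst this
        rw [Function.update_self]; exact hy1
      · rw [Function.update_of_ne h1]; exact hp.1 i hi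
    · intro i hi
      rw [Function.update_of_ne (a := i) (by omega)]
      by_cases h1 : i + 2 = n + 2
      · have : i = n := by omega
        subst this
        rw [Function.update_self]; exact hy2
      · rw [Function.update_of_ne h1]; exact hp.2 i hi
  obtain ⟨φ, hφ⟩ := htr p _ hp hq
  have h0 := hφ 0 (by omega)
  have h1 := hφ (n + 2) le_rfl
  rw [Function.update_of_ne (by omega)] at h0
  rw [Function.update_self, hcl, h0] at h1
  exact hy3 (h1.symm.trans hcl.symm)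

theorem rigid_step (hc : Cubic G) {s : ℕ} (h1 : Tr G (s + 1)) (h2 : ¬ Tr G (s + 2))
    (φ : G ≃g G) (p : ℕ → V) (hp : Arc G (s + 1) p) (hf : ∀ i, i ≤ s + 1 → φ (p i) = p i)
    (z : V) (hz : G.Adj (p (s + 1)) z) : φ z = z := by
  by_contra hne
  apply h2
  have hzs : z ≠ p s := by
    rintro rfl
    exact hne (hf s (by omega))
  obtain ⟨z0, w0, hzw, h⟩ := hc (p s) (p (s + 1)) (hp.1 s (by omega))
  have hz1 := (h z).1 ⟨hz, hzs⟩
  have hz2 := (h (φ z)).1 ⟨by
      have := φ.map_rel_iff.2 hz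
      rwa [hf (s + 1) le_rfl] at this, by
      intro e
      rw [← hf s (by omega)] at e
      exact hzs (φ.injective e)⟩
  have key : ∀ q, Arc G (s + 2) q → ∃ ψ : G ≃g G, (∀ i, i ≤ s + 1 → ψ (q i) = p i) ∧
      ψ (q (s + 2)) = φ z := by
    intro q hq
    obtain ⟨ψ, hψ⟩ := h1 q p (hq.mono (by omega)) hp
    have hy := (h (ψ (q (s + 2)))).1 ⟨by
        have := ψ.map_rel_iff.2 (hq.1 (s + 1) (by omega))
        rwa [hψ (s + 1) le_rfl] at this, by
        intro e
        rw [← hψ s (by omega)] at e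
        exact hq.2 s le_rfl (ψ.injective e)⟩
    have : ψ (q (s + 2)) = φ z ∨ ψ (q (s + 2)) = z := by
      rcases hz1 with e1 | e1 <;> rcases hz2 with e2 | e2 <;> rcases hy with e3 | e3
      all_goals first
        | exact absurd (e2.trans e1.symm) hne
        | exact Or.inl (e3.trans e2.symm)
        | exact Or.inr (e3.trans e1.symm)
    rcases this with e | e
    · exact ⟨ψ, hψ, e⟩
    · refine ⟨ψ.trans φ, fun i hi => ?_, ?_⟩
      · show φ (ψ (q i)) = p i
        rw [hψ i hi, hf i hi]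
      · show φ (ψ (q (s + 2))) = φ z
        rw [e]
  intro q r hq hr
  obtain ⟨ψ1, a1, b1⟩ := key q hq
  obtain ⟨ψ2, a2, b2⟩ := key r hr
  refine ⟨ψ1.trans ψ2.symm, fun i hi => ?_⟩
  show ψ2.symm (ψ1 (q i)) = r i
  apply ψ2.injective
  rw [RelIso.apply_symm_apply]
  by_cases h3 : i ≤ s + 1
  · rw [a1 i h3, a2 i h3]
  · have : i = s + 2 := by omega
    subst this
    rw [b1, b2]

section fixall
variable {s : ℕ} (φ : G ≃g G)

def Good (s : ℕ) (φ : G ≃g G) (k : ℕ) (x y : V) : Prop :=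
  ∃ p, Arc G (s + 1) p ∧ (∀ i, i ≤ s + 1 → φ (p i) = p i) ∧ p k = x ∧ p (k + 1) = y

theorem shift
    (hr : ∀ p, Arc G (s + 1) p → (∀ i, i ≤ s + 1 → φ (p i) = p i) →
      ∀ z, G.Adj (p (s + 1)) z → φ z = z)
    (p : ℕ → V) (hp : Arc G (s + 1) p) (hf : ∀ i, i ≤ s + 1 → φ (p i) = p i)
    (z : V) (hz : G.Adj (p (s + 1)) z) (hz' : z ≠ p s) :
    ∃ q, Arc G (s + 1) q ∧ (∀ i, i ≤ s + 1 → φ (q i) = q i) ∧ (∀ i, i ≤ s → q i = p (i + 1)) ∧
      q (s + 1) = z := by
  refine ⟨fun i => if i ≤ s then p (i + 1) else z, ⟨fun i hi => ?_, fun i hi => ?_⟩,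
    fun i hi => ?_, fun i hi => ?_, ?_⟩
  · by_cases h : i + 1 ≤ s
    · simp only [if_pos h, if_pos (show i ≤ s by omega)]
      exact hp.1 (i + 1) (by omega)
    · have : i = s := by omega
      subst this
      simp only [if_neg h, if_pos le_rfl]
      exact hz
  · by_cases h : i + 2 ≤ s
    · simp only [if_pos h, if_pos (show i ≤ s by omega)]
      exact hp.2 (i + 1) (by omega)
    · have : s = i + 1 := by omega
      subst this
      simp only [if_neg h, if_pos (show i ≤ i + 1 by omega)]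
      exact hz'
  · by_cases h : i ≤ s
    · simp only [if_pos h]; exact hf (i + 1) (by omega)
    · simp only [if_neg h]; exact hr p hp hf z hz
  · simp only [if_pos hi]
  · simp only [if_neg (show ¬ s + 1 ≤ s by omega)]

theorem fix_all (hc : Cubic G) (hconn : G.Preconnected)
    (hr : ∀ p, Arc G (s + 1) p → (∀ i, i ≤ s + 1 → φ (p i) = p i) →
      ∀ z, G.Adj (p (s + 1)) z → φ z = z)
    (p : ℕ → V) (hp : Arc G (s + 1) p) (hf : ∀ i, i ≤ s + 1 → φ (p i) = p i) (v : V) :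
    φ v = v := by
  have step : ∀ x y z, Good s φ s x y → G.Adj y z → z ≠ x → Good s φ s y z := by
    rintro x y z ⟨q, hq, hfq, rfl, rfl⟩ h1 h2
    obtain ⟨r, hr1, hr2, hr3, hr4⟩ := shift φ hr q hq hfq z h1 h2
    exact ⟨r, hr1, hr2, hr3 s le_rfl, hr4⟩
  have down : ∀ k x y, k + 1 ≤ s → Good s φ (k + 1) x y → Good s φ k x y := by
    rintro k x y hk ⟨q, hq, hfq, rfl, rfl⟩
    obtain ⟨z, w, -, h⟩ := hc (q s) (q (s + 1)) (hq.1 s (by omega))
    have := (h z).2 (Or.inl rfl)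
    obtain ⟨r, hr1, hr2, hr3, -⟩ := shift φ hr q hq hfq z this.1 this.2
    exact ⟨r, hr1, hr2, hr3 k (by omega), hr3 (k + 1) hk⟩
  have down0 : ∀ k x y, k ≤ s → Good s φ k x y → Good s φ 0 x y := by
    intro k
    induction k with
    | zero => intro x y _ h; exact h
    | succ k ih => intro x y hk h; exact ih x y (by omega) (down k x y hk h)
  have rev : ∀ x y, Good s φ 0 x y → Good s φ s y x := by
    rintro x y ⟨q, hq, hfq, rfl, rfl⟩
    refine ⟨fun i => q (s + 1 - i), ⟨fun i hi => ?_, fun i hi => ?_⟩, fun i hi => hfq _ (by omega),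
      ?_, ?_⟩
    · have := (hq.1 (s - i) (by omega)).symm
      have e1 : s + 1 - i = s - i + 1 := by omega
      have e2 : s + 1 - (i + 1) = s - i := by omega
      simp only [e1, e2]; exact this
    · have := (hq.2 (s - 1 - i) (by omega)).symm
      have e1 : s + 1 - i = s - 1 - i + 2 := by omega
      have e2 : s + 1 - (i + 2) = s - 1 - i := by omega
      simp only [e1, e2]; exact this
    · show q (s + 1 - s) = q (0 + 1)
      congr 1; omega
    · show q (s + 1 - (s + 1)) = q 0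
      congr 1; omega
  have all : ∀ y z, G.Adj y z → (∃ x, Good s φ s x y) → ∃ x, Good s φ s x z := by
    rintro y z hyz ⟨x, hx⟩
    by_cases h : z = x
    · subst h
      exact ⟨y, rev _ _ (down0 s _ _ le_rfl hx)⟩
    · exact ⟨y, step x y z hx hyz h⟩
  have reach : ∀ y z, G.Reachable y z → (∃ x, Good s φ s x y) → ∃ x, Good s φ s x z := by
    rintro y z ⟨w⟩
    induction w with
    | nil => exact id
    | cons h _ ih => exact fun hh => ih (all _ _ h hh)
  obtain ⟨x, q, -, hfq, -, rfl⟩ := reach (p (s + 1)) v (hconn _ _) ⟨p s, p, hp, hf, rfl, rfl⟩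
  exact hfq _ le_rfl

end fixall

theorem exists_rigid (hc : Cubic G) (hconn : G.Preconnected) (h1 : Tr G 1)
    {n : ℕ} {p : ℕ → V} (hp : Arc G (n + 2) p) (hcl : p (n + 2) = p 0) :
    ∃ s, s ≤ n + 2 ∧ ∀ φ : G ≃g G, (∀ i, i ≤ s → φ (p i) = p i) → ∀ v, φ v = v := by
  classical
  have hex : ∃ s, ¬ Tr G (s + 2) := ⟨n, not_tr hc hp hcl⟩
  have hs := Nat.find_spec hex
  have hle : Nat.find hex ≤ n := Nat.find_min' hex (not_tr hc hp hcl)
  have hs1 : Tr G (Nat.find hex + 1) := by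
    rcases h : Nat.find hex with _ | m
    · exact h1
    · have := Nat.find_min hex (m := m) (by omega)
      exact not_not.1 this
  refine ⟨Nat.find hex + 1, by omega, fun φ hφ v => ?_⟩
  exact fix_all φ hc hconn (fun q hq hfq z hz => rigid_step hc hs1 hs φ q hq hfq z hz) p
    (hp.mono (by omega)) hφ v

theorem finite_aut (hlf : ∀ v : V, (G.neighborSet v).Finite) {s : ℕ} {p : ℕ → V}
    (hp : Arc G s p) (hr : ∀ φ : G ≃g G, (∀ i, i ≤ s → φ (p i) = p i) → ∀ v, φ v = v)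
    (S : Finset V) : {φ : G ≃g G | φ (p 0) ∈ S}.Finite := by
  let B : ℕ → Set V := fun i => Nat.rec (S : Set V) (fun _ T => ⋃ x ∈ T, G.neighborSet x) i
  have hB : ∀ i, (B i).Finite := by
    intro i
    induction i with
    | zero => exact S.finite_toSet
    | succ i ih => exact ih.biUnion fun x _ => hlf x
  have hmem : ∀ φ : G ≃g G, φ (p 0) ∈ S → ∀ i, i ≤ s → φ (p i) ∈ B i := by
    intro φ h i
    induction i with
    | zero => intro _; exact h
    | succ i ih =>
      intro hi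
      refine Set.mem_biUnion (ih (by omega)) ?_
      exact φ.map_rel_iff.2 (hp.1 i (by omega))
  have hfin : {f : Fin (s + 1) → V | ∀ i : Fin (s + 1), f i ∈ B i}.Finite :=
    Set.Finite.pi' fun i : Fin (s + 1) => hB i
  refine Set.Finite.of_injOn (f := fun (φ : G ≃g G) (i : Fin (s + 1)) => φ (p i)) ?_ ?_ hfin
  · intro φ h i
    exact hmem φ h i (by omega)
  · intro φ _ ψ _ h
    have := hr (φ.trans ψ.symm) fun i hi => by
      show ψ.symm (φ (p i)) = p i
      have : φ (p i) = ψ (p i) := congrFun h ⟨i, by omega⟩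
      rw [this, RelIso.symm_apply_apply]
    ext v
    have h2 : ψ.symm (φ v) = v := this v
    rw [← h2, RelIso.apply_symm_apply, h2]

section coset
variable {Γ : Type} [Group Γ] (a b : Γ)

/-- The coset graph on the left cosets of the cyclic group generated by `b`. -/
def CG (ha : a * a = 1) (hab : a ∉ Subgroup.zpowers b) : SimpleGraph (Γ ⧸ Subgroup.zpowers b) where
  Adj x y := ∃ g : Γ, x = (g : Γ ⧸ Subgroup.zpowers b) ∧ y = ((g * a : Γ) : Γ ⧸ Subgroup.zpowers b)
  symm := ⟨by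
    rintro x y ⟨g, rfl, rfl⟩
    exact ⟨g * a, rfl, by rw [mul_assoc, ha, mul_one]⟩⟩
  loopless := ⟨by
    rintro x ⟨g, rfl, h⟩
    apply hab
    have := QuotientGroup.eq.1 h
    simpa using this⟩

variable {a b}

theorem mem_zp (hb : b ^ 3 = 1) {x : Γ} (hx : x ∈ Subgroup.zpowers b) :
    x = 1 ∨ x = b ∨ x = b * b := by
  obtain ⟨k, rfl⟩ := hx
  have h3 : b ^ (3 : ℤ) = 1 := by exact_mod_cast hb
  have : b ^ k = b ^ (k % 3) := by
    conv_lhs => rw [← Int.emod_add_mul_ediv k 3, zpow_add, zpow_mul, h3, one_zpow, mul_one]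
  show b ^ k = 1 ∨ b ^ k = b ∨ b ^ k = b * b
  rw [this]
  have : k % 3 = 0 ∨ k % 3 = 1 ∨ k % 3 = 2 := by omega
  rcases this with h | h | h <;> rw [h]
  · simp
  · simp
  · right; right; rw [zpow_two]

def act (ha : a * a = 1) (hab : a ∉ Subgroup.zpowers b) (g : Γ) : CG a b ha hab ≃g CG a b ha hab where
  toEquiv := MulAction.toPerm g
  map_rel_iff' := by
    intro x y
    constructor
    · rintro ⟨h, h1, h2⟩
      refine ⟨g⁻¹ * h, ?_, ?_⟩
      · have : x = g⁻¹ • (h : Γ ⧸ Subgroup.zpowers b) := by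
          rw [← h1]; simp
        rw [this]; rfl
      · have : y = g⁻¹ • ((h * a : Γ) : Γ ⧸ Subgroup.zpowers b) := by
          rw [← h2]; simp
        rw [this, mul_assoc]; rfl
    · rintro ⟨h, rfl, rfl⟩
      exact ⟨g * h, rfl, by rw [mul_assoc]; rfl⟩

theorem act_apply (ha : a * a = 1) (hab : a ∉ Subgroup.zpowers b) (g h : Γ) :
    act ha hab g (h : Γ ⧸ Subgroup.zpowers b) = ((g * h : Γ) : Γ ⧸ Subgroup.zpowers b) := rfl

theorem adj_iff (ha : a * a = 1) (hb : b ^ 3 = 1) (hab : a ∉ Subgroup.zpowers b) (g : Γ)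
    (y : Γ ⧸ Subgroup.zpowers b) :
    (CG a b ha hab).Adj (g : Γ ⧸ Subgroup.zpowers b) y ↔
      (y = ((g * a : Γ) : Γ ⧸ Subgroup.zpowers b) ∨ y = ((g * b * a : Γ) : Γ ⧸ Subgroup.zpowers b) ∨
        y = ((g * (b * b) * a : Γ) : Γ ⧸ Subgroup.zpowers b)) := by
  have hbm : b ∈ Subgroup.zpowers b := Subgroup.mem_zpowers b
  constructor
  · rintro ⟨h, h1, rfl⟩
    have := QuotientGroup.eq.1 h1
    have e : h = g * (g⁻¹ * h) := by group
    rcases mem_zp hb this with h2 | h2 | h2 <;> rw [e, h2] <;> simp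
  · rintro (rfl | rfl | rfl)
    · exact ⟨g, rfl, rfl⟩
    · exact ⟨g * b, QuotientGroup.eq.2 (by simp), rfl⟩
    · exact ⟨g * (b * b), QuotientGroup.eq.2 (by simpa using mul_mem hbm hbm), rfl⟩

theorem cubic (ha : a * a = 1) (hb : b ^ 3 = 1) (hab : a ∉ Subgroup.zpowers b)
    (h1 : a * b * a ∉ Subgroup.zpowers b) : Cubic (CG a b ha hab) := by
  have hai : a⁻¹ = a := inv_eq_of_mul_eq_one_right ha
  have hbbb : b * b * b = 1 := by rw [← hb]; simp [pow_succ]
  have h2 : a * (b * b) * a ∉ Subgroup.zpowers b := by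
    intro h
    apply h1
    have : a * b * a = (a * (b * b) * a)⁻¹ := by
      rw [eq_inv_iff_mul_eq_one]
      calc a * b * a * (a * (b * b) * a) = a * b * (a * a) * (b * b) * a := by group
        _ = a * (b * b * b) * a := by rw [ha]; group
        _ = 1 := by rw [hbbb, mul_one, ha]
    rw [this]; exact inv_mem h
  intro x y hxy
  obtain ⟨g, rfl, rfl⟩ := hxy.symm
  have n1 : ((g * b * a : Γ) : Γ ⧸ Subgroup.zpowers b) ≠ ((g * a : Γ) : Γ ⧸ Subgroup.zpowers b) := by
    intro h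
    apply h1
    have := QuotientGroup.eq.1 h.symm
    have e : (g * a)⁻¹ * (g * b * a) = a⁻¹ * b * a := by group
    rwa [e, hai] at this
  have n2 : ((g * (b * b) * a : Γ) : Γ ⧸ Subgroup.zpowers b) ≠
      ((g * a : Γ) : Γ ⧸ Subgroup.zpowers b) := by
    intro h
    apply h2
    have := QuotientGroup.eq.1 h.symm
    have e : (g * a)⁻¹ * (g * (b * b) * a) = a⁻¹ * (b * b) * a := by group
    rwa [e, hai] at this
  refine ⟨((g * b * a : Γ) : Γ ⧸ Subgroup.zpowers b),
    ((g * (b * b) * a : Γ) : Γ ⧸ Subgroup.zpowers b), ?_, fun u => ?_⟩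
  · intro h
    apply h1
    have := QuotientGroup.eq.1 h
    have e : (g * b * a)⁻¹ * (g * (b * b) * a) = a⁻¹ * b * a := by group
    rwa [e, hai] at this
  · rw [adj_iff ha hb hab]
    constructor
    · rintro ⟨h | h | h, h'⟩
      · exact absurd h h'
      · exact Or.inl h
      · exact Or.inr h
    · rintro (rfl | rfl)
      · exact ⟨Or.inr (Or.inl rfl), n1⟩
      · exact ⟨Or.inr (Or.inr rfl), n2⟩

theorem preconn (ha : a * a = 1) (hb : b ^ 3 = 1) (hab : a ∉ Subgroup.zpowers b)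
    (hgen : Subgroup.closure ({a, b} : Set Γ) = ⊤) : (CG a b ha hab).Preconnected := by
  have key : ∀ h : Γ, ∀ g : Γ, (CG a b ha hab).Reachable (g : Γ ⧸ Subgroup.zpowers b)
      ((g * h : Γ) : Γ ⧸ Subgroup.zpowers b) := by
    intro h
    have hh : h ∈ Subgroup.closure ({a, b} : Set Γ) := by rw [hgen]; trivial
    induction hh using Subgroup.closure_induction with
    | mem x hx =>
      intro g
      rcases hx with rfl | rfl
      · exact SimpleGraph.Adj.reachable ⟨g, rfl, rfl⟩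
      · have : ((g * x : Γ) : Γ ⧸ Subgroup.zpowers x) = g := QuotientGroup.eq.2 (by simp)
        rw [this]
    | one => intro g; rw [mul_one]
    | mul x y _ _ ihx ihy => intro g; rw [← mul_assoc]; exact (ihx g).trans (ihy _)
    | inv x _ ih =>
      intro g
      have := (ih (g * x⁻¹)).symm
      rwa [inv_mul_cancel_right] at this
  intro x y
  obtain ⟨g, rfl⟩ := QuotientGroup.mk_surjective x
  obtain ⟨h, rfl⟩ := QuotientGroup.mk_surjective y
  have := key (g⁻¹ * h) g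
  rwa [mul_inv_cancel_left] at this

theorem main (ha : a * a = 1) (hb : b ^ 3 = 1) (hab : a ∉ Subgroup.zpowers b)
    (h1 : a * b * a ∉ Subgroup.zpowers b) (hgen : Subgroup.closure ({a, b} : Set Γ) = ⊤)
    (n : ℕ) (γ : ℕ → Γ) (hγ : ∀ i, γ (i + 1) = γ i * b * a ∨ γ (i + 1) = γ i * (b * b) * a)
    (hcl : γ (n + 2) = γ 0) (hfi : ∀ H : Subgroup Γ, H.FiniteIndex → H = ⊤) :
    ¬ (∀ (V : Type) (G : SimpleGraph V),
      (∀ v : V, (G.neighborSet v).Finite) →
      (∃ S : Finset V, ∀ v : V, ∃ s ∈ S, ∃ φ : G ≃g G, φ s = v) →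
      (∃ u v w x : V, G.Adj u v ∧ G.Adj w x ∧ G.Reachable u w ∧ s(u, v) ≠ s(w, x)) →
      ∃ (C : Type) (c : Sym2 V → C),
        (∃ u v w x : V, G.Adj u v ∧ G.Adj w x ∧ G.Reachable u w ∧ c s(u, v) ≠ c s(w, x)) ∧
        (∃ S : Finset V, ∀ v : V, ∃ s ∈ S, ∃ φ : G ≃g G,
          (∀ a b : V, G.Adj a b → c s(φ a, φ b) = c s(a, b)) ∧ φ s = v)) := by
  classical
  intro hall
  have hc := cubic ha hb hab h1
  have hconn := preconn ha hb hab hgen
  have hbm : b ∈ Subgroup.zpowers b := Subgroup.mem_zpowers b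
  have hlf : ∀ v, ((CG a b ha hab).neighborSet v).Finite := by
    intro v
    obtain ⟨g, rfl⟩ := QuotientGroup.mk_surjective v
    refine (Set.toFinite ({((g * a : Γ) : Γ ⧸ Subgroup.zpowers b), ((g * b * a : Γ) : Γ ⧸ _),
      ((g * (b * b) * a : Γ) : Γ ⧸ _)} : Set _)).subset fun y hy => ?_
    exact (adj_iff ha hb hab g y).1 hy
  have htr1 : ∀ u v w x, (CG a b ha hab).Adj u v → (CG a b ha hab).Adj w x →
      ∃ g : Γ, act ha hab g u = w ∧ act ha hab g v = x := by
    rintro _ _ _ _ ⟨g, rfl, rfl⟩ ⟨h, rfl, rfl⟩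
    refine ⟨h * g⁻¹, ?_, ?_⟩
    · rw [act_apply]; congr 1; group
    · rw [act_apply]; congr 1; group
  have htr : Tr (CG a b ha hab) 1 := by
    intro p q hp hq
    obtain ⟨g, e1, e2⟩ := htr1 _ _ _ _ (hp.1 0 one_pos) (hq.1 0 one_pos)
    refine ⟨act ha hab g, fun i hi => ?_⟩
    interval_cases i
    · exact e1
    · exact e2
  have hadj : ∀ i, (CG a b ha hab).Adj (γ i : Γ ⧸ Subgroup.zpowers b) (γ (i + 1) : Γ ⧸ _) := by
    intro i
    rw [adj_iff ha hb hab]
    rcases hγ i with h | h <;> rw [h] <;> simp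
  have harc : ∀ m, Arc (CG a b ha hab) m fun i => (γ i : Γ ⧸ Subgroup.zpowers b) := by
    intro m
    refine ⟨fun i _ => hadj i, fun i _ => ?_⟩
    obtain ⟨z, w, hzw, h⟩ := hc _ _ (hadj i)
    have hback : (γ i : Γ ⧸ Subgroup.zpowers b) = ((γ (i + 1) * a : Γ) : Γ ⧸ _) := by
      rcases hγ i with h | h <;> rw [h, mul_assoc _ a a, ha, mul_one] <;> apply QuotientGroup.eq.2
      · simp
      · simpa using mul_mem hbm hbm
    intro e
    have e' : (γ (i + 1 + 1) : Γ ⧸ Subgroup.zpowers b) = (γ i : Γ ⧸ _) := e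
    have hz := (h z).2 (Or.inl rfl)
    have hw := (h w).2 (Or.inr rfl)
    rw [adj_iff ha hb hab, ← hback] at hz hw
    rcases hγ (i + 1) with h' | h' <;> rw [h'] at e' <;> rw [e'] at hz hw
    · apply hzw
      rcases hz with ⟨h3 | h3 | h3, h4⟩ <;> rcases hw with ⟨h5 | h5 | h5, h6⟩ <;>
        first | exact absurd h3 h4 | exact absurd h5 h6 | exact h3.trans h5.symm
    · apply hzw
      rcases hz with ⟨h3 | h3 | h3, h4⟩ <;> rcases hw with ⟨h5 | h5 | h5, h6⟩ <;>
        first | exact absurd h3 h4 | exact absurd h5 h6 | exact h3.trans h5.symm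
  obtain ⟨s, -, hs⟩ := exists_rigid hc hconn htr (harc (n + 2)) (by simp only [hcl])
  obtain ⟨C, c, ⟨u, v, w, x, huv, hwx, -, hne⟩, S, hS⟩ := hall _ (CG a b ha hab) hlf
    ⟨{((1 : Γ) : Γ ⧸ Subgroup.zpowers b)}, fun v => by
      obtain ⟨g, rfl⟩ := QuotientGroup.mk_surjective v
      exact ⟨_, Finset.mem_singleton_self _, act ha hab g, by rw [act_apply, mul_one]⟩⟩
    ⟨_, _, _, _, hadj 0, hadj 1, (hadj 0).reachable, fun e => by
      rcases Sym2.eq_iff.1 e with ⟨e1, _⟩ | ⟨e1, _⟩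
      · exact (hadj 0).ne e1
      · exact (harc 2).2 0 le_rfl e1.symm⟩
  let H : Subgroup Γ :=
    { carrier := {g | ∀ x y, (CG a b ha hab).Adj x y → c s(g • x, g • y) = c s(x, y)}
      one_mem' := fun x y _ => by simp
      mul_mem' := fun {g h} hg hh x y hxy => by
        rw [mul_smul, mul_smul, hg (h • x) (h • y) ((act ha hab h).map_rel_iff.2 hxy), hh x y hxy]
      inv_mem' := fun {g} hg x y hxy => by
        have := hg (g⁻¹ • x) (g⁻¹ • y) ((act ha hab g⁻¹).map_rel_iff.2 hxy)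
        simpa using this.symm }
  have hfin := finite_aut hlf (harc s) hs S
  choose σ hσ ψ hψ1 hψ2 using hS
  have hH : Finite (Γ ⧸ H) := by
    have : Finite {φ : CG a b ha hab ≃g CG a b ha hab | φ (γ 0 : Γ ⧸ Subgroup.zpowers b) ∈ S} := hfin
    let t : Γ → {φ : CG a b ha hab ≃g CG a b ha hab | φ (γ 0 : Γ ⧸ Subgroup.zpowers b) ∈ S} :=
      fun g => ⟨(act ha hab g⁻¹).trans (ψ (act ha hab g⁻¹ (γ 0 : Γ ⧸ _))).symm, by
        show (ψ (act ha hab g⁻¹ (γ 0 : Γ ⧸ _))).symm (act ha hab g⁻¹ (γ 0 : Γ ⧸ _)) ∈ S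
        have := hψ2 (act ha hab g⁻¹ (γ 0 : Γ ⧸ _))
        have e := (ψ (act ha hab g⁻¹ (γ 0 : Γ ⧸ _))).symm_apply_apply
          (σ (act ha hab g⁻¹ (γ 0 : Γ ⧸ _)))
        rw [this] at e
        rw [e]; exact hσ _⟩
    refine Finite.of_injective (fun q : Γ ⧸ H => t q.out) fun q1 q2 h => ?_
    rw [← q1.out_eq', ← q2.out_eq']
    apply QuotientGroup.eq.2
    change t q1.out = t q2.out at h
    generalize q1.out = g1 at h ⊢
    generalize q2.out = g2 at h ⊢
    have h' := congrArg Subtype.val h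
    generalize hψa : ψ (act ha hab g1⁻¹ (γ 0 : Γ ⧸ _)) = ψa
    generalize hψb : ψ (act ha hab g2⁻¹ (γ 0 : Γ ⧸ _)) = ψb
    have ca : ∀ x y, (CG a b ha hab).Adj x y → c s(ψa x, ψa y) = c s(x, y) := by
      rw [← hψa]; exact hψ1 _
    have cb : ∀ x y, (CG a b ha hab).Adj x y → c s(ψb x, ψb y) = c s(x, y) := by
      rw [← hψb]; exact hψ1 _
    have key : ∀ y, (g1⁻¹ * g2) • y = ψa (ψb.symm y) := by
      intro y
      have : ψa.symm (g1⁻¹ • (g2 • y)) = ψb.symm (g2⁻¹ • (g2 • y)) := by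
        rw [← hψa, ← hψb]
        exact DFunLike.congr_fun h' (g2 • y)
      rw [inv_smul_smul] at this
      rw [← this, RelIso.apply_symm_apply, mul_smul]
    intro x y hxy
    have hxy' := ψb.symm.map_rel_iff.2 hxy
    rw [key, key, ca _ _ hxy', ← cb _ _ hxy', RelIso.apply_symm_apply, RelIso.apply_symm_apply]
  have htop := hfi H Subgroup.finiteIndex_of_finite_quotient
  obtain ⟨g, e1, e2⟩ := htr1 u v w x huv hwx
  have hg : g ∈ H := by rw [htop]; trivial
  apply hne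
  rw [← e1, ← e2]
  exact (hg u v huv).symm

end coset

end Pool.Agent.H715Z.Tutte
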