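import Mathlib

set_option autoImplicit false

namespace Pool.Agent.H715Z.VG

abbrev Pt := Fin 10 × ℕ
abbrev Cone := Fin 10 × List Bool
abbrev Tri := Cone × Cone × Cone

def val : List Bool → ℕ → ℕ
  | [], s => s
  | c :: l, s => 2 * val l s + c.toNat

def pt (p : Cone) (s : ℕ) : Pt := (p.1, val p.2 s)

theorem val_append (l m : List Bool) (s : ℕ) : val (l ++ m) s = val l (val m s) := by
  induction l with
  | nil => rfl
  | cons c l ih => simp [val, ih]

theorem split (_p : Cone) (s : ℕ) :
    (∃ s', ∀ q : Cone, pt q s = pt (q.1, q.2 ++ [false]) s') ∨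
    (∃ s', ∀ q : Cone, pt q s = pt (q.1, q.2 ++ [true]) s') := by
  rcases Nat.even_or_odd' s with ⟨k, rfl | rfl⟩
  · left; exact ⟨k, fun q => by simp [pt, val_append, val]⟩
  · right; exact ⟨k, fun q => by simp [pt, val_append, val]⟩

def Sound (F : Cone → Option Cone) (σ : Equiv.Perm Pt) : Prop :=
  ∀ p q, F p = some q → ∀ s, σ (pt p s) = pt q s

theorem Sound.comp {F G : Cone → Option Cone} {σ τ : Equiv.Perm Pt} (h1 : Sound F σ)
    (h2 : Sound G τ) : Sound (fun p => (F p).bind G) (τ * σ) := by
  intro p q h s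
  obtain ⟨r, e1, e2⟩ := Option.bind_eq_some_iff.1 h
  rw [Equiv.Perm.mul_apply, h1 p r e1, h2 r q e2]

def chkMap (F : Cone → Option Cone) : ℕ → Cone → Cone → Bool
  | 0, x, y => F x == some y
  | n + 1, x, y => F x == some y ||
      (chkMap F n (x.1, x.2 ++ [false]) (y.1, y.2 ++ [false]) &&
        chkMap F n (x.1, x.2 ++ [true]) (y.1, y.2 ++ [true]))

theorem chkMap_sound {F : Cone → Option Cone} {σ : Equiv.Perm Pt} (h : Sound F σ) :
    ∀ n x y, chkMap F n x y = true → ∀ s, σ (pt x s) = pt y s := by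
  intro n
  induction n with
  | zero => intro x y e; exact h x y (by simpa [chkMap] using e)
  | succ n ih =>
    intro x y e s
    simp only [chkMap, Bool.or_eq_true, Bool.and_eq_true, beq_iff_eq] at e
    rcases e with e | ⟨e1, e2⟩
    · exact h x y e s
    · rcases split x s with ⟨k, hk⟩ | ⟨k, hk⟩
      · rw [hk x, hk y]; exact ih _ _ e1 k
      · rw [hk x, hk y]; exact ih _ _ e2 k

def cover (C : List Cone) : ℕ → Cone → Bool
  | 0, p => C.contains p
  | n + 1, p => C.contains p || (cover C n (p.1, p.2 ++ [false]) && cover C n (p.1, p.2 ++ [true]))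

theorem cover_sound (C : List Cone) : ∀ n p, cover C n p = true → ∀ s, ∃ c ∈ C, ∃ s',
    pt p s = pt c s' := by
  intro n
  induction n with
  | zero => intro p e s; exact ⟨p, by simpa [cover] using e, s, rfl⟩
  | succ n ih =>
    intro p e s
    simp only [cover, Bool.or_eq_true, Bool.and_eq_true] at e
    rcases e with e | ⟨e1, e2⟩
    · exact ⟨p, by simpa using e, s, rfl⟩
    · rcases split p s with ⟨k, hk⟩ | ⟨k, hk⟩
      · rw [hk p]; exact ih _ e1 k
      · rw [hk p]; exact ih _ e2 k

def coverAll (C : List Cone) (n : ℕ) : Bool := (List.finRange 10).all fun i => cover C n (i, [])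

theorem coverAll_sound {C : List Cone} {n : ℕ} (h : coverAll C n = true) (P : Pt) :
    ∃ c ∈ C, ∃ s, P = pt c s := by
  simp only [coverAll, List.all_eq_true] at h
  exact cover_sound C n (P.1, []) (h P.1 (List.mem_finRange _)) P.2

def chkEq (F G : Cone → Option Cone) (C : List Cone) (n : ℕ) : Bool :=
  coverAll C n && C.all fun c => (F c).isSome && F c == G c

theorem eq_of_chkEq {F G : Cone → Option Cone} {σ τ : Equiv.Perm Pt} (h1 : Sound F σ)
    (h2 : Sound G τ) {C : List Cone} {n : ℕ} (h : chkEq F G C n = true) : σ = τ := by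
  simp only [chkEq, Bool.and_eq_true, List.all_eq_true, beq_iff_eq] at h
  ext1 P
  obtain ⟨c, hc, s, rfl⟩ := coverAll_sound h.1 P
  obtain ⟨e1, e2⟩ := h.2 c hc
  obtain ⟨q, hq⟩ := Option.isSome_iff_exists.1 e1
  rw [h1 c q hq, h2 c q (e2 ▸ hq)]

def Is3 (σ : Equiv.Perm Pt) (t : Tri) : Prop :=
  (∀ s, σ (pt t.1 s) = pt t.2.1 s) ∧ (∀ s, σ (pt t.2.1 s) = pt t.2.2 s) ∧
  (∀ s, σ (pt t.2.2 s) = pt t.1 s) ∧
  ∀ P, (∀ s, P ≠ pt t.1 s) → (∀ s, P ≠ pt t.2.1 s) → (∀ s, P ≠ pt t.2.2 s) → σ P = P

def strip : List Bool → List Bool → Option (List Bool)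
  | [], m => some m
  | _ :: _, [] => none
  | c :: l, d :: m => if c = d then strip l m else none

theorem strip_sound : ∀ l m r, strip l m = some r → m = l ++ r
  | [], m, r, h => by simpa [strip] using h
  | _ :: _, [], r, h => by simp [strip] at h
  | c :: l, d :: m, r, h => by
    by_cases e : c = d
    · simp only [strip, if_pos e] at h
      rw [strip_sound l m r h, e]; rfl
    · simp [strip, e] at h

def ldisj : List Bool → List Bool → Bool
  | c :: l, d :: m => c != d || ldisj l m
  | _, _ => false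

theorem ldisj_sound : ∀ l m, ldisj l m = true → ∀ s s', val l s ≠ val m s'
  | [], _, h => by simp [ldisj] at h
  | _ :: _, [], h => by simp [ldisj] at h
  | c :: l, d :: m, h => by
    intro s s' e
    simp only [ldisj, Bool.or_eq_true, bne_iff_ne] at h
    simp only [val] at e
    rcases h with h | h
    · cases c <;> cases d <;> simp at h e <;> omega
    · apply ldisj_sound l m h s s'
      cases c <;> cases d <;> simp at e <;> omega

def sub (x p : Cone) : Option (List Bool) := if x.1 = p.1 then strip x.2 p.2 else none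

theorem sub_sound {x p : Cone} {r : List Bool} (h : sub x p = some r) (s : ℕ) :
    pt p s = pt x (val r s) := by
  unfold sub at h
  split_ifs at h with e
  simp only [pt, e, strip_sound _ _ _ h, val_append]

def dis (x p : Cone) : Bool := x.1 != p.1 || ldisj x.2 p.2

theorem dis_sound {x p : Cone} (h : dis x p = true) (s s' : ℕ) : pt p s ≠ pt x s' := by
  intro e
  simp only [dis, Bool.or_eq_true, bne_iff_ne] at h
  simp only [pt, Prod.mk.injEq] at e
  rcases h with h | h
  · exact h e.1.symm
  · exact ldisj_sound _ _ h _ _ e.2.symm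

def act (t : Tri) (p : Cone) : Option Cone :=
  match sub t.1 p with
  | some r => some (t.2.1.1, t.2.1.2 ++ r)
  | none =>
    match sub t.2.1 p with
    | some r => some (t.2.2.1, t.2.2.2 ++ r)
    | none =>
      match sub t.2.2 p with
      | some r => some (t.1.1, t.1.2 ++ r)
      | none => if dis t.1 p && dis t.2.1 p && dis t.2.2 p then some p else none

theorem pt_app (x : Cone) (r : List Bool) (s : ℕ) : pt (x.1, x.2 ++ r) s = pt x (val r s) := by
  simp [pt, val_append]

theorem Is3.sound {σ : Equiv.Perm Pt} {t : Tri} (h : Is3 σ t) : Sound (act t) σ := by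
  intro p q e s
  unfold act at e
  split at e
  · rename_i r hr
    rw [sub_sound hr, h.1, ← Option.some.inj e, pt_app]
  · split at e
    · rename_i r hr
      rw [sub_sound hr, h.2.1, ← Option.some.inj e, pt_app]
    · split at e
      · rename_i r hr
        rw [sub_sound hr, h.2.2.1, ← Option.some.inj e, pt_app]
      · split_ifs at e with hd
        simp only [Bool.and_eq_true] at hd
        rw [← Option.some.inj e]
        exact h.2.2.2 _ (dis_sound hd.1.1 s) (dis_sound hd.1.2 s) (dis_sound hd.2 s)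

def chk3 (F : Cone → Option Cone) (n : ℕ) (t : Tri) (C : List Cone) : Bool :=
  chkMap F n t.1 t.2.1 && chkMap F n t.2.1 t.2.2 && chkMap F n t.2.2 t.1 &&
    C.all (fun c => chkMap F n c c) && coverAll (t.1 :: t.2.1 :: t.2.2 :: C) n

theorem is3_of_chk {F : Cone → Option Cone} {σ : Equiv.Perm Pt} (h : Sound F σ) {n : ℕ} {t : Tri}
    {C : List Cone} (e : chk3 F n t C = true) : Is3 σ t := by
  simp only [chk3, Bool.and_eq_true, List.all_eq_true] at e
  obtain ⟨⟨⟨⟨e1, e2⟩, e3⟩, e4⟩, e5⟩ := e
  refine ⟨chkMap_sound h _ _ _ e1, chkMap_sound h _ _ _ e2, chkMap_sound h _ _ _ e3, ?_⟩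
  intro P h1 h2 h3
  obtain ⟨c, hc, s, rfl⟩ := coverAll_sound e5 P
  simp only [List.mem_cons] at hc
  rcases hc with rfl | rfl | rfl | hc
  · exact absurd rfl (h1 s)
  · exact absurd rfl (h2 s)
  · exact absurd rfl (h3 s)
  · exact chkMap_sound h _ _ _ (e4 c hc) s

def run3 (F : Cone → Option Cone) (t : Tri) : Option Tri :=
  (F t.1).bind fun x => (F t.2.1).bind fun y => (F t.2.2).bind fun z => some (x, y, z)

theorem Is3.conj {F : Cone → Option Cone} {h σ : Equiv.Perm Pt} (hF : Sound F h) {t t' : Tri}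
    (e : run3 F t = some t') (hσ : Is3 σ t) : Is3 (h * σ * h⁻¹) t' := by
  simp only [run3, Option.bind_eq_some_iff] at e
  obtain ⟨x, hx, y, hy, z, hz, e⟩ := e
  obtain rfl := Option.some.inj e
  have a1 := hF _ _ hx
  have a2 := hF _ _ hy
  have a3 := hF _ _ hz
  refine ⟨fun s => ?_, fun s => ?_, fun s => ?_, fun P h1 h2 h3 => ?_⟩
  · rw [← a1, ← a2, ← hσ.1]; simp
  · rw [← a2, ← a3, ← hσ.2.1]; simp
  · rw [← a3, ← a1, ← hσ.2.2.1]; simp
  · have : σ (h⁻¹ P) = h⁻¹ P := by
      apply hσ.2.2.2
      · intro s e; apply h1 s; rw [← a1, ← e]; simp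
      · intro s e; apply h2 s; rw [← a2, ← e]; simp
      · intro s e; apply h3 s; rw [← a3, ← e]; simp
    rw [Equiv.Perm.mul_apply, Equiv.Perm.mul_apply, this]; simp

def rev (t : Tri) : Tri := (t.1, t.2.2, t.2.1)

theorem Is3.inv {σ : Equiv.Perm Pt} {t : Tri} (h : Is3 σ t) : Is3 σ⁻¹ (rev t) := by
  refine ⟨fun s => ?_, fun s => ?_, fun s => ?_, fun P h1 h2 h3 => ?_⟩
  · exact Equiv.Perm.inv_eq_iff_eq.2 (h.2.2.1 s).symm
  · exact Equiv.Perm.inv_eq_iff_eq.2 (h.2.1 s).symm
  · exact Equiv.Perm.inv_eq_iff_eq.2 (h.1 s).symm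
  · exact Equiv.Perm.inv_eq_iff_eq.2 (h.2.2.2 P h1 h3 h2).symm

/-! The two generators. -/

def ta : Fin 10 → Fin 10 := ![0, 3, 8, 1, 4, 5, 9, 7, 2, 6]
def tb : Fin 10 → Fin 10 := ![1, 2, 0, 4, 5, 3, 7, 8, 6, 9]
def tB : Fin 10 → Fin 10 := ![2, 0, 1, 5, 3, 4, 8, 6, 7, 9]

def fa (P : Pt) : Pt :=
  if P.1 = 5 then (if P.2 % 2 = 0 then 0 else 7, P.2 / 2)
  else if P.1 = 0 then (5, 2 * P.2)
  else if P.1 = 7 then (5, 2 * P.2 + 1)
  else (ta P.1, P.2)

theorem fa5 (s : ℕ) : fa (5, s) = (if s % 2 = 0 then 0 else 7, s / 2) := rfl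
theorem fa0 (s : ℕ) : fa (0, s) = (5, 2 * s) := rfl
theorem fa7 (s : ℕ) : fa (7, s) = (5, 2 * s + 1) := rfl
theorem fa50 (s : ℕ) : fa (5, 2 * s) = (0, s) := by
  rw [fa5, if_pos (by omega)]; congr 1; omega
theorem fa51 (s : ℕ) : fa (5, 2 * s + 1) = (7, s) := by
  rw [fa5, if_neg (by omega)]; congr 1; omega

theorem fa_inv : Function.Involutive fa := by
  rintro ⟨i, s⟩
  by_cases h5 : i = 5
  · subst h5
    rcases Nat.even_or_odd' s with ⟨k, rfl | rfl⟩
    · rw [fa50, fa0]
    · rw [fa51, fa7]
  by_cases h0 : i = 0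
  · subst h0; rw [fa0, fa50]
  by_cases h7 : i = 7
  · subst h7; rw [fa7, fa51]
  fin_cases i <;> first | rfl | exact absurd rfl h5 | exact absurd rfl h0 | exact absurd rfl h7

def pa : Equiv.Perm Pt := fa_inv.toPerm fa

def pb : Equiv.Perm Pt where
  toFun P := (tb P.1, P.2)
  invFun P := (tB P.1, P.2)
  left_inv := by rintro ⟨i, s⟩; fin_cases i <;> rfl
  right_inv := by rintro ⟨i, s⟩; fin_cases i <;> rfl

def pk : Equiv.Perm Pt := (pb⁻¹ * pa * pb⁻¹ * pa * pb * pa * pb * pa) ^ 8

inductive L | a | b | B | k | K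

def gen : L → Equiv.Perm Pt
  | .a => pa
  | .b => pb
  | .B => pb⁻¹
  | .k => pk
  | .K => pk⁻¹

def ev : List L → Equiv.Perm Pt
  | [] => 1
  | c :: w => ev w * gen c

def run (st : L → Cone → Option Cone) : List L → Cone → Option Cone
  | [], p => some p
  | c :: w, p => (st c p).bind (run st w)

theorem run_sound {st : L → Cone → Option Cone} (h : ∀ c, Sound (st c) (gen c)) :
    ∀ w, Sound (run st w) (ev w)
  | [] => by
    intro p q e s
    obtain rfl := Option.some.inj e
    rfl
  | c :: w => (h c).comp (run_sound h w)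

def sa (p : Cone) : Option Cone :=
  if p.1 = 5 then
    match p.2 with
    | [] => none
    | c :: l => some (if c then 7 else 0, l)
  else if p.1 = 0 then some (5, false :: p.2)
  else if p.1 = 7 then some (5, true :: p.2)
  else some (ta p.1, p.2)

theorem sa_sound : Sound sa pa := by
  rintro ⟨i, l⟩ q e s
  show fa (i, val l s) = pt q s
  by_cases h5 : i = 5
  · subst h5
    rcases l with _ | ⟨c, l⟩
    · simp [sa] at e
    · cases c
      · obtain rfl : (0, l) = q := Option.some.inj e
        exact fa50 _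
      · obtain rfl : (7, l) = q := Option.some.inj e
        exact fa51 _
  by_cases h0 : i = 0
  · subst h0
    obtain rfl : (5, false :: l) = q := Option.some.inj e
    rfl
  by_cases h7 : i = 7
  · subst h7
    obtain rfl : (5, true :: l) = q := Option.some.inj e
    rfl
  simp only [sa, if_neg h5, if_neg h0, if_neg h7] at e
  obtain rfl := Option.some.inj e
  simp only [fa, if_neg h5, if_neg h0, if_neg h7]
  rfl

def st0 : L → Cone → Option Cone
  | .a, p => sa p
  | .b, p => some (tb p.1, p.2)
  | .B, p => some (tB p.1, p.2)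
  | .k, _ => none
  | .K, _ => none

theorem st0_sound : ∀ c, Sound (st0 c) (gen c)
  | .a => sa_sound
  | .b => by intro p q e s; obtain rfl := Option.some.inj e; rfl
  | .B => by intro p q e s; obtain rfl := Option.some.inj e; rfl
  | .k => by intro p q e; simp [st0] at e
  | .K => by intro p q e; simp [st0] at e

def w0 : List L := [.a, .b, .a, .b, .a, .B, .a, .B]

def t0 : Tri := ((0, []), (5, [false]), (4, [true, false]))

theorem ev_append (v w : List L) : ev (v ++ w) = ev w * ev v := by
  induction v with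
  | nil => simp [ev]
  | cons c v ih => simp [ev, ih, mul_assoc]

theorem pk_eq : pk = ev (w0 ++ w0 ++ w0 ++ w0 ++ w0 ++ w0 ++ w0 ++ w0) := by
  have : ev w0 = pb⁻¹ * pa * pb⁻¹ * pa * pb * pa * pb * pa := by simp [w0, ev, gen]
  simp only [ev_append, this, pk, pow_succ, pow_zero, one_mul, mul_assoc]

theorem pk_is3 : Is3 pk t0 := by
  rw [pk_eq]
  exact is3_of_chk (run_sound st0_sound _) (n := 8)
    (C := [(1, []), (2, []), (3, []), (4, [false]), (4, [true, true]), (5, [true]), (6, []), (7, []),
      (8, []), (9, [])]) (by decide +kernel)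

def st : L → Cone → Option Cone
  | .k, p => act t0 p
  | .K, p => act (rev t0) p
  | c, p => st0 c p

theorem st_sound : ∀ c, Sound (st c) (gen c)
  | .a => st0_sound .a
  | .b => st0_sound .b
  | .B => st0_sound .B
  | .k => pk_is3.sound
  | .K => pk_is3.inv.sound

def Γ : Subgroup (Equiv.Perm Pt) := Subgroup.closure {pa, pb}

theorem pa_mem : pa ∈ Γ := Subgroup.subset_closure (by simp)
theorem pb_mem : pb ∈ Γ := Subgroup.subset_closure (by simp)
theorem pk_mem : pk ∈ Γ := by
  have a := pa_mem
  have b := pb_mem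
  have c := inv_mem pb_mem
  exact pow_mem (mul_mem (mul_mem (mul_mem (mul_mem (mul_mem (mul_mem (mul_mem c a) c) a) b) a) b) a) 8

theorem ev_mem : ∀ w, ev w ∈ Γ
  | [] => one_mem _
  | c :: w => mul_mem (ev_mem w) (by
      cases c
      · exact pa_mem
      · exact pb_mem
      · exact inv_mem pb_mem
      · exact pk_mem
      · exact inv_mem pk_mem)

def actL : List (Bool × List L) → Cone → Option Cone
  | [], p => some p
  | (e, h) :: r, p =>
    ((run3 (run st h) (if e then t0 else rev t0)).bind fun t => act t p).bind (actL r)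

theorem actL_sound {K : Subgroup (Equiv.Perm Pt)} (hK : ∀ g ∈ Γ, ∀ x ∈ K, g * x * g⁻¹ ∈ K)
    (hk : pk ∈ K) : ∀ r, ∃ σ ∈ K, Sound (actL r) σ
  | [] => ⟨1, one_mem _, by intro p q e s; obtain rfl := Option.some.inj e; rfl⟩
  | (e, h) :: r => by
    obtain ⟨σ, hσ, hs⟩ := actL_sound hK hk r
    obtain ⟨τ, hτ, h3⟩ : ∃ τ ∈ K, Is3 τ (if e then t0 else rev t0) := by
      cases e
      · exact ⟨pk⁻¹, inv_mem hk, pk_is3.inv⟩
      · exact ⟨pk, hk, pk_is3⟩
    refine ⟨σ * (ev h * τ * (ev h)⁻¹), mul_mem hσ (hK _ (ev_mem h) _ hτ), ?_⟩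
    refine Sound.comp (F := fun p => (run3 (run st h) (if e then t0 else rev t0)).bind
      fun t => act t p) ?_ hs
    intro p q e'
    obtain ⟨t, e1, e2⟩ := Option.bind_eq_some_iff.1 e'
    exact (h3.conj (run_sound st_sound h) e1).sound p q e2

def dA : List (Bool × List L) := [
  (true, [.B, .a, .b, .K, .B, .a, .b, .a, .b, .a, .B, .k, .B, .a, .b]),
  (false, [.B, .a, .B, .a, .B, .a, .b, .K, .b, .a, .b, .K, .B, .a, .b, .a, .B, .a, .B, .a, .K, .b]),
  (true, [.B, .a, .b, .K, .B, .a, .B, .a, .b, .a, .B, .a, .b, .a, .B, .a, .K, .b, .a, .B]),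
  (false, [.B, .a, .B, .a, .K, .b, .a, .B]),
  (true, [.B, .a, .B, .k, .B, .a, .K, .b, .a, .b, .a, .b, .a, .K, .b]),
  (false, [.B, .a, .B, .a, .K, .b, .a, .b, .a, .k, .B, .a, .B, .a, .b, .a, .K, .b]),
  (false, [.B, .a, .B, .a, .K, .b, .a, .B, .a, .B, .a, .b, .a, .B, .a, .b, .a, .K, .B]),
  (false, [.B, .a, .b, .K, .B, .a, .b, .a, .K, .B, .a, .b, .a, .B, .a, .B, .a, .b, .a, .b, .a, .b]),
  (true, [.B, .a, .B, .a, .K, .b, .a, .b, .a, .k, .B, .a, .B, .a, .B, .a, .B, .a, .K, .b, .a, .B]),
  (false, [.B, .a, .b, .K, .B, .a, .b, .a, .K, .B, .a, .B, .a, .b, .a, .k, .b, .a, .B])]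

def dB : List (Bool × List L) := [
  (true, [.B, .a, .b, .a, .k, .b, .a, .B, .a, .B, .a, .b, .a, .B, .a, .b, .K, .b, .a, .K, .b, .k, .b, .k]),
  (true, [.B, .a, .B, .k, .B, .a, .b, .K, .b, .a, .B, .a, .b, .k, .B, .a, .b, .K, .b, .a, .k, .b, .a]),
  (false, [.B, .a, .b, .a, .b, .a, .b, .a, .B, .a, .B, .a, .b, .K, .B, .a, .b, .a, .b, .a, .B]),
  (true, [.B, .a, .B, .a, .K, .b, .a, .B, .k, .B, .a, .k, .b, .K, .b, .a, .b, .a, .B, .k, .B, .a])]

def hu : List L := [.B, .a, .b, .K, .B, .a, .b, .k, .b, .a, .b, .a, .B, .a, .b, .a, .B, .a, .b]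
def hv : List L := [.B, .a, .B, .k, .b, .a]
def wg : List L := [.a, .B, .a, .b]
def wG : List L := [.B, .a, .b, .a]
def tu' : Tri := ((3, [false, true, false]), (3, [false, false, true]), (3, [true]))
def tu : Tri := ((3, [true, false]), (3, [false, true]), (2, []))
def tv : Tri := ((2, []), (4, [false]), (1, [false, true, false]))

theorem pa_sq : pa * pa = 1 := by
  ext1 P; exact fa_inv P

theorem pb_cube : pb ^ 3 = 1 := by
  ext1 P
  obtain ⟨i, s⟩ := P
  simp only [pow_succ, pow_zero, one_mul, Equiv.Perm.mul_apply]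
  fin_cases i <;> rfl

theorem wG_eq : ev wG = (ev wg)⁻¹ := by
  have : pa⁻¹ = pa := inv_eq_of_mul_eq_one_right pa_sq
  simp [wG, wg, ev, gen, this, mul_assoc]

theorem pk_mem_K {K : Subgroup (Equiv.Perm Pt)} (hK : ∀ g ∈ Γ, ∀ x ∈ K, g * x * g⁻¹ ∈ K)
    (hp : ∀ g ∈ Γ, ∃ m, 0 < m ∧ g ^ m ∈ K) : pk ∈ K := by
  have u3 : Is3 (ev hu * pk * (ev hu)⁻¹) tu' :=
    pk_is3.conj (run_sound st_sound hu) (by decide +kernel)
  have v3 : Is3 (ev hv * pk * (ev hv)⁻¹) tv :=
    pk_is3.conj (run_sound st_sound hv) (by decide +kernel)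
  have uΓ : ev hu * pk * (ev hu)⁻¹ ∈ Γ := mul_mem (mul_mem (ev_mem _) pk_mem) (inv_mem (ev_mem _))
  have vΓ : ev hv * pk * (ev hv)⁻¹ ∈ Γ := mul_mem (mul_mem (ev_mem _) pk_mem) (inv_mem (ev_mem _))
  generalize ev hu * pk * (ev hu)⁻¹ = u' at u3 uΓ
  generalize ev hv * pk * (ev hv)⁻¹ = v at v3 vΓ
  have u4 : Is3 (ev wG * u' * (ev wG)⁻¹) tu := u3.conj (run_sound st_sound wG) (by decide +kernel)
  rw [wG_eq, inv_inv] at u4
  have gΓ := ev_mem wg
  have g3 : ∀ P : Pt, P.1 = 3 → (ev wg P).1 = 3 := by
    rintro ⟨i, s⟩ h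
    obtain rfl : i = 3 := h
    have := run_sound st_sound wg (3, []) (3, [false]) (by decide +kernel) s
    exact congrArg Prod.fst this
  generalize ev wg = g at u4 gΓ g3
  have gm : ∀ (m : ℕ) (P : Pt), P.1 = 3 → ((g ^ m) P).1 = 3 := by
    intro m
    induction m with
    | zero => intro P h; exact h
    | succ m ih => intro P h; rw [pow_succ', Equiv.Perm.mul_apply]; exact g3 _ (ih P h)
  have uf : ∀ P : Pt, P.1 ≠ 3 → u' P = P := by
    intro P h
    apply u3.2.2.2 <;> (rintro s rfl; exact h rfl)
  have vf : ∀ P : Pt, P.1 = 3 → v P = P := by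
    intro P h
    apply v3.2.2.2 <;> (rintro s rfl; exact absurd h (by simp [pt, tv]))
  obtain ⟨m, hm, hgm⟩ := hp g gΓ
  obtain ⟨m, rfl⟩ : ∃ k, m = k + 1 := ⟨m - 1, by omega⟩
  have hcomm : Commute (g ^ m * u' * (g ^ m)⁻¹) v := by
    apply Equiv.Perm.Disjoint.commute
    intro P
    by_cases h : P.1 = 3
    · exact Or.inr (vf P h)
    · left
      rw [Equiv.Perm.mul_apply, Equiv.Perm.mul_apply, uf]
      · simp
      · intro h'
        apply h
        have := gm m _ h'
        simpa using this
  have xΓ : g ^ m * u' * (g ^ m)⁻¹ ∈ Γ :=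
    mul_mem (mul_mem (pow_mem gΓ _) uΓ) (inv_mem (pow_mem gΓ _))
  have e1 : g⁻¹ * u' * g = (g ^ (m + 1))⁻¹ * (g ^ m * u' * (g ^ m)⁻¹) * g ^ (m + 1) := by group
  generalize g ^ m * u' * (g ^ m)⁻¹ = x at hcomm xΓ e1
  generalize g ^ (m + 1) = y at hgm e1
  rw [e1] at u4
  have hc : (y⁻¹ * x * y) * v * (y⁻¹ * x * y)⁻¹ * v⁻¹ ∈ K := by
    have e2 : (y⁻¹ * x * y) * v * (y⁻¹ * x * y)⁻¹ * v⁻¹ =
        y⁻¹ * (x * y * x⁻¹) * ((x * v) * y⁻¹ * (x * v)⁻¹) * (x * v * x⁻¹ * v⁻¹) * (v * y * v⁻¹) := by
      group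
    have e3 : x * v * x⁻¹ * v⁻¹ = 1 := by rw [hcomm.eq]; group
    rw [e2, e3, mul_one]
    exact mul_mem (mul_mem (mul_mem (inv_mem hgm) (hK _ xΓ _ hgm))
      (hK _ (mul_mem xΓ vΓ) _ (inv_mem hgm))) (hK _ vΓ _ hgm)
  generalize y⁻¹ * x * y = u at u4 hc
  have hs := ((((((st_sound .B).comp v3.inv.sound).comp u4.inv.sound).comp v3.sound).comp
    u4.sound).comp (st_sound .b))
  have := eq_of_chkEq hs pk_is3.inv.sound (n := 4) (C := [(0, [false, false, false]), (0, [false, false, true]), (0, [false, true, false]), (0, [false, true, true]), (0, [true, false, false]), (0, [true, false, true]), (0, [true, true, false]), (0, [true, true, true]), (1, [false, false, false]), (1, [false, false, true]), (1, [false, true, false]), (1, [false, true, true]), (1, [true, false, false]), (1, [true, false, true]), (1, [true, true, false]), (1, [true, true, true]), (2, [false, false, false]), (2, [false, false, true]), (2, [false, true, false]), (2, [false, true, true]), (2, [true, false, false]), (2, [true, false,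 true]), (2, [true, true, false]), (2, [true, true, true]), (3, [false, false, false]), (3, [false, false, true]), (3, [false, true, false]), (3, [false, true, true]), (3, [true, false, false]), (3, [true, false, true]), (3, [true, true, false]), (3, [true, true, true]), (4, [false, false, false]), (4, [false, false, true]), (4, [false, true, false]), (4, [false, true, true]), (4, [true, false, false]), (4, [true, false, true]), (4, [true, true, false]), (4, [true, true, true]), (5, [false, false, false]), (5, [false, false, true]), (5, [false, true, false]), (5, [false, true, true]), (5, [true, false, false]), (5, [true, false, true]), (5, [true, true, false]), (5, [true, true, true]), (6, [false, false, false]), (6, [false, false, true]), (6, [false, true, false]), (6, [false, true, true]), (6, [true, false, false]), (6, [true, false, true]), (6, [true, true, false]), (6, [true, true, true]), (7, [false, false, false]), (7, [false, false, true]), (7, [false, true, false]), (7, [false, true, true]),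 (7, [true, false, false]), (7, [true, false, true]), (7, [true, true, false]), (7, [true, true, true]), (8, [false, false, false]), (8, [false, false, true]), (8, [false, true, false]), (8, [false, true, true]), (8, [true, false, false]), (8, [true, false, true]), (8, [true, true, false]), (8, [true, true, true]), (9, [false, false, false]), (9, [false, false, true]), (9, [false, true, false]), (9, [false, true, true]), (9, [true, false, false]), (9, [true, false, true]), (9, [true, true, false]), (9, [true, true, true])]) (by decide +kernel)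
  have h2 := hK pb pb_mem _ hc
  have h3 : pb * (u * v * u⁻¹ * v⁻¹) * pb⁻¹ = pk⁻¹ := by
    rw [← this]; simp [gen, mul_assoc]
  rw [h3] at h2
  exact inv_mem_iff.1 h2

theorem le_K {K : Subgroup (Equiv.Perm Pt)} (hK : ∀ g ∈ Γ, ∀ x ∈ K, g * x * g⁻¹ ∈ K)
    (hp : ∀ g ∈ Γ, ∃ m, 0 < m ∧ g ^ m ∈ K) : Γ ≤ K := by
  have hk := pk_mem_K hK hp
  obtain ⟨σ, hσ, hs⟩ := actL_sound hK hk dA
  obtain ⟨τ, hτ, ht⟩ := actL_sound hK hk dB
  have e1 := eq_of_chkEq hs (st_sound .a) (n := 4) (C := [(0, [false]), (0, [true]), (1, [false]), (1, [true]), (2, [false]), (2, [true]), (3, [false]), (3, [true]), (4, [false]), (4, [true]), (5, [false, false]), (5, [false, true]), (5, [true, false]), (5, [true, true]), (6, [false]), (6, [true]), (7, [false]), (7, [true]), (8, [false]), (8, [true]), (9, [false]), (9, [true])]) (by decide +kernel)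
  have e2 := eq_of_chkEq ht (st_sound .b) (n := 4) (C := [(0, []), (1, []), (2, []), (3, []), (4, []), (5, []), (6, []), (7, []), (8, []), (9, [])]) (by decide +kernel)
  rw [Γ, Subgroup.closure_le]
  rintro x (rfl | rfl)
  · exact (show σ = pa from e1) ▸ hσ
  · exact (show τ = pb from e2) ▸ hτ

theorem no_finite_index_aux {G : Type} [Group G] (Λ : Subgroup G)
    (hΛ : ∀ K : Subgroup G, (∀ g ∈ Λ, ∀ x ∈ K, g * x * g⁻¹ ∈ K) →
      (∀ g ∈ Λ, ∃ m, 0 < m ∧ g ^ m ∈ K) → Λ ≤ K)
    (H : Subgroup Λ) (hH : H.FiniteIndex) : H = ⊤ := by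
  have hN : H.normalCore.FiniteIndex := inferInstance
  have := hΛ (H.normalCore.map Λ.subtype) (by
    rintro g hg _ ⟨x, hx, rfl⟩
    exact ⟨⟨g, hg⟩ * x * ⟨g, hg⟩⁻¹, H.normalCore_normal.conj_mem x hx _, rfl⟩) (by
    intro g hg
    exact ⟨H.normalCore.index, Nat.pos_of_ne_zero hN.index_ne_zero, ⟨g, hg⟩ ^ H.normalCore.index,
      H.normalCore.pow_index_mem _, rfl⟩)
  rw [eq_top_iff]
  intro x _
  obtain ⟨y, hy, e⟩ := this x.2
  obtain rfl : y = x := Subtype.ext e
  exact H.normalCore_le hy

theorem no_finite_index (H : Subgroup Γ) (hH : H.FiniteIndex) : H = ⊤ :=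
  no_finite_index_aux Γ (fun _ h1 h2 => le_K h1 h2) H hH

theorem w0_pow : (pb⁻¹ * pa * pb⁻¹ * pa * pb * pa * pb * pa) ^ 24 = 1 := by
  have h := (pk_is3.sound.comp pk_is3.sound).comp pk_is3.sound
  have h1 : Sound some (1 : Equiv.Perm Pt) := by
    intro p q e s; obtain rfl := Option.some.inj e; rfl
  have : pk * (pk * pk) = 1 := eq_of_chkEq h h1 (n := 4) (C := [(0, [false, false, false]), (0, [false, false, true]), (0, [false, true, false]), (0, [false, true, true]), (0, [true, false, false]), (0, [true, false, true]), (0, [true, true, false]), (0, [true, true, true]), (1, [false, false, false]), (1, [false, false, true]), (1, [false, true, false]), (1, [false, true, true]), (1, [true, false, false]), (1, [true, false, true]), (1, [true, true, false]), (1, [true, true, true]), (2, [false, false, false]), (2, [false, false, true]), (2, [false, true, false]), (2, [false, true, true]), (2, [true, false, false]), (2, [true, false, true]), (2, [true, true, false]), (2, [true, true, true]), (3, [false,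 false, false]), (3, [false, false, true]), (3, [false, true, false]), (3, [false, true, true]), (3, [true, false, false]), (3, [true, false, true]), (3, [true, true, false]), (3, [true, true, true]), (4, [false, false, false]), (4, [false, false, true]), (4, [false, true, false]), (4, [false, true, true]), (4, [true, false, false]), (4, [true, false, true]), (4, [true, true, false]), (4, [true, true, true]), (5, [false, false, false]), (5, [false, false, true]), (5, [false, true, false]), (5, [false, true, true]), (5, [true, false, false]), (5, [true, false, true]), (5, [true, true, false]), (5, [true, true, true]), (6, [false, false, false]), (6, [false, false, true]), (6, [false, true, false]), (6, [false, true, true]), (6, [true, false, false]), (6, [true, false, true]), (6, [true, true, false]), (6, [true, true, true]), (7, [false, false, false]), (7, [false, false, true]), (7, [false, true, false]), (7, [false, true, true]), (7, [true, false, false]), (7, [true, false, true]), (7, [true, true,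 false]), (7, [true, true, true]), (8, [false, false, false]), (8, [false, false, true]), (8, [false, true, false]), (8, [false, true, true]), (8, [true, false, false]), (8, [true, false, true]), (8, [true, true, false]), (8, [true, true, true]), (9, [false, false, false]), (9, [false, false, true]), (9, [false, true, false]), (9, [false, true, true]), (9, [true, false, false]), (9, [true, false, true]), (9, [true, true, false]), (9, [true, true, true])]) (by decide +kernel)
  have e : ∀ x : Equiv.Perm Pt, x ^ 24 = x ^ 8 * (x ^ 8 * x ^ 8) := fun x => by group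
  unfold pk at this
  rw [e]
  exact this

def ga : Γ := ⟨pa, pa_mem⟩
def gb : Γ := ⟨pb, pb_mem⟩

theorem ga_sq : ga * ga = 1 := Subtype.ext pa_sq
theorem gb_cube : gb ^ 3 = 1 := Subtype.ext pb_cube

theorem gen_top : Subgroup.closure ({ga, gb} : Set Γ) = ⊤ := by
  rw [eq_top_iff]
  rintro ⟨x, hx⟩ -
  induction hx using Subgroup.closure_induction with
  | mem x hx =>
    rcases hx with rfl | rfl
    · exact Subgroup.subset_closure (Or.inl rfl)
    · exact Subgroup.subset_closure (Or.inr rfl)
  | one => exact one_mem _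
  | mul x y hx hy ihx ihy => exact mul_mem ihx ihy
  | inv x hx ih => exact inv_mem ih

def γ : ℕ → Γ
  | 0 => 1
  | i + 1 => γ i * (if i % 4 < 2 then gb * gb else gb) * ga

theorem γ_step (i : ℕ) : γ (i + 1) = γ i * gb * ga ∨ γ (i + 1) = γ i * (gb * gb) * ga := by
  by_cases h : i % 4 < 2
  · right; simp only [γ, if_pos h]
  · left; simp only [γ, if_neg h]

theorem γ_four (m : ℕ) : γ (4 * m) = (gb⁻¹ * ga * gb⁻¹ * ga * gb * ga * gb * ga) ^ m := by
  have hi : gb * gb = gb⁻¹ := by
    rw [eq_inv_iff_mul_eq_one, ← gb_cube]; simp [pow_succ]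
  induction m with
  | zero => rfl
  | succ m ih =>
    have e : 4 * (m + 1) = 4 * m + 1 + 1 + 1 + 1 := by ring
    rw [e]
    simp only [γ]
    rw [if_pos (by omega), if_pos (by omega), if_neg (by omega), if_neg (by omega), ih, hi, pow_succ]
    simp only [mul_assoc]

theorem γ_closed : γ (94 + 2) = γ 0 := by
  rw [show 94 + 2 = 4 * 24 from rfl, γ_four]
  apply Subtype.ext
  have := w0_pow
  simp only [SubgroupClass.coe_pow, Subgroup.coe_mul, InvMemClass.coe_inv, ga, gb, γ,
    OneMemClass.coe_one]
  exact this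

end Pool.Agent.H715Z.VG
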